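import Mathlib

/-!
# Interpolation for partitions into indivisible members of an up-set

`D` is a family of finite sets closed under supersets.  `Pack D k S` says that `S` contains `k`
pairwise disjoint members of `D`; `Par D k S` says that `S` is partitioned into `k` members none of
which contains two disjoint members.
-/

namespace Pool.Agent.R798.Adom

open Finset

variable {α : Type*} [DecidableEq α]

/-- `S` contains `k` pairwise disjoint members of `D` -/
def Pack (D : Finset α → Prop) : ℕ → Finset α → Prop
  | 0, _ => True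
  | k + 1, S => ∃ T, T ⊆ S ∧ D T ∧ Pack D k (S \ T)

/-- indivisible member -/
def Ind (D : Finset α → Prop) (T : Finset α) : Prop := D T ∧ ¬ Pack D 2 T

/-- `S` is partitioned into `k` indivisible members -/
def Par (D : Finset α → Prop) : ℕ → Finset α → Prop
  | 0, S => S = ∅
  | k + 1, S => ∃ T, T ⊆ S ∧ Ind D T ∧ Par D k (S \ T)

/-- closed under supersets -/
def Up (D : Finset α → Prop) : Prop := ∀ S T : Finset α, S ⊆ T → D S → D T

lemma Pack.mono {D : Finset α → Prop} : ∀ {k : ℕ} {S S' : Finset α}, S ⊆ S' → Pack D k S →
    Pack D k S'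
  | 0, _, _, _, _ => trivial
  | k + 1, S, S', h, hP => by
    obtain ⟨T, hT, hD, hP⟩ := hP
    exact ⟨T, hT.trans h, hD, Pack.mono (sdiff_subset_sdiff h (Subset.refl _)) hP⟩

lemma Pack.one {D : Finset α → Prop} {S : Finset α} (h : D S) : Pack D 1 S :=
  ⟨S, Subset.refl _, h, trivial⟩

lemma Pack.one_iff {D : Finset α → Prop} (hU : Up D) {S : Finset α} : Pack D 1 S ↔ D S := by
  constructor
  · rintro ⟨T, hT, hD, _⟩; exact hU _ _ hT hD
  · exact Pack.one

/-- removing one element costs at most one -/
lemma Pack.erase {D : Finset α → Prop} (x : α) : ∀ {k : ℕ} {S : Finset α}, Pack D (k + 1) S →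
    Pack D k (S.erase x)
  | 0, _, _ => trivial
  | k + 1, S, hP => by
    obtain ⟨T, hT, hD, hP⟩ := hP
    by_cases hx : x ∈ T
    · refine Pack.mono ?_ hP
      intro y hy
      rw [mem_sdiff] at hy
      rw [mem_erase]
      exact ⟨fun h => hy.2 (h ▸ hx), hy.1⟩
    · refine ⟨T, ?_, hD, ?_⟩
      · intro y hy
        rw [mem_erase]
        exact ⟨fun h => hx (h ▸ hy), hT hy⟩
      · have := Pack.erase x hP
        refine Pack.mono ?_ this
        intro y hy
        rw [mem_erase, mem_sdiff] at hy
        rw [mem_sdiff, mem_erase]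
        exact ⟨⟨hy.1, hy.2.1⟩, hy.2.2⟩

/-- additivity -/
lemma Pack.add {D : Finset α → Prop} : ∀ {a b : ℕ} {S T : Finset α}, Disjoint S T →
    Pack D a S → Pack D b T → Pack D (a + b) (S ∪ T)
  | 0, b, S, T, _, _, h2 => by
    rw [Nat.zero_add]
    exact Pack.mono subset_union_right h2
  | a + 1, b, S, T, hd, h1, h2 => by
    obtain ⟨X, hX, hD, hP⟩ := h1
    have e : a + 1 + b = (a + b) + 1 := by omega
    rw [e]
    refine ⟨X, hX.trans subset_union_left, hD, ?_⟩
    have := Pack.add (a := a) (b := b) (S := S \ X) (T := T)
      (disjoint_of_subset_left sdiff_subset hd) hP h2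
    refine Pack.mono ?_ this
    intro y hy
    rcases mem_union.1 hy with h | h
    · rw [mem_sdiff] at h
      rw [mem_sdiff]
      exact ⟨mem_union_left _ h.1, h.2⟩
    · rw [mem_sdiff]
      refine ⟨mem_union_right _ h, fun hyX => ?_⟩
      exact (disjoint_left.1 hd) (hX hyX) h

/-- a maximum packing extends to a partition into indivisible members -/
lemma par_of_max {D : Finset α → Prop} (hU : Up D) : ∀ {k : ℕ} {S : Finset α},
    Pack D (k + 1) S → ¬ Pack D (k + 2) S → Par D (k + 1) S
  | 0, S, h1, h2 => by
    refine ⟨S, Subset.refl _, ⟨(Pack.one_iff hU).1 h1, h2⟩, ?_⟩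
    show S \ S = ∅
    simp
  | k + 1, S, h1, h2 => by
    obtain ⟨T, hT, hD, hP⟩ := h1
    refine ⟨T, hT, ⟨hD, fun h => h2 ?_⟩, par_of_max hU hP (fun h => h2 ⟨T, hT, hD, h⟩)⟩
    have := Pack.add (disjoint_sdiff (s := T) (t := S)) h hP
    have e : 2 + (k + 1) = k + 1 + 2 := by omega
    rw [e] at this
    refine Pack.mono ?_ this
    exact union_subset hT sdiff_subset

/-- every member contains an indivisible member -/
lemma exists_ind {D : Finset α → Prop} (_hU : Up D) (hE : ¬ D ∅) : ∀ (n : ℕ) (S : Finset α),
    S.card = n → D S → ∃ T, T ⊆ S ∧ Ind D T := by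
  intro n
  induction n using Nat.strong_induction_on with
  | _ n ih =>
    intro S hS hD
    by_cases h : Pack D 2 S
    · obtain ⟨T, hT, hDT, T', hT', hDT', _⟩ := h
      have hne : T'.Nonempty := by
        rw [nonempty_iff_ne_empty]; rintro rfl; exact hE hDT'
      have hlt : T.card < n := by
        rw [← hS]
        apply card_lt_card
        refine ⟨hT, fun hc => ?_⟩
        obtain ⟨x, hx⟩ := hne
        have := hT' hx
        rw [mem_sdiff] at this
        exact this.2 (hc this.1)
      obtain ⟨R, hR, hI⟩ := ih T.card hlt T rfl hDT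
      exact ⟨R, hR.trans hT, hI⟩
    · exact ⟨S, Subset.refl _, hD, h⟩

lemma not_pack_two_mono {D : Finset α → Prop} {S T : Finset α} (h : S ⊆ T) (hT : ¬ Pack D 2 T) :
    ¬ Pack D 2 S := fun hS => hT (Pack.mono h hS)

/-- one move from an indivisible set towards another one -/
lemma move {D : Finset α → Prop} (hU : Up D) {C P : Finset α} (hC : Ind D C) (hP : Ind D P)
    (hne : C ≠ P) : ∃ C', Ind D C' ∧ C' ⊆ C ∪ P ∧ (∃ y, C'.erase y ⊆ C) ∧
      (C' \ P).card + (P \ C').card < (C \ P).card + (P \ C).card := by
  rcases (C \ P).eq_empty_or_nonempty with h1 | ⟨x, hx⟩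
  · -- C ⊆ P
    have hCP : C ⊆ P := sdiff_eq_empty_iff_subset.1 h1
    rcases (P \ C).eq_empty_or_nonempty with h2 | ⟨y, hy⟩
    · exact absurd (Subset.antisymm hCP (sdiff_eq_empty_iff_subset.1 h2)) hne
    · rw [mem_sdiff] at hy
      have hsub : insert y C ⊆ P := insert_subset hy.1 hCP
      refine ⟨insert y C, ⟨hU _ _ (subset_insert _ _) hC.1, not_pack_two_mono hsub hP.2⟩, ?_,
        ⟨y, ?_⟩, ?_⟩
      · exact hsub.trans subset_union_right
      · rw [erase_insert hy.2]
      · have e1 : (insert y C) \ P = ∅ := sdiff_eq_empty_iff_subset.2 hsub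
        have e2 : (P \ insert y C).card < (P \ C).card := by
          apply card_lt_card
          refine ⟨sdiff_subset_sdiff (Subset.refl _) (subset_insert _ _), fun hc => ?_⟩
          have := hc (mem_sdiff.2 hy)
          rw [mem_sdiff] at this
          exact this.2 (mem_insert_self _ _)
        rw [e1, h1]
        simpa using e2
  · rw [mem_sdiff] at hx
    have herase_sub : C.erase x ⊆ C := erase_subset _ _
    have hd1 : ((C.erase x) \ P).card < (C \ P).card := by
      apply card_lt_card
      refine ⟨sdiff_subset_sdiff herase_sub (Subset.refl _), fun hc => ?_⟩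
      have := hc (mem_sdiff.2 hx)
      rw [mem_sdiff, mem_erase] at this
      exact this.1.1 rfl
    have hd2 : P \ (C.erase x) = P \ C := by
      ext z
      simp only [mem_sdiff, mem_erase, not_and]
      constructor
      · rintro ⟨hz1, hz2⟩
        refine ⟨hz1, fun hzC => ?_⟩
        by_cases hzx : z = x
        · exact hx.2 (hzx ▸ hz1)
        · exact hz2 hzx hzC
      · rintro ⟨hz1, hz2⟩
        exact ⟨hz1, fun _ => hz2⟩
    by_cases hDe : D (C.erase x)
    · refine ⟨C.erase x, ⟨hDe, not_pack_two_mono herase_sub hC.2⟩, ?_, ⟨x, ?_⟩, ?_⟩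
      · exact herase_sub.trans subset_union_left
      · exact (erase_subset _ _).trans herase_sub
      · rw [hd2]; omega
    · -- C.erase x is not a member; so P ⊄ C
      rcases (P \ C).eq_empty_or_nonempty with h2 | ⟨y, hy⟩
      · exfalso
        apply hDe
        apply hU P _ _ hP.1
        intro z hz
        rw [mem_erase]
        exact ⟨fun h => hx.2 (h ▸ hz), (sdiff_eq_empty_iff_subset.1 h2) hz⟩
      · rw [mem_sdiff] at hy
        have hd3 : (P \ insert y C).card < (P \ C).card := by
          apply card_lt_card
          refine ⟨sdiff_subset_sdiff (Subset.refl _) (subset_insert _ _), fun hc => ?_⟩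
          have := hc (mem_sdiff.2 hy)
          rw [mem_sdiff] at this
          exact this.2 (mem_insert_self _ _)
        by_cases hpk : Pack D 2 (insert y C)
        · -- swap
          have hxy : x ≠ y := fun h => hx.2 (h ▸ hy.1)
          refine ⟨insert y (C.erase x), ⟨?_, ?_⟩, ?_, ⟨y, ?_⟩, ?_⟩
          · obtain ⟨A, hA, hDA, B, hB, hDB, _⟩ := hpk
            by_cases hxA : x ∈ A
            · apply hU B _ _ hDB
              intro z hz
              have hz' := hB hz
              rw [mem_sdiff, mem_insert] at hz'
              rw [mem_insert, mem_erase]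
              rcases hz'.1 with h | h
              · exact Or.inl h
              · exact Or.inr ⟨fun hzx => hz'.2 (hzx ▸ hxA), h⟩
            · apply hU A _ _ hDA
              intro z hz
              have hz' := hA hz
              rw [mem_insert] at hz'
              rw [mem_insert, mem_erase]
              rcases hz' with h | h
              · exact Or.inl h
              · exact Or.inr ⟨fun hzx => hxA (hzx ▸ hz), h⟩
          · intro h
            have := Pack.erase y h
            rw [Pack.one_iff hU] at this
            apply hDe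
            rw [erase_insert] at this
            · exact this
            · rw [mem_erase]; exact fun h => hy.2 h.2
          · apply insert_subset (mem_union_right _ hy.1)
            exact herase_sub.trans subset_union_left
          · rw [erase_insert]
            · exact herase_sub
            · rw [mem_erase]; exact fun h => hy.2 h.2
          · have e1 : (insert y (C.erase x)) \ P = (C.erase x) \ P := insert_sdiff_of_mem _ hy.1
            have e2 : (P \ insert y (C.erase x)).card < (P \ C).card := by
              rw [← hd2]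
              apply card_lt_card
              refine ⟨sdiff_subset_sdiff (Subset.refl _) (subset_insert _ _), fun hc => ?_⟩
              have : y ∈ P \ C.erase x := by rw [hd2]; exact mem_sdiff.2 hy
              have := hc this
              rw [mem_sdiff] at this
              exact this.2 (mem_insert_self _ _)
            rw [e1]; omega
        · -- add y
          refine ⟨insert y C, ⟨hU _ _ (subset_insert _ _) hC.1, hpk⟩, ?_, ⟨y, ?_⟩, ?_⟩
          · exact insert_subset (mem_union_right _ hy.1) subset_union_left
          · rw [erase_insert hy.2]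
          · have e1 : (insert y C) \ P = C \ P := insert_sdiff_of_mem _ hy.1
            rw [e1]; omega

/-- the sliding argument -/
lemma slide {D : Finset α → Prop} (hU : Up D) {S P : Finset α} {k : ℕ} (hPS : P ⊆ S)
    (hP : Ind D P) (hPk : ¬ Pack D (k + 1) (S \ P)) : ∀ (n : ℕ) (C : Finset α), C ⊆ S →
      Ind D C → Pack D (k + 1) (S \ C) → (C \ P).card + (P \ C).card = n → Par D (k + 2) S := by
  intro n
  induction n using Nat.strong_induction_on with
  | _ n ih =>
    intro C hCS hC hCk hn
    have hne : C ≠ P := by
      rintro rfl; exact hPk hCk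
    obtain ⟨C', hC', hsub, ⟨y, hy⟩, hlt⟩ := move hU hC hP hne
    have hC'S : C' ⊆ S := hsub.trans (union_subset hCS hPS)
    by_cases h : Pack D (k + 1) (S \ C')
    · exact ih _ (by omega) C' hC'S hC' h rfl
    · refine ⟨C, hCS, hC, par_of_max hU hCk (fun h2 => h ?_)⟩
      have := Pack.erase y h2
      refine Pack.mono ?_ this
      intro z hz
      rw [mem_erase, mem_sdiff] at hz
      rw [mem_sdiff]
      refine ⟨hz.2.1, fun hzC => hz.2.2 (hy ?_)⟩
      rw [mem_erase]
      exact ⟨hz.1, hzC⟩

/-- The interpolation step. -/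
theorem interpolate {D : Finset α → Prop} (hU : Up D) (hE : ¬ D ∅) : ∀ (k : ℕ) (S : Finset α),
    Par D (k + 1) S → Pack D (k + 2) S → Par D (k + 2) S := by
  intro k
  induction k with
  | zero =>
    intro S h1 h2
    obtain ⟨P, hPS, hP, hrest⟩ := h1
    have hrest' : S \ P = ∅ := hrest
    have hSP : S ⊆ P := sdiff_eq_empty_iff_subset.1 hrest'
    exact absurd (Pack.mono hSP h2) hP.2
  | succ k ih =>
    intro S h1 h2
    obtain ⟨P, hPS, hP, hrest⟩ := h1
    by_cases h : Pack D (k + 2) (S \ P)
    · exact ⟨P, hPS, hP, ih _ hrest h⟩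
    · obtain ⟨Q, hQS, hDQ, hQk⟩ := h2
      obtain ⟨C, hCQ, hC⟩ := exists_ind hU hE _ Q rfl hDQ
      exact slide hU hPS hP h _ C (hCQ.trans hQS) hC
        (Pack.mono (sdiff_subset_sdiff (Subset.refl _) hCQ) hQk) rfl

end Pool.Agent.R798.Adom
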