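import Mathlib
import Pool.Agent.R798.AdomA

/-!
# From recursive partitions to `Finpartition`s
-/

namespace Pool.Agent.R798.Adom

open Finset

variable {α : Type*} [DecidableEq α]

lemma Ind.nonempty {D : Finset α → Prop} (hE : ¬ D ∅) {T : Finset α} (h : Ind D T) :
    T ≠ ∅ := by
  rintro rfl; exact hE h.1

/-- a recursive partition gives a `Finpartition` -/
lemma fin_of_par {D : Finset α → Prop} (hE : ¬ D ∅) : ∀ {k : ℕ} {S : Finset α}, Par D k S →
    ∃ P : Finpartition S, P.parts.card = k ∧ ∀ T ∈ P.parts, Ind D T
  | 0, S, h => by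
    have h' : S = ∅ := h
    subst h'
    exact ⟨Finpartition.empty _, rfl, fun T hT => absurd hT (notMem_empty T)⟩
  | k + 1, S, h => by
    obtain ⟨T, hT, hI, hP⟩ := h
    obtain ⟨P, hc, hPI⟩ := fin_of_par hE hP
    have hb : T ≠ (⊥ : Finset α) := hI.nonempty hE
    have hdis : Disjoint (S \ T) T := sdiff_disjoint
    have hun : (S \ T) ⊔ T = S := by
      rw [sup_eq_union]; exact sdiff_union_of_subset hT
    refine ⟨P.extend hb hdis hun, ?_, ?_⟩
    · rw [Finpartition.card_extend, hc]
    · intro U hU
      rw [Finpartition.extend_parts, mem_insert] at hU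
      rcases hU with rfl | hU
      · exact hI
      · exact hPI U hU

/-- a disjoint family of indivisible members gives a recursive partition -/
lemma par_of_family {D : Finset α → Prop} : ∀ (F : Finset (Finset α)),
    (∀ A ∈ F, ∀ B ∈ F, A ≠ B → Disjoint A B) → (∀ A ∈ F, Ind D A) →
    Par D F.card (F.biUnion id) := by
  intro F
  induction F using Finset.induction_on with
  | empty => intro _ _; rfl
  | insert A F hA ih =>
    intro hd hI
    rw [card_insert_of_notMem hA, biUnion_insert]
    refine ⟨A, subset_union_left, hI A (mem_insert_self _ _), ?_⟩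
    have h1 := ih (fun B hB C hC => hd B (mem_insert_of_mem hB) C (mem_insert_of_mem hC))
      (fun B hB => hI B (mem_insert_of_mem hB))
    have e : (id A ∪ F.biUnion id) \ A = F.biUnion id := by
      ext x
      simp only [id, mem_sdiff, mem_union, mem_biUnion]
      constructor
      · rintro ⟨h2 | h2, h3⟩
        · exact absurd h2 h3
        · exact h2
      · intro h2
        refine ⟨Or.inr h2, fun hxA => ?_⟩
        obtain ⟨B, hB, hxB⟩ := h2
        have hne : A ≠ B := fun h => hA (h ▸ hB)
        exact (disjoint_left.1 (hd A (mem_insert_self _ _) B (mem_insert_of_mem hB) hne)) hxA hxB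
    rw [e]
    exact h1

/-- a disjoint family of members gives a packing -/
lemma pack_of_family {D : Finset α → Prop} : ∀ (F : Finset (Finset α)),
    (∀ A ∈ F, ∀ B ∈ F, A ≠ B → Disjoint A B) → (∀ A ∈ F, D A) →
    Pack D F.card (F.biUnion id) := by
  intro F
  induction F using Finset.induction_on with
  | empty => intro _ _; trivial
  | insert A F hA ih =>
    intro hd hI
    rw [card_insert_of_notMem hA, biUnion_insert]
    refine ⟨A, subset_union_left, hI A (mem_insert_self _ _), ?_⟩
    have h1 := ih (fun B hB C hC => hd B (mem_insert_of_mem hB) C (mem_insert_of_mem hC))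
      (fun B hB => hI B (mem_insert_of_mem hB))
    refine Pack.mono ?_ h1
    intro x hx
    obtain ⟨B, hB, hxB⟩ := mem_biUnion.1 hx
    rw [mem_sdiff]
    refine ⟨mem_union_right _ hx, fun hxA => ?_⟩
    have hne : A ≠ B := fun h => hA (h ▸ hB)
    exact (disjoint_left.1 (hd A (mem_insert_self _ _) B (mem_insert_of_mem hB) hne)) hxA hxB

lemma par_of_fin {D : Finset α → Prop} {S : Finset α} (P : Finpartition S)
    (h : ∀ T ∈ P.parts, Ind D T) : Par D P.parts.card S := by
  have h1 := par_of_family P.parts (fun A hA B hB hne => P.disjoint hA hB hne) h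
  rw [P.biUnion_parts] at h1
  exact h1

lemma pack_of_fin {D : Finset α → Prop} {S : Finset α} (P : Finpartition S)
    (h : ∀ T ∈ P.parts, D T) : Pack D P.parts.card S := by
  have h1 := pack_of_family P.parts (fun A hA B hB hne => P.disjoint hA hB hne) h
  rw [P.biUnion_parts] at h1
  exact h1

lemma Pack.of_le {D : Finset α → Prop} : ∀ {a b : ℕ} {S : Finset α}, a ≤ b → Pack D b S →
    Pack D a S
  | 0, _, _, _, _ => trivial
  | a + 1, 0, _, h, _ => absurd h (by omega)
  | a + 1, b + 1, _, h, hP => by
    obtain ⟨T, hT, hD, hP⟩ := hP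
    exact ⟨T, hT, hD, Pack.of_le (by omega) hP⟩

lemma par_between {D : Finset α → Prop} (hU : Up D) (hE : ¬ D ∅) {a b : ℕ} {S : Finset α}
    (ha : Par D (a + 1) S) (hb : Pack D b S) : ∀ k, a + 1 ≤ k → k ≤ b → Par D k S := by
  intro k hk
  induction k, hk using Nat.le_induction with
  | base => intro _; exact ha
  | succ k hk ih =>
    intro hkb
    have h1 := ih (by omega)
    obtain ⟨j, rfl⟩ : ∃ j, k = j + 1 := ⟨k - 1, by omega⟩
    exact interpolate hU hE j S h1 (Pack.of_le hkb hb)

end Pool.Agent.R798.Adom
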