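import Pool.Agent.R798.EGdeg

/-!
# Degree monotone paths: abstract part
-/

set_option autoImplicit false

namespace Pool.Agent.R798.DMP

open Finset Pool.Agent.R798.EGdeg

variable {V : Type} [Fintype V]

/-- there is a path with `m` vertices along which the degrees do not decrease -/
def Up (G : SimpleGraph V) (m : ℕ) : Prop :=
  ∃ p : ℕ → V, Set.InjOn p (Set.Iio m) ∧
    ∀ i, i + 1 < m → G.Adj (p i) (p (i + 1)) ∧ dg G (p i) ≤ dg G (p (i + 1))

theorem dg_le_addE (G : SimpleGraph V) {x w : V} (hxw : x ≠ w) (h : ¬ G.Adj x w) (v : V) :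
    dg G v ≤ dg (addE G x w) v := by
  classical
  rw [dg_add G hxw h v]
  exact Nat.le_add_right _ _

theorem dg_addE_le (G : SimpleGraph V) {x w : V} (hxw : x ≠ w) (h : ¬ G.Adj x w) (v : V) :
    dg (addE G x w) v ≤ dg G v + 1 := by
  classical
  rw [dg_add G hxw h v]
  split_ifs <;> omega

theorem dg_addE_eq (G : SimpleGraph V) {x w : V} (hxw : x ≠ w) (h : ¬ G.Adj x w) {v : V}
    (h1 : v ≠ x) (h2 : v ≠ w) : dg (addE G x w) v = dg G v := by
  classical
  rw [dg_add G hxw h v, if_neg, add_zero]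
  rintro (h3 | h3)
  · exact h1 h3
  · exact h2 h3

theorem dg_addE_left (G : SimpleGraph V) {x w : V} (hxw : x ≠ w) (h : ¬ G.Adj x w) :
    dg (addE G x w) x = dg G x + 1 := by
  classical
  rw [dg_add G hxw h x, if_pos (Or.inl rfl)]

theorem dg_addE_right (G : SimpleGraph V) {x w : V} (hxw : x ≠ w) (h : ¬ G.Adj x w) :
    dg (addE G x w) w = dg G w + 1 := by
  classical
  rw [dg_add G hxw h w, if_pos (Or.inr rfl)]

theorem addE_comm (G : SimpleGraph V) (x w : V) : addE G x w = addE G w x := by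
  ext u v
  rw [addE_adj, addE_adj]
  tauto

/-- a path with `m` vertices ending in `v`, not containing `w`, along which the degrees do not
decrease -/
def TopPath (G : SimpleGraph V) (m : ℕ) (v w : V) : Prop :=
  ∃ p : ℕ → V, Set.InjOn p (Set.Iio (m + 1)) ∧ p m = v ∧ (∀ i ≤ m, p i ≠ w) ∧
    ∀ i, i < m → G.Adj (p i) (p (i + 1)) ∧ dg G (p i) ≤ dg G (p (i + 1))

theorem up_of_top {G : SimpleGraph V} {m : ℕ} {v w : V} (hvw : v ≠ w) (hn : ¬ G.Adj v w)
    (hd : dg G v ≤ dg G w) (h : TopPath G m v w) : Up (addE G v w) (m + 2) := by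
  obtain ⟨p, hinj, hpm, hpw, hp⟩ := h
  refine ⟨fun i => if i ≤ m then p i else w, ?_, ?_⟩
  · intro i hi j hj hij
    simp only [Set.mem_Iio] at hi hj
    simp only at hij
    split_ifs at hij with h1 h2 h2
    · exact hinj (Set.mem_Iio.2 (by omega)) (Set.mem_Iio.2 (by omega)) hij
    · exact absurd hij (hpw i h1)
    · exact absurd hij.symm (hpw j h2)
    · omega
  · intro i hi
    have h1 : i ≤ m := by omega
    simp only [if_pos h1]
    by_cases h2 : i + 1 ≤ m
    · simp only [if_pos h2]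
      have h3 := hp i (by omega)
      refine ⟨Or.inl h3.1, ?_⟩
      have h4 : p i ≠ v := by
        rw [← hpm]
        intro h5
        have := hinj (Set.mem_Iio.2 (by omega)) (Set.mem_Iio.2 (by omega)) h5
        omega
      rw [dg_addE_eq G hvw hn h4 (hpw i h1)]
      exact h3.2.trans (dg_le_addE G hvw hn _)
    · simp only [if_neg h2]
      have h3 : i = m := by omega
      subst h3
      rw [hpm]
      refine ⟨Or.inr ⟨hvw, Or.inl ⟨rfl, rfl⟩⟩, ?_⟩
      rw [dg_addE_left G hvw hn, dg_addE_right G hvw hn]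
      omega

/-- the ranked part `S` of a graph: ranks `0, …, K` -/
structure Ranked (G : SimpleGraph V) (S : Set V) (ρ : V → ℕ) (K : ℕ) : Prop where
  le : ∀ v ∈ S, ρ v ≤ K
  deg : ∀ v ∈ S, dg G v = ρ v + 2
  adj : ∀ v ∈ S, ∀ w, G.Adj v w → w ∈ S ∧ (ρ w = ρ v + 1 ∨ ρ v = ρ w + 1)
  up : ∀ v ∈ S, ρ v < K → ∃ a b, a ∈ S ∧ b ∈ S ∧ a ≠ b ∧ G.Adj v a ∧ G.Adj v b ∧
    ρ a = ρ v + 1 ∧ ρ b = ρ v + 1
  down : ∀ v ∈ S, 1 ≤ ρ v → ∃ a, a ∈ S ∧ G.Adj a v ∧ ρ v = ρ a + 1
  down2 : ∀ v ∈ S, 2 ≤ ρ v → ∀ x, ∃ a, a ∈ S ∧ a ≠ x ∧ G.Adj a v ∧ ρ v = ρ a + 1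

section ranked

variable {G : SimpleGraph V} {S : Set V} {ρ : V → ℕ} {K : ℕ}

theorem Ranked.exists_down (h : Ranked G S ρ K) : ∀ (r : ℕ) (v : V), v ∈ S → ρ v = r →
    ∃ d : ℕ → V, d r = v ∧ (∀ j ≤ r, d j ∈ S ∧ ρ (d j) = j) ∧ ∀ j < r, G.Adj (d j) (d (j + 1)) := by
  intro r
  induction r with
  | zero =>
    intro v hv hr
    refine ⟨fun _ => v, rfl, ?_, ?_⟩
    · intro j hj
      show v ∈ S ∧ ρ v = j
      exact ⟨hv, by omega⟩
    · intro j hj
      omega
  | succ r ih =>
    intro v hv hr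
    obtain ⟨a, ha, hav, hρ⟩ := h.down v hv (by omega)
    obtain ⟨d, hd1, hd2, hd3⟩ := ih a ha (by omega)
    refine ⟨fun j => if j ≤ r then d j else v, ?_, ?_, ?_⟩
    · simp
    · intro j hj
      by_cases h1 : j ≤ r
      · simp only [if_pos h1]
        exact hd2 j h1
      · simp only [if_neg h1]
        exact ⟨hv, by omega⟩
    · intro j hj
      have h1 : j ≤ r := by omega
      simp only [if_pos h1]
      by_cases h2 : j + 1 ≤ r
      · simp only [if_pos h2]
        exact hd3 j (by omega)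
      · simp only [if_neg h2]
        have h3 : j = r := by omega
        rw [h3, hd1]
        exact hav

theorem Ranked.exists_up (h : Ranked G S ρ K) (v : V) (hv : v ∈ S) :
    ∃ u : ℕ → V, u 0 = v ∧ (∀ j, ρ v + j ≤ K → u j ∈ S ∧ ρ (u j) = ρ v + j) ∧
      ∀ j, ρ v + j + 1 ≤ K → G.Adj (u j) (u (j + 1)) := by
  classical
  have hch : ∀ x : V, ∃ y : V, x ∈ S → ρ x < K → y ∈ S ∧ G.Adj x y ∧ ρ y = ρ x + 1 := by
    intro x
    by_cases hx : x ∈ S ∧ ρ x < K
    · obtain ⟨a, b, ha, _, _, h1, _, h2, _⟩ := h.up x hx.1 hx.2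
      exact ⟨a, fun _ _ => ⟨ha, h1, h2⟩⟩
    · exact ⟨x, fun h1 h2 => absurd ⟨h1, h2⟩ hx⟩
  choose f hf using hch
  have key : ∀ j, ρ v + j ≤ K → f^[j] v ∈ S ∧ ρ (f^[j] v) = ρ v + j := by
    intro j
    induction j with
    | zero => exact fun _ => ⟨hv, rfl⟩
    | succ j ih =>
      intro hj
      obtain ⟨h1, h2⟩ := ih (by omega)
      rw [Function.iterate_succ_apply']
      obtain ⟨h3, _, h4⟩ := hf _ h1 (by omega)
      exact ⟨h3, by omega⟩
  refine ⟨fun j => f^[j] v, rfl, key, ?_⟩
  intro j hj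
  obtain ⟨h1, h2⟩ := key j (by omega)
  simp only [Function.iterate_succ_apply']
  exact (hf _ h1 (by omega)).2.1

/-- top vertices are ends of long paths -/
theorem Ranked.topPath (h : Ranked G S ρ K) {v w : V} (hv : v ∈ S) (hρ : ρ v = K) (hvw : v ≠ w)
    (hw : w ∈ S → ρ w = K) : TopPath G K v w := by
  obtain ⟨d, h1, h2, h3⟩ := h.exists_down K v hv hρ
  refine ⟨d, ?_, h1, ?_, ?_⟩
  · intro i hi j hj hij
    rw [Set.mem_Iio] at hi hj
    have e1 := (h2 i (by omega)).2
    have e2 := (h2 j (by omega)).2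
    rw [hij] at e1
    omega
  · intro i hi hiw
    have e1 := h2 i hi
    rw [hiw] at e1
    have e2 := hw e1.1
    have e3 : i = K := by omega
    rw [e3, h1] at hiw
    exact hvw hiw
  · intro i hi
    refine ⟨h3 i hi, ?_⟩
    rw [h.deg _ (h2 i (by omega)).1, h.deg _ (h2 (i + 1) (by omega)).1, (h2 i (by omega)).2,
      (h2 (i + 1) (by omega)).2]
    omega

/-- vertices that are not top are critical -/
theorem Ranked.crit (h : Ranked G S ρ K) {x w : V} (hx : x ∈ S) (hρ : ρ x < K) (hxw : x ≠ w)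
    (hn : ¬ G.Adj x w) : Up (addE G x w) (K + 2) := by
  obtain ⟨a, b, ha, hb, hab, hxa, hxb, hra, hrb⟩ := h.up x hx hρ
  obtain ⟨r, hr⟩ : ∃ r, r = ρ x := ⟨_, rfl⟩
  obtain ⟨u, hu0, hu1, hu2⟩ := h.exists_up b hb
  -- the lower part
  obtain ⟨d, hd0, hd1, hd2, hd3⟩ : ∃ d : ℕ → V, d (r + 1) = a ∧
      (∀ j, 1 ≤ j → j ≤ r + 1 → d j ∈ S ∧ ρ (d j) = j) ∧
      (∀ j, 1 ≤ j → j < r + 1 → G.Adj (d j) (d (j + 1))) ∧ ∀ j, 1 ≤ j → j ≤ r + 1 → d j ≠ x := by
    rcases Nat.eq_zero_or_pos r with h0 | h0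
    · refine ⟨fun _ => a, rfl, ?_, ?_, ?_⟩
      · intro j h1 h2
        show a ∈ S ∧ ρ a = j
        exact ⟨ha, by omega⟩
      · intro j h1 h2
        omega
      · intro j _ _ h3
        have h4 : a = x := h3
        rw [h4] at hra
        omega
    · obtain ⟨x', hx', hne, hadj, hrx'⟩ := h.down2 a ha (by omega) x
      obtain ⟨d, h1, h2, h3⟩ := h.exists_down r x' hx' (by omega)
      refine ⟨fun j => if j ≤ r then d j else a, ?_, ?_, ?_, ?_⟩
      · simp
      · intro j _ h5
        by_cases h6 : j ≤ r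
        · simp only [if_pos h6]
          exact h2 j h6
        · simp only [if_neg h6]
          exact ⟨ha, by omega⟩
      · intro j _ h5
        have h6 : j ≤ r := by omega
        simp only [if_pos h6]
        by_cases h7 : j + 1 ≤ r
        · simp only [if_pos h7]
          exact h3 j (by omega)
        · simp only [if_neg h7]
          have h8 : j = r := by omega
          rw [h8, h1]
          exact hadj
      · intro j _ h5
        by_cases h6 : j ≤ r
        · simp only [if_pos h6]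
          intro h7
          have h8 := (h2 j h6).2
          rw [h7] at h8
          have h9 : j = r := by omega
          rw [h9, h1] at h7
          exact hne h7
        · simp only [if_neg h6]
          intro h7
          rw [h7] at hra
          omega
  -- the path
  have hax : a ≠ x := fun h7 => by
    rw [h7] at hra
    omega
  have haw : a ≠ w := fun h7 => hn (h7 ▸ hxa)
  let q : ℕ → V := fun i => if i ≤ r then d (i + 1) else if i = r + 1 then x else u (i - (r + 2))
  have q1 : ∀ i, i ≤ r → q i = d (i + 1) := fun i hi => if_pos hi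
  have q2 : q (r + 1) = x := by
    show (if r + 1 ≤ r then _ else if r + 1 = r + 1 then x else _) = x
    rw [if_neg (by omega), if_pos rfl]
  have q3 : ∀ i, r + 2 ≤ i → q i = u (i - (r + 2)) := by
    intro i hi
    show (if i ≤ r then _ else if i = r + 1 then x else _) = _
    rw [if_neg (by omega), if_neg (by omega)]
  have rk1 : ∀ i, i ≤ r → q i ∈ S ∧ ρ (q i) = i + 1 := by
    intro i hi
    rw [q1 i hi]
    exact hd1 (i + 1) (by omega) (by omega)
  have rk3 : ∀ i, r + 2 ≤ i → i < K + 2 → q i ∈ S ∧ ρ (q i) = i - 1 := by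
    intro i hi hi2
    rw [q3 i hi]
    obtain ⟨e1, e2⟩ := hu1 (i - (r + 2)) (by omega)
    exact ⟨e1, by omega⟩
  have hqx : ∀ i, i < K + 2 → q i = x → i = r + 1 := by
    intro i hi hix
    rcases Nat.lt_trichotomy i (r + 1) with h1 | h1 | h1
    · rw [q1 i (by omega)] at hix
      exact absurd hix (hd3 (i + 1) (by omega) (by omega))
    · exact h1
    · have h2 := (rk3 i (by omega) hi).2
      rw [hix] at h2
      omega
  have hqr : q r = a := by rw [q1 r le_rfl, hd0]
  have hqb : q (r + 2) = b := by rw [q3 (r + 2) le_rfl, Nat.sub_self, hu0]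
  refine ⟨q, ?_, ?_⟩
  · -- injectivity
    have aux : ∀ i j, i < j → j < K + 2 → q i ≠ q j := by
      intro i j hij hj heq
      rcases Nat.lt_trichotomy i (r + 1) with h1 | h1 | h1
      · have e1 := (rk1 i (by omega)).2
        rcases Nat.lt_trichotomy j (r + 1) with h2 | h2 | h2
        · have e2 := (rk1 j (by omega)).2
          rw [heq] at e1
          omega
        · rw [h2, q2] at heq
          have := hqx i (by omega) heq
          omega
        · have e2 := (rk3 j (by omega) hj).2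
          rw [heq] at e1
          have e3 : i = r := by omega
          have e4 : j = r + 2 := by omega
          rw [e3, e4, hqr, hqb] at heq
          exact hab heq
      · rw [h1, q2] at heq
        have := hqx j hj heq.symm
        omega
      · have e1 := (rk3 i (by omega) (by omega)).2
        have e2 := (rk3 j (by omega) hj).2
        rw [heq] at e1
        omega
    intro i hi j hj heq
    rw [Set.mem_Iio] at hi hj
    rcases Nat.lt_trichotomy i j with h1 | h1 | h1
    · exact absurd heq (aux i j h1 hj)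
    · exact h1
    · exact absurd heq.symm (aux j i h1 hi)
  · intro i hi
    rcases Nat.lt_trichotomy i r with h1 | h1 | h1
    · -- below
      have e1 := rk1 i (by omega)
      have e2 := rk1 (i + 1) (by omega)
      refine ⟨Or.inl ?_, ?_⟩
      · rw [q1 i (by omega), q1 (i + 1) (by omega)]
        exact hd2 (i + 1) (by omega) (by omega)
      · have h3 := dg_addE_le G hxw hn (q i)
        have h4 := dg_le_addE G hxw hn (q (i + 1))
        have h5 := h.deg _ e1.1
        have h6 := h.deg _ e2.1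
        omega
    · rw [h1, hqr, q2]
      refine ⟨Or.inl hxa.symm, ?_⟩
      rw [dg_addE_eq G hxw hn hax haw, dg_addE_left G hxw hn, h.deg a ha, h.deg x hx]
      omega
    · rcases Nat.lt_trichotomy i (r + 1) with h2 | h2 | h2
      · omega
      · rw [h2, q2, show r + 1 + 1 = r + 2 from rfl, hqb]
        refine ⟨Or.inl hxb, ?_⟩
        have h4 := dg_le_addE G hxw hn b
        rw [dg_addE_left G hxw hn, h.deg x hx]
        rw [h.deg b hb] at h4
        omega
      · have e1 := rk3 i (by omega) (by omega)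
        have e2 := rk3 (i + 1) (by omega) (by omega)
        refine ⟨Or.inl ?_, ?_⟩
        · rw [q3 i (by omega), q3 (i + 1) (by omega)]
          have h3 := hu2 (i - (r + 2)) (by omega)
          have h4 : i + 1 - (r + 2) = i - (r + 2) + 1 := by omega
          rw [h4]
          exact h3
        · have h3 := dg_addE_le G hxw hn (q i)
          have h4 := dg_le_addE G hxw hn (q (i + 1))
          have h5 := h.deg _ e1.1
          have h6 := h.deg _ e2.1
          omega

/-- no long path in the ranked part -/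
theorem Ranked.no_path (h : Ranked G S ρ K) {p : ℕ → V} (h0 : p 0 ∈ S)
    (hp : ∀ i, i + 1 < K + 2 → G.Adj (p i) (p (i + 1)) ∧ dg G (p i) ≤ dg G (p (i + 1))) :
    False := by
  have key : ∀ i, i < K + 2 → p i ∈ S ∧ ρ (p i) = ρ (p 0) + i := by
    intro i
    induction i with
    | zero => exact fun _ => ⟨h0, rfl⟩
    | succ i ih =>
      intro hi
      obtain ⟨h1, h2⟩ := ih (by omega)
      obtain ⟨h3, h4⟩ := hp i hi
      obtain ⟨h5, h6⟩ := h.adj _ h1 _ h3
      rw [h.deg _ h1, h.deg _ h5] at h4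
      exact ⟨h5, by omega⟩
  obtain ⟨h1, h2⟩ := key (K + 1) (by omega)
  have := h.le _ h1
  omega

end ranked

end Pool.Agent.R798.DMP
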