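import Pool.Agent.R798.DMPa

/-!
# Degree monotone paths: the graph
-/

set_option autoImplicit false

namespace Pool.Agent.R798.DMP

open Finset Pool.Agent.R798.EGdeg

/-- number of lower neighbours of a vertex of rank `r + 1` -/
def ell (K r : ℕ) : ℕ := if r + 1 = K then K + 2 else r + 1

/-- number of blocks between ranks `r` and `r + 1` -/
def gg (K A r : ℕ) : ℕ := A * 2 ^ (r + 1) * ∏ s ∈ Finset.Ico (r + 1) K, ell K s

/-- number of vertices of rank `r` -/
def MM (K A r : ℕ) : ℕ := A * 2 ^ (r + 1) * ∏ s ∈ Finset.Ico r K, ell K s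

theorem ell_pos (K r : ℕ) : 0 < ell K r := by
  unfold ell
  split_ifs <;> omega

theorem MM_low (K A r : ℕ) (hr : r < K) : MM K A r = ell K r * gg K A r := by
  unfold MM gg
  rw [Finset.prod_eq_prod_Ico_succ_bot hr]
  ring

theorem MM_up (K A r : ℕ) : MM K A (r + 1) = 2 * gg K A r := by
  unfold MM gg
  ring

theorem count_div (M c q : ℕ) (hc : 0 < c) (h : c * (q + 1) ≤ M) :
    (∑ y ∈ range M, if y / c = q then 1 else 0) = c := by
  rw [← card_filter]
  have : (range M).filter (fun y => y / c = q) = Finset.Ico (c * q) (c * q + c) := by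
    ext y
    rw [mem_filter, mem_range, mem_Ico, Nat.div_eq_iff hc, Nat.mul_comm q c]
    rw [Nat.mul_add, Nat.mul_one] at h
    constructor
    · rintro ⟨h1, h2, h3⟩
      omega
    · rintro ⟨h1, h2⟩
      omega
  rw [this, Nat.card_Ico]
  omega

/-- adjacency of the ranked part -/
def adjN (K r x s y : ℕ) : Prop :=
  (s = r + 1 ∧ x / ell K r = y / 2) ∨ (r = s + 1 ∧ y / ell K s = x / 2)

instance (K r x s y : ℕ) : Decidable (adjN K r x s y) := by
  unfold adjN
  infer_instance

theorem div_lt_gg {K A r x : ℕ} (hr : r < K) (hx : x < MM K A r) : x / ell K r < gg K A r := by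
  rw [Nat.div_lt_iff_lt_mul (ell_pos K r), Nat.mul_comm, ← MM_low K A r hr]
  exact hx

/-- the number of neighbours of rank `s` of the vertex `(r, x)` -/
theorem count_adjN {K A r x s : ℕ} (hr : r ≤ K) (hs : s ≤ K) (hx : x < MM K A r) :
    (∑ y ∈ range (MM K A s), if adjN K r x s y then 1 else 0) =
      (if s = r + 1 then 2 else 0) + (if s + 1 = r then ell K s else 0) := by
  by_cases h1 : s = r + 1
  · subst h1
    rw [if_pos rfl, if_neg (by omega), add_zero]
    have h2 : ∀ y ∈ range (MM K A (r + 1)), (if adjN K r x (r + 1) y then 1 else 0) =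
        (if y / 2 = x / ell K r then 1 else 0) := by
      intro y _
      apply if_congr _ rfl rfl
      unfold adjN
      constructor
      · rintro (⟨_, h⟩ | ⟨h, _⟩)
        · exact h.symm
        · omega
      · exact fun h => Or.inl ⟨rfl, h.symm⟩
    rw [Finset.sum_congr rfl h2]
    apply count_div _ _ _ (by norm_num)
    rw [MM_up]
    have := div_lt_gg (show r < K by omega) hx
    omega
  · rw [if_neg h1, zero_add]
    by_cases h3 : s + 1 = r
    · subst h3
      rw [if_pos rfl]
      have h2 : ∀ y ∈ range (MM K A s), (if adjN K (s + 1) x s y then 1 else 0) =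
          (if y / ell K s = x / 2 then 1 else 0) := by
        intro y _
        apply if_congr _ rfl rfl
        unfold adjN
        constructor
        · rintro (⟨h, _⟩ | ⟨_, h⟩)
          · omega
          · exact h
        · exact fun h => Or.inr ⟨rfl, h⟩
      rw [Finset.sum_congr rfl h2]
      apply count_div _ _ _ (ell_pos K s)
      rw [MM_low K A s (by omega)]
      apply Nat.mul_le_mul_left
      rw [MM_up] at hx
      omega
    · rw [if_neg h3]
      apply Finset.sum_eq_zero
      intro y _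
      rw [if_neg]
      rintro (⟨h, _⟩ | ⟨h, _⟩)
      · exact h1 h
      · exact h3 h.symm

/-- the degree of the vertex `(r, x)` -/
theorem deg_adjN {K A r x : ℕ} (hK : 1 ≤ K) (hr : r ≤ K) (hx : x < MM K A r) :
    (∑ s ∈ range (K + 1), ∑ y ∈ range (MM K A s), if adjN K r x s y then 1 else 0) = r + 2 := by
  rw [Finset.sum_congr rfl (fun s hs => count_adjN hr (by rw [mem_range] at hs; omega) hx),
    sum_add_distrib]
  have h1 : (∑ s ∈ range (K + 1), if s = r + 1 then 2 else 0) = if r < K then 2 else 0 := by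
    rw [Finset.sum_ite_eq']
    apply if_congr _ rfl rfl
    rw [mem_range]
    omega
  have h2 : (∑ s ∈ range (K + 1), if s + 1 = r then ell K s else 0) =
      if r = 0 then 0 else ell K (r - 1) := by
    rcases Nat.eq_zero_or_pos r with h0 | h0
    · rw [if_pos h0, h0]
      apply Finset.sum_eq_zero
      intro s _
      rw [if_neg (by omega)]
    · rw [if_neg (by omega)]
      have h3 : ∀ s ∈ range (K + 1), (if s + 1 = r then ell K s else 0) =
          (if s = r - 1 then ell K s else 0) := by
        intro s _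
        apply if_congr _ rfl rfl
        omega
      rw [Finset.sum_congr rfl h3, Finset.sum_ite_eq', if_pos]
      rw [mem_range]
      omega
  rw [h1, h2]
  unfold ell
  split_ifs <;> omega

/-- the vertices -/
abbrev W1 (K A : ℕ) := Σ r : Fin (K + 1), Fin (MM K A r)
abbrev W (K A B C : ℕ) := W1 K A ⊕ ((Fin B × Fin (K + 1)) ⊕ (Fin C × Fin (K + 2)))

/-- adjacency -/
def adjW (K A B C : ℕ) : W K A B C → W K A B C → Prop
  | .inl ⟨r, x⟩, .inl ⟨s, y⟩ => adjN K r x s y
  | .inr (.inl (b, i)), .inr (.inl (c, j)) => b = c ∧ i ≠ j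
  | .inr (.inr (b, i)), .inr (.inr (c, j)) => b = c ∧ i ≠ j ∧ ¬ (i.1 < 2 ∧ j.1 < 2)
  | .inl _, .inr _ => False
  | .inr _, .inl _ => False
  | .inr (.inl _), .inr (.inr _) => False
  | .inr (.inr _), .inr (.inl _) => False

theorem adjN_symm {K r x s y : ℕ} (h : adjN K r x s y) : adjN K s y r x := by
  rcases h with h | h
  · exact Or.inr h
  · exact Or.inl h

/-- the graph -/
def GW (K A B C : ℕ) : SimpleGraph (W K A B C) where
  Adj := adjW K A B C
  symm := ⟨fun u v h => by
    rcases u with ⟨r, x⟩ | ⟨b, i⟩ | ⟨b, i⟩ <;> rcases v with ⟨s, y⟩ | ⟨c, j⟩ | ⟨c, j⟩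
    · exact adjN_symm h
    · exact h
    · exact h
    · exact h
    · exact ⟨h.1.symm, h.2.symm⟩
    · exact h
    · exact h
    · exact h
    · exact ⟨h.1.symm, h.2.1.symm, fun h2 => h.2.2 ⟨h2.2, h2.1⟩⟩⟩
  loopless := ⟨fun u h => by
    rcases u with ⟨r, x⟩ | ⟨b, i⟩ | ⟨b, i⟩
    · rcases h with ⟨h, _⟩ | ⟨h, _⟩ <;> omega
    · exact h.2 rfl
    · exact h.2.1 rfl⟩

section degrees

variable {K A B C : ℕ}

theorem dg_eq_sum {V : Type} [Fintype V] (G : SimpleGraph V) [DecidableRel G.Adj] (v : V) :
    dg G v = ∑ u, if G.Adj v u then 1 else 0 := by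
  unfold dg nbr
  rw [← card_filter]
  congr!

theorem dg_inl (hK : 1 ≤ K) (r : Fin (K + 1)) (x : Fin (MM K A r)) :
    dg (GW K A B C) (.inl ⟨r, x⟩) = r.1 + 2 := by
  classical
  rw [dg_eq_sum, Fintype.sum_sum_type, Fintype.sum_sigma]
  have h2 : (∑ a : (Fin B × Fin (K + 1)) ⊕ (Fin C × Fin (K + 2)),
      if (GW K A B C).Adj (.inl ⟨r, x⟩) (.inr a) then 1 else 0) = 0 := by
    apply Finset.sum_eq_zero
    intro a _
    exact if_neg (fun h => h)
  rw [h2, add_zero, ← deg_adjN hK (show r.1 ≤ K by omega) x.2, Finset.sum_range]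
  apply Finset.sum_congr rfl
  intro s _
  rw [Finset.sum_range]
  apply Finset.sum_congr rfl
  intro y _
  exact if_congr Iff.rfl rfl rfl

theorem dg_inr_inl (b : Fin B) (i : Fin (K + 1)) :
    dg (GW K A B C) (.inr (.inl (b, i))) = K := by
  classical
  unfold dg
  have : nbr (GW K A B C) (.inr (.inl (b, i))) =
      (univ.erase i).map ⟨fun j => .inr (.inl (b, j)), fun j j' h => by simpa using h⟩ := by
    ext u
    rw [mem_nbr, mem_map]
    constructor
    · intro h
      rcases u with u | ⟨c, j⟩ | ⟨c, j⟩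
      · exact h.elim
      · obtain ⟨h1, h2⟩ := h
        refine ⟨j, mem_erase.2 ⟨h2.symm, mem_univ _⟩, ?_⟩
        simp [h1]
      · exact h.elim
    · rintro ⟨j, hj, rfl⟩
      exact ⟨rfl, (mem_erase.1 hj).1.symm⟩
  rw [this, card_map, card_erase_of_mem (mem_univ _), card_univ, Fintype.card_fin]
  rfl

theorem dg_inr_inr (hK : 1 ≤ K) (b : Fin C) (i : Fin (K + 2)) :
    dg (GW K A B C) (.inr (.inr (b, i))) = if i.1 < 2 then K else K + 1 := by
  classical
  unfold dg
  have : nbr (GW K A B C) (.inr (.inr (b, i))) =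
      (univ.filter (fun j : Fin (K + 2) => i ≠ j ∧ ¬ (i.1 < 2 ∧ j.1 < 2))).map
        ⟨fun j => .inr (.inr (b, j)), fun j j' h => by simpa using h⟩ := by
    ext u
    rw [mem_nbr, mem_map]
    constructor
    · intro h
      rcases u with u | ⟨c, j⟩ | ⟨c, j⟩
      · exact h.elim
      · exact h.elim
      · obtain ⟨h1, h2⟩ := h
        refine ⟨j, mem_filter.2 ⟨mem_univ _, h2⟩, ?_⟩
        simp [h1]
    · rintro ⟨j, hj, rfl⟩
      exact ⟨rfl, (mem_filter.1 hj).2⟩
  rw [this, card_map]
  by_cases hi : i.1 < 2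
  · rw [if_pos hi]
    have h2 : univ.filter (fun j : Fin (K + 2) => i ≠ j ∧ ¬ (i.1 < 2 ∧ j.1 < 2)) =
        univ.filter (fun j : Fin (K + 2) => ¬ j.1 < 2) := by
      apply filter_congr
      intro j _
      constructor
      · rintro ⟨_, h⟩ h3
        exact h ⟨hi, h3⟩
      · intro h
        refine ⟨?_, fun h3 => h h3.2⟩
        rintro rfl
        exact h hi
    rw [h2]
    have h3 := card_filter_add_card_filter_not (s := (univ : Finset (Fin (K + 2))))
      (fun j : Fin (K + 2) => j.1 < 2)
    rw [card_univ, Fintype.card_fin] at h3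
    have h4 : (univ.filter (fun j : Fin (K + 2) => j.1 < 2)).card = 2 := by
      have h5 : univ.filter (fun j : Fin (K + 2) => j.1 < 2) = {0, 1} := by
        ext j
        simp only [mem_filter, mem_univ, true_and, mem_insert, mem_singleton, Fin.ext_iff,
          Fin.val_zero, Fin.val_one]
        omega
      rw [h5, card_pair]
      rw [Ne, Fin.ext_iff]
      simp
    omega
  · rw [if_neg hi]
    have h2 : univ.filter (fun j : Fin (K + 2) => i ≠ j ∧ ¬ (i.1 < 2 ∧ j.1 < 2)) =
        univ.erase i := by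
      ext j
      simp only [mem_filter, mem_univ, true_and, mem_erase, and_true]
      constructor
      · exact fun h => h.1.symm
      · exact fun h => ⟨h.symm, fun h3 => hi h3.1⟩
    rw [h2, card_erase_of_mem (mem_univ _), card_univ, Fintype.card_fin]
    rfl

end degrees

end Pool.Agent.R798.DMP
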