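import Pool.Agent.R798.DMPb

/-!
# Degree monotone paths: saturation
-/

set_option autoImplicit false

namespace Pool.Agent.R798.DMP

open Finset Pool.Agent.R798.EGdeg

section sat

variable {K A B C : ℕ}

/-- the rank -/
def rk : W K A B C → ℕ
  | .inl ⟨r, _⟩ => r.1
  | .inr _ => 0

/-- the ranked part -/
def SS : Set (W K A B C) := Set.range Sum.inl

theorem ranked (hK : 1 ≤ K) : Ranked (GW K A B C) SS rk K where
  le := by
    rintro _ ⟨⟨r, x⟩, rfl⟩
    show r.1 ≤ K
    omega
  deg := by
    rintro _ ⟨⟨r, x⟩, rfl⟩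
    exact dg_inl hK r x
  adj := by
    rintro _ ⟨⟨r, x⟩, rfl⟩ w hw
    rcases w with ⟨s, y⟩ | ⟨c, j⟩ | ⟨c, j⟩
    · refine ⟨⟨_, rfl⟩, ?_⟩
      show s.1 = r.1 + 1 ∨ r.1 = s.1 + 1
      rcases hw with ⟨h, _⟩ | ⟨h, _⟩
      · exact Or.inl h
      · exact Or.inr h
    · exact hw.elim
    · exact hw.elim
  up := by
    rintro _ ⟨⟨r, x⟩, rfl⟩ hr
    replace hr : r.1 < K := hr
    have hq := div_lt_gg hr x.2
    have hM := MM_up K A r.1
    refine ⟨.inl ⟨⟨r.1 + 1, by omega⟩, ⟨2 * (x.1 / ell K r.1), ?_⟩⟩,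
      .inl ⟨⟨r.1 + 1, by omega⟩, ⟨2 * (x.1 / ell K r.1) + 1, ?_⟩⟩,
      ⟨_, rfl⟩, ⟨_, rfl⟩, ?_, ?_, ?_, rfl, rfl⟩
    · show 2 * (x.1 / ell K r.1) < MM K A (r.1 + 1)
      omega
    · show 2 * (x.1 / ell K r.1) + 1 < MM K A (r.1 + 1)
      omega
    · intro h
      have h1 := Sum.inl.inj h
      have h2 := eq_of_heq (Sigma.mk.inj h1).2
      have h3 := congrArg Fin.val h2
      simp only at h3
      omega
    · refine Or.inl ⟨rfl, ?_⟩
      show x.1 / ell K r.1 = 2 * (x.1 / ell K r.1) / 2
      omega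
    · refine Or.inl ⟨rfl, ?_⟩
      show x.1 / ell K r.1 = (2 * (x.1 / ell K r.1) + 1) / 2
      omega
  down := by
    rintro _ ⟨⟨r, x⟩, rfl⟩ hr
    replace hr : 1 ≤ r.1 := hr
    obtain ⟨s, hs⟩ : ∃ s, r.1 = s + 1 := ⟨r.1 - 1, by omega⟩
    have hsK : s < K := by omega
    have hx : x.1 < MM K A (s + 1) := by
      rw [← hs]
      exact x.2
    rw [MM_up] at hx
    have hx2 : x.1 / 2 < gg K A s := by omega
    have hlt : ell K s * (x.1 / 2) < MM K A s := by
      rw [MM_low K A s hsK]
      exact Nat.mul_lt_mul_of_pos_left hx2 (ell_pos K s)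
    refine ⟨.inl ⟨⟨s, by omega⟩, ⟨ell K s * (x.1 / 2), hlt⟩⟩, ⟨_, rfl⟩, ?_, ?_⟩
    · refine Or.inl ⟨hs, ?_⟩
      show ell K s * (x.1 / 2) / ell K s = x.1 / 2
      exact Nat.mul_div_cancel_left _ (ell_pos K s)
    · exact hs
  down2 := by
    rintro _ ⟨⟨r, x⟩, rfl⟩ hr z
    replace hr : 2 ≤ r.1 := hr
    obtain ⟨s, hs⟩ : ∃ s, r.1 = s + 1 := ⟨r.1 - 1, by omega⟩
    have hsK : s < K := by omega
    have hx : x.1 < MM K A (s + 1) := by
      rw [← hs]
      exact x.2
    rw [MM_up] at hx
    have hx2 : x.1 / 2 < gg K A s := by omega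
    have hell : 2 ≤ ell K s := by
      unfold ell
      split_ifs <;> omega
    have hlt1 : ell K s * (x.1 / 2) + 1 < MM K A s := by
      rw [MM_low K A s hsK]
      have h1 : ell K s * (x.1 / 2 + 1) ≤ ell K s * gg K A s := Nat.mul_le_mul_left _ hx2
      rw [Nat.mul_add, Nat.mul_one] at h1
      omega
    have hlt : ell K s * (x.1 / 2) < MM K A s := by omega
    by_cases hz : z = .inl ⟨⟨s, by omega⟩, ⟨ell K s * (x.1 / 2), hlt⟩⟩
    · refine ⟨.inl ⟨⟨s, by omega⟩, ⟨ell K s * (x.1 / 2) + 1, hlt1⟩⟩, ⟨_, rfl⟩, ?_, ?_, ?_⟩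
      · rw [hz]
        intro h
        have h1 := Sum.inl.inj h
        have h2 := eq_of_heq (Sigma.mk.inj h1).2
        have h3 := congrArg Fin.val h2
        simp only at h3
        omega
      · refine Or.inl ⟨hs, ?_⟩
        show (ell K s * (x.1 / 2) + 1) / ell K s = x.1 / 2
        rw [Nat.mul_add_div (ell_pos K s), Nat.div_eq_of_lt (show 1 < ell K s by omega), add_zero]
      · exact hs
    · refine ⟨.inl ⟨⟨s, by omega⟩, ⟨ell K s * (x.1 / 2), hlt⟩⟩, ⟨_, rfl⟩, fun h => hz h.symm,
        ?_, ?_⟩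
      · refine Or.inl ⟨hs, ?_⟩
        show ell K s * (x.1 / 2) / ell K s = x.1 / 2
        exact Nat.mul_div_cancel_left _ (ell_pos K s)
      · exact hs

theorem no_up (hK : 1 ≤ K) : ¬ Up (GW K A B C) (K + 2) := by
  rintro ⟨p, hinj, hp⟩
  have hmono : ∀ j, j < K + 2 → ∀ i, i ≤ j → dg (GW K A B C) (p i) ≤ dg (GW K A B C) (p j) := by
    intro j
    induction j with
    | zero =>
      intro _ i hi
      have : i = 0 := by omega
      rw [this]
    | succ j ih =>
      intro hj i hi
      rcases Nat.lt_or_ge j i with h | h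
      · have : i = j + 1 := by omega
        rw [this]
      · exact (ih (by omega) i h).trans (hp j hj).2
  rcases h0 : p 0 with v | ⟨b, i0⟩ | ⟨b, i0⟩
  · exact (ranked hK).no_path ⟨v, h0.symm⟩ hp
  · have key : ∀ i, i < K + 2 → ∃ j : Fin (K + 1), p i = .inr (.inl (b, j)) := by
      intro i
      induction i with
      | zero => exact fun _ => ⟨i0, h0⟩
      | succ i ih =>
        intro hi
        obtain ⟨j, hj⟩ := ih (by omega)
        have h1 := (hp i hi).1
        rw [hj] at h1
        rcases hpi : p (i + 1) with v | ⟨c, j'⟩ | ⟨c, j'⟩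
        · rw [hpi] at h1
          exact h1.elim
        · rw [hpi] at h1
          obtain ⟨h2, _⟩ := h1
          exact ⟨j', by rw [h2]⟩
        · rw [hpi] at h1
          exact h1.elim
    choose g hg using fun i : Fin (K + 2) => key i.1 i.2
    have hginj : Function.Injective g := by
      intro i j hij
      apply Fin.ext
      apply hinj (Set.mem_Iio.2 i.2) (Set.mem_Iio.2 j.2)
      rw [hg i, hg j, hij]
    have := Fintype.card_le_of_injective g hginj
    rw [Fintype.card_fin, Fintype.card_fin] at this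
    omega
  · have key : ∀ i, i < K + 2 → ∃ j : Fin (K + 2), p i = .inr (.inr (b, j)) := by
      intro i
      induction i with
      | zero => exact fun _ => ⟨i0, h0⟩
      | succ i ih =>
        intro hi
        obtain ⟨j, hj⟩ := ih (by omega)
        have h1 := (hp i hi).1
        rw [hj] at h1
        rcases hpi : p (i + 1) with v | ⟨c, j'⟩ | ⟨c, j'⟩
        · rw [hpi] at h1
          exact h1.elim
        · rw [hpi] at h1
          exact h1.elim
        · rw [hpi] at h1
          obtain ⟨h2, _⟩ := h1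
          exact ⟨j', by rw [h2]⟩
    choose g hg using fun i : Fin (K + 2) => key i.1 i.2
    have hginj : Function.Injective g := by
      intro i j hij
      apply Fin.ext
      apply hinj (Set.mem_Iio.2 i.2) (Set.mem_Iio.2 j.2)
      rw [hg i, hg j, hij]
    have hgsurj := Finite.surjective_of_injective hginj
    -- two vertices of small degree in consecutive order
    have aux : ∀ a c : Fin (K + 2), (g a).1 < 2 → (g c).1 < 2 → a < c → False := by
      intro a c ha hc hac
      by_cases h1 : c.1 = 1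
      · have h2 : a.1 = 0 := by
          rw [Fin.lt_def] at hac
          omega
        have h3 := (hp 0 (by omega)).1
        have h4 := hg a
        have h5 := hg c
        rw [h2] at h4
        rw [h1] at h5
        rw [h4, h5] at h3
        exact h3.2.2 ⟨ha, hc⟩
      · obtain ⟨t, ht1, ht2, ht3⟩ : ∃ t : Fin (K + 2), t < c ∧ t ≠ a ∧ t ≠ c := by
          rw [Fin.lt_def] at hac
          by_cases h2 : a.1 = 0
          · refine ⟨⟨1, by omega⟩, ?_, ?_, ?_⟩
            · rw [Fin.lt_def]
              simp only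
              omega
            · rw [Ne, Fin.ext_iff]
              simp only
              omega
            · rw [Ne, Fin.ext_iff]
              simp only
              omega
          · refine ⟨⟨0, by omega⟩, ?_, ?_, ?_⟩
            · rw [Fin.lt_def]
              simp only
              omega
            · rw [Ne, Fin.ext_iff]
              simp only
              omega
            · rw [Ne, Fin.ext_iff]
              simp only
              omega
        have h3 : ¬ (g t).1 < 2 := by
          intro h4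
          have h5 : g t ≠ g a := fun h => ht2 (hginj h)
          have h6 : g t ≠ g c := fun h => ht3 (hginj h)
          have h7 : g a ≠ g c := fun h => hac.ne (hginj h)
          rw [Ne, Fin.ext_iff] at h5 h6 h7
          omega
        have h4 := hmono c.1 c.2 t.1 (by rw [Fin.lt_def] at ht1; omega)
        rw [hg t, hg c, dg_inr_inr hK, dg_inr_inr hK, if_neg h3, if_pos hc] at h4
        omega
    obtain ⟨a, ha⟩ := hgsurj ⟨0, by omega⟩
    obtain ⟨c, hc⟩ := hgsurj ⟨1, by omega⟩
    have ha2 : (g a).1 < 2 := by rw [ha]; simp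
    have hc2 : (g c).1 < 2 := by rw [hc]; simp
    rcases lt_trichotomy a c with h | h | h
    · exact aux a c ha2 hc2 h
    · rw [h, hc] at ha
      simp [Fin.ext_iff] at ha
    · exact aux c a hc2 ha2 h

theorem top_clique (b : Fin B) (i : Fin (K + 1)) (w : W K A B C)
    (hvw : (.inr (.inl (b, i)) : W K A B C) ≠ w)
    (hn : ¬ (GW K A B C).Adj (.inr (.inl (b, i))) w) :
    TopPath (GW K A B C) K (.inr (.inl (b, i))) w := by
  refine ⟨fun t => .inr (.inl (b, Equiv.swap i (Fin.last K) ⟨min t K, by omega⟩)), ?_, ?_, ?_, ?_⟩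
  · intro s hs t ht hst
    rw [Set.mem_Iio] at hs ht
    have h1 := Sum.inl.inj (Sum.inr.inj hst)
    have h2 := (Prod.mk.inj h1).2
    have h3 := (Equiv.swap i (Fin.last K)).injective h2
    rw [Fin.ext_iff] at h3
    simp only at h3
    omega
  · have h1 : (⟨min K K, by omega⟩ : Fin (K + 1)) = Fin.last K := by
      rw [Fin.ext_iff]
      simp
    simp only
    rw [h1, Equiv.swap_apply_right]
  · intro t ht h
    apply hn
    rw [← h]
    refine ⟨rfl, ?_⟩
    intro h2
    apply hvw
    rw [← h]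
    exact congrArg (fun z => (.inr (.inl (b, z)) : W K A B C)) h2
  · intro t ht
    refine ⟨⟨rfl, ?_⟩, ?_⟩
    · intro h2
      have h3 := (Equiv.swap i (Fin.last K)).injective h2
      rw [Fin.ext_iff] at h3
      simp only at h3
      omega
    · rw [dg_inr_inl, dg_inr_inl]

theorem top_almost (hK : 1 ≤ K) (b : Fin C) (i : Fin (K + 2)) (hi : ¬ i.1 < 2) (w : W K A B C)
    (hvw : (.inr (.inr (b, i)) : W K A B C) ≠ w)
    (hn : ¬ (GW K A B C).Adj (.inr (.inr (b, i))) w) :
    TopPath (GW K A B C) K (.inr (.inr (b, i))) w := by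
  -- positions: 0, then 2, ..., K + 1 with `i` moved to the end
  let f : ℕ → Fin (K + 2) := fun t => if t = 0 then 0 else
    Equiv.swap i (Fin.last (K + 1)) ⟨min (t + 1) (K + 1), by omega⟩
  have f0 : f 0 = 0 := if_pos rfl
  have f1 : ∀ t, 1 ≤ t → t ≤ K →
      f t = Equiv.swap i (Fin.last (K + 1)) ⟨min (t + 1) (K + 1), by omega⟩ := by
    intro t ht _
    exact if_neg (by omega)
  have f2 : ∀ t, 1 ≤ t → t ≤ K → ¬ (f t).1 < 2 := by
    intro t ht htK
    rw [f1 t ht htK]
    rcases Equiv.swap_apply_eq_iff.1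
        (rfl : Equiv.swap i (Fin.last (K + 1)) ⟨min (t + 1) (K + 1), by omega⟩ = _) with _
    by_cases h1 : (⟨min (t + 1) (K + 1), by omega⟩ : Fin (K + 2)) = i
    · rw [h1, Equiv.swap_apply_left]
      simp only [Fin.val_last]
      omega
    · by_cases h2 : (⟨min (t + 1) (K + 1), by omega⟩ : Fin (K + 2)) = Fin.last (K + 1)
      · rw [h2, Equiv.swap_apply_right]
        exact hi
      · rw [Equiv.swap_apply_of_ne_of_ne h1 h2]
        simp only
        omega
  have finj : ∀ s t, s ≤ K → t ≤ K → f s = f t → s = t := by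
    intro s t hs ht hst
    rcases Nat.eq_zero_or_pos s with h1 | h1
    · rcases Nat.eq_zero_or_pos t with h2 | h2
      · omega
      · have := f2 t h2 ht
        rw [← hst, h1, f0] at this
        simp at this
    · rcases Nat.eq_zero_or_pos t with h2 | h2
      · have := f2 s h1 hs
        rw [hst, h2, f0] at this
        simp at this
      · rw [f1 s h1 hs, f1 t h2 ht] at hst
        have h3 := (Equiv.swap i (Fin.last (K + 1))).injective hst
        rw [Fin.ext_iff] at h3
        simp only at h3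
        omega
  have fK : f K = i := by
    rw [f1 K hK le_rfl]
    have h1 : (⟨min (K + 1) (K + 1), by omega⟩ : Fin (K + 2)) = Fin.last (K + 1) := by
      rw [Fin.ext_iff]
      simp
    rw [h1, Equiv.swap_apply_right]
  refine ⟨fun t => .inr (.inr (b, f t)), ?_, ?_, ?_, ?_⟩
  · intro s hs t ht hst
    rw [Set.mem_Iio] at hs ht
    have h1 := Sum.inr.inj (Sum.inr.inj hst)
    exact finj s t (by omega) (by omega) (Prod.mk.inj h1).2
  · simp only
    rw [fK]
  · intro t ht h
    apply hn
    rw [← h]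
    refine ⟨rfl, ?_, fun h3 => hi h3.1⟩
    intro h2
    apply hvw
    rw [← h]
    exact congrArg (fun z => (.inr (.inr (b, z)) : W K A B C)) h2
  · intro t ht
    refine ⟨⟨rfl, ?_, ?_⟩, ?_⟩
    · intro h2
      have := finj t (t + 1) (by omega) (by omega) h2
      omega
    · rintro ⟨_, h2⟩
      exact f2 (t + 1) (by omega) (by omega) h2
    · rw [dg_inr_inr hK, dg_inr_inr hK, if_neg (f2 (t + 1) (by omega) (by omega))]
      split_ifs <;> omega

theorem crit_almost (hK : 1 ≤ K) (b : Fin C) (i : Fin (K + 2)) (hi : i.1 < 2) (w : W K A B C)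
    (hvw : (.inr (.inr (b, i)) : W K A B C) ≠ w)
    (hn : ¬ (GW K A B C).Adj (.inr (.inr (b, i))) w) :
    Up (addE (GW K A B C) (.inr (.inr (b, i))) w) (K + 2) := by
  let f : ℕ → Fin (K + 2) := fun t => if t = 0 then ⟨1 - i.1, by omega⟩ else
    if t = K + 1 then i else ⟨min (t + 1) (K + 1), by omega⟩
  have f0 : f 0 = ⟨1 - i.1, by omega⟩ := if_pos rfl
  have f1 : ∀ t, 1 ≤ t → t ≤ K → (f t).1 = t + 1 := by
    intro t ht htK
    show (if t = 0 then _ else if t = K + 1 then i else
      (⟨min (t + 1) (K + 1), by omega⟩ : Fin (K + 2))).1 = t + 1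
    rw [if_neg (by omega), if_neg (by omega)]
    simp only
    omega
  have fK : f (K + 1) = i := by
    show (if K + 1 = 0 then _ else if K + 1 = K + 1 then i else _) = i
    rw [if_neg (by omega), if_pos rfl]
  have f0' : (f 0).1 = 1 - i.1 := by rw [f0]
  have fK' : (f (K + 1)).1 = i.1 := by rw [fK]
  have finj : ∀ s t, s ≤ K + 1 → t ≤ K + 1 → f s = f t → s = t := by
    intro s t hs ht hst
    rw [Fin.ext_iff] at hst
    have hcase : ∀ s, s ≤ K + 1 → s = 0 ∨ (1 ≤ s ∧ s ≤ K) ∨ s = K + 1 := by
      intro s hs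
      omega
    rcases hcase s hs with h1 | h1 | h1 <;> rcases hcase t ht with h2 | h2 | h2
    · omega
    · rw [h1, f0', f1 t h2.1 h2.2] at hst
      omega
    · rw [h1, h2, f0', fK'] at hst
      omega
    · rw [h2, f0', f1 s h1.1 h1.2] at hst
      omega
    · rw [f1 s h1.1 h1.2, f1 t h2.1 h2.2] at hst
      omega
    · rw [h2, fK', f1 s h1.1 h1.2] at hst
      omega
    · rw [h1, h2, f0', fK'] at hst
      omega
    · rw [h1, fK', f1 t h2.1 h2.2] at hst
      omega
    · omega
  refine ⟨fun t => .inr (.inr (b, f t)), ?_, ?_⟩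
  · intro s hs t ht hst
    rw [Set.mem_Iio] at hs ht
    have h1 := Sum.inr.inj (Sum.inr.inj hst)
    exact finj s t (by omega) (by omega) (Prod.mk.inj h1).2
  · intro t ht
    refine ⟨Or.inl ⟨rfl, ?_, ?_⟩, ?_⟩
    · intro h2
      have := finj t (t + 1) (by omega) (by omega) h2
      omega
    · rintro ⟨h1, h2⟩
      rcases Nat.eq_zero_or_pos t with h3 | h3
      · subst h3
        rw [f1 1 le_rfl hK] at h2
        omega
      · rw [f1 t h3 (by omega)] at h1
        omega
    · -- degrees
      have hmid : ∀ s, 1 ≤ s → s ≤ K →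
          dg (addE (GW K A B C) (.inr (.inr (b, i))) w) (.inr (.inr (b, f s))) = K + 1 := by
        intro s hs hsK
        have e1 : (.inr (.inr (b, f s)) : W K A B C) ≠ .inr (.inr (b, i)) := by
          intro h
          have h1 := Sum.inr.inj (Sum.inr.inj h)
          have h2 := (Prod.mk.inj h1).2
          rw [Fin.ext_iff, f1 s hs hsK] at h2
          omega
        have e2 : (.inr (.inr (b, f s)) : W K A B C) ≠ w := by
          intro h
          apply hn
          rw [← h]
          refine ⟨rfl, ?_, ?_⟩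
          · rw [Ne, Fin.ext_iff, f1 s hs hsK]
            omega
          · rintro ⟨_, h3⟩
            rw [f1 s hs hsK] at h3
            omega
        rw [dg_addE_eq _ hvw hn e1 e2, dg_inr_inr hK, if_neg]
        rw [f1 s hs hsK]
        omega
      have hend : dg (addE (GW K A B C) (.inr (.inr (b, i))) w) (.inr (.inr (b, f (K + 1)))) =
          K + 1 := by
        rw [fK, dg_addE_left _ hvw hn, dg_inr_inr hK, if_pos hi]
      have hbeg : dg (addE (GW K A B C) (.inr (.inr (b, i))) w) (.inr (.inr (b, f 0))) ≤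
          K + 1 := by
        refine (dg_addE_le _ hvw hn _).trans ?_
        rw [dg_inr_inr hK, if_pos]
        rw [f0']
        omega
      simp only
      rcases Nat.eq_zero_or_pos t with h3 | h3
      · rw [h3, hmid (0 + 1) le_rfl hK]
        exact hbeg
      · rw [hmid t h3 (by omega)]
        rcases Nat.lt_or_ge t K with h4 | h4
        · rw [hmid (t + 1) (by omega) (by omega)]
        · have h5 : t = K := by omega
          rw [h5, hend]

theorem dich (hK : 1 ≤ K) (v w : W K A B C) (hvw : v ≠ w) (hn : ¬ (GW K A B C).Adj v w) :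
    Up (addE (GW K A B C) v w) (K + 2) ∨ TopPath (GW K A B C) K v w ∨
      (rk v = K ∧ v ∈ (SS : Set (W K A B C)) ∧ w ∈ (SS : Set (W K A B C)) ∧ rk w < K) := by
  rcases v with ⟨r, x⟩ | ⟨b, i⟩ | ⟨b, i⟩
  · by_cases hr : r.1 < K
    · exact Or.inl ((ranked hK).crit ⟨_, rfl⟩ hr hvw hn)
    · have hr' : r.1 = K := by omega
      by_cases hw : w ∈ (SS : Set (W K A B C)) ∧ rk w < K
      · exact Or.inr (Or.inr ⟨hr', ⟨_, rfl⟩, hw⟩)
      · refine Or.inr (Or.inl ((ranked hK).topPath ⟨_, rfl⟩ hr' hvw ?_))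
        intro h
        have h1 := (ranked (A := A) (B := B) (C := C) hK).le _ h
        by_contra h2
        exact hw ⟨h, by omega⟩
  · exact Or.inr (Or.inl (top_clique b i w hvw hn))
  · by_cases hi : i.1 < 2
    · exact Or.inl (crit_almost hK b i hi w hvw hn)
    · exact Or.inr (Or.inl (top_almost hK b i hi w hvw hn))

theorem sat (hK : 1 ≤ K) (v w : W K A B C) (hvw : v ≠ w) (hn : ¬ (GW K A B C).Adj v w) :
    Up (addE (GW K A B C) v w) (K + 2) := by
  have hn' : ¬ (GW K A B C).Adj w v := fun h => hn h.symm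
  rcases dich hK v w hvw hn with h1 | h1 | h1
  · exact h1
  · rcases dich hK w v hvw.symm hn' with h2 | h2 | h2
    · rw [addE_comm]
      exact h2
    · rcases Nat.le_total (dg (GW K A B C) v) (dg (GW K A B C) w) with h3 | h3
      · exact up_of_top hvw hn h3 h1
      · rw [addE_comm]
        exact up_of_top hvw.symm hn' h3 h2
    · exact (ranked hK).crit h2.2.2.1 h2.2.2.2 hvw hn
  · rw [addE_comm]
    exact (ranked hK).crit h1.2.2.1 h1.2.2.2 hvw.symm hn'

end sat

end Pool.Agent.R798.DMP
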