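import Pool.Agent.R798.DMPc

/-!
# Degree monotone paths: all orders
-/

set_option autoImplicit false

namespace Pool.Agent.R798.DMP

open Finset Pool.Agent.R798.EGdeg

section iso

variable {V V' : Type} [Fintype V] [Fintype V'] (e : V ≃ V') {G : SimpleGraph V}
  {G' : SimpleGraph V'}

theorem dg_iso (h : ∀ u v, G'.Adj (e u) (e v) ↔ G.Adj u v) (v : V) : dg G' (e v) = dg G v := by
  unfold dg
  have : nbr G' (e v) = (nbr G v).map e.toEmbedding := by
    ext u
    rw [mem_map, mem_nbr]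
    constructor
    · intro h1
      refine ⟨e.symm u, ?_, by simp⟩
      rw [mem_nbr, ← h, e.apply_symm_apply]
      exact h1
    · rintro ⟨x, hx, rfl⟩
      exact (h v x).2 (mem_nbr.1 hx)
  rw [this, card_map]

theorem up_iso (h : ∀ u v, G'.Adj (e u) (e v) ↔ G.Adj u v) {m : ℕ} (hU : Up G m) : Up G' m := by
  obtain ⟨p, h1, h2⟩ := hU
  refine ⟨fun i => e (p i), ?_, ?_⟩
  · intro i hi j hj hij
    exact h1 hi hj (e.injective hij)
  · intro i hi
    obtain ⟨h3, h4⟩ := h2 i hi
    exact ⟨(h _ _).2 h3, by rw [dg_iso e h, dg_iso e h]; exact h4⟩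

end iso

theorem MM_lin (K A r : ℕ) : MM K A r = A * MM K 1 r := by
  unfold MM
  ring

theorem MM_top (K A : ℕ) : MM K A K = A * 2 ^ (K + 1) := by
  unfold MM
  simp

theorem low_mul (K A r : ℕ) (hr : r < K) : ell K r * MM K A (r + 1) = 2 * MM K A r := by
  rw [MM_low K A r hr, MM_up]
  ring

theorem part_sum (K A : ℕ) : ∀ j, j < K →
    ∑ r ∈ range (j + 1), r * MM K A r = 2 * ∑ r ∈ range j, MM K A r := by
  intro j
  induction j with
  | zero =>
    intro _
    simp
  | succ j ih =>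
    intro hj
    rw [sum_range_succ, ih (by omega), sum_range_succ, Nat.mul_add]
    congr 1
    have h1 := low_mul K A j (by omega)
    unfold ell at h1
    rw [if_neg (by omega)] at h1
    exact h1

theorem deg_sum1 (K A : ℕ) (hK : 1 ≤ K) :
    ∑ r ∈ range (K + 1), (r + 2) * MM K A r = 4 * ∑ r ∈ range K, MM K A r := by
  obtain ⟨j, rfl⟩ : ∃ j, K = j + 1 := ⟨K - 1, by omega⟩
  have h0 := part_sum (j + 1) A j (by omega)
  have h1 := low_mul (j + 1) A j (by omega)
  unfold ell at h1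
  rw [if_pos rfl] at h1
  rw [sum_range_succ, h1]
  have h2 : ∑ r ∈ range (j + 1), (r + 2) * MM (j + 1) A r =
      ∑ r ∈ range (j + 1), r * MM (j + 1) A r + 2 * ∑ r ∈ range (j + 1), MM (j + 1) A r := by
    rw [mul_sum, ← sum_add_distrib]
    apply Finset.sum_congr rfl
    intro r _
    ring
  rw [h2, h0, sum_range_succ]
  ring

theorem card_W (K A B C : ℕ) :
    Fintype.card (W K A B C) =
      A * ∑ r ∈ range (K + 1), MM K 1 r + (B * (K + 1) + C * (K + 2)) := by
  rw [Fintype.card_sum, Fintype.card_sum, Fintype.card_prod, Fintype.card_prod,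
    Fintype.card_fin, Fintype.card_fin, Fintype.card_fin, Fintype.card_fin, Fintype.card_sigma]
  congr 1
  simp only [Fintype.card_fin]
  rw [mul_sum, Finset.sum_range]
  apply Finset.sum_congr rfl
  intro r _
  exact MM_lin K A r

theorem sum_dg (K A B C : ℕ) (hK : 1 ≤ K) :
    ∑ v, dg (GW K A B C) v ≤
      4 * (A * ∑ r ∈ range K, MM K 1 r) + (K + 2) * (B * (K + 1) + C * (K + 2)) := by
  rw [Fintype.sum_sum_type, Fintype.sum_sum_type, Fintype.sum_sigma, Nat.mul_add]
  refine Nat.add_le_add ?_ (Nat.add_le_add ?_ ?_)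
  · have h1 : ∑ r : Fin (K + 1), ∑ x : Fin (MM K A r), dg (GW K A B C) (.inl ⟨r, x⟩) =
        ∑ r ∈ range (K + 1), (r + 2) * MM K A r := by
      rw [Finset.sum_range]
      apply Finset.sum_congr rfl
      intro r _
      rw [Finset.sum_congr rfl (fun x _ => dg_inl hK r x), sum_const, card_univ,
        Fintype.card_fin, smul_eq_mul, Nat.mul_comm]
    have h3 : A * ∑ r ∈ range K, MM K 1 r = ∑ r ∈ range K, A * MM K 1 r := mul_sum _ _ _
    rw [h1, deg_sum1 K A hK, h3]
    apply le_of_eq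
    congr 1
    apply Finset.sum_congr rfl
    intro r _
    exact MM_lin K A r
  · rw [Fintype.sum_prod_type]
    have h1 : ∑ b : Fin B, ∑ i : Fin (K + 1), dg (GW K A B C) (.inr (.inl (b, i))) =
        B * ((K + 1) * K) := by
      simp only [dg_inr_inl, sum_const, card_univ, Fintype.card_fin, smul_eq_mul]
    rw [h1]
    nlinarith [Nat.zero_le (B * (K + 1))]
  · have h1 : ∀ v : Fin C × Fin (K + 2), dg (GW K A B C) (.inr (.inr v)) ≤ K + 2 := by
      rintro ⟨b, i⟩
      rw [dg_inr_inr hK]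
      split_ifs <;> omega
    have h2 := Finset.sum_le_card_nsmul univ (fun v => dg (GW K A B C) (.inr (.inr v))) (K + 2)
      (fun v _ => h1 v)
    rw [card_univ, Fintype.card_prod, Fintype.card_fin, Fintype.card_fin, smul_eq_mul] at h2
    rw [Nat.mul_comm (K + 2)]
    exact h2

/-- saturated graphs of all large orders with at most twice as many edges as vertices -/
theorem exists_graph (K : ℕ) (hK : 1 ≤ K) : ∃ n₀ : ℕ, ∀ n ≥ n₀, ∃ G : SimpleGraph (Fin n),
    ¬ Up G (K + 2) ∧ (∀ v w, v ≠ w → ¬ G.Adj v w → Up (addE G v w) (K + 2)) ∧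
      ∑ v, dg G v ≤ 4 * n := by
  set s := ∑ r ∈ range (K + 1), MM K 1 r with hs
  have hs' : s = ∑ r ∈ range K, MM K 1 r + 2 ^ (K + 1) := by
    rw [hs, sum_range_succ, MM_top, one_mul]
  have hpow : 1 ≤ 2 ^ (K + 1) := Nat.one_le_two_pow
  have hspos : 0 < s := by omega
  set T := (K + 1) * (K + 2) + s with hT
  refine ⟨s * ((K + 2) * T) + T, ?_⟩
  intro n hn
  set A := (n - (K + 1) * (K + 2)) / s with hA
  have hA1 : (K + 2) * T ≤ A := by
    rw [hA, Nat.le_div_iff_mul_le hspos, Nat.mul_comm]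
    have : (K + 1) * (K + 2) ≤ T := by omega
    omega
  have hA2 : s * A ≤ n - (K + 1) * (K + 2) := Nat.mul_div_le _ _
  have hA3 : n - (K + 1) * (K + 2) < s * (A + 1) := by
    rw [hA]
    exact Nat.lt_mul_div_succ _ hspos
  have hle : (K + 1) * (K + 2) ≤ n := by
    have : (K + 1) * (K + 2) ≤ T := by omega
    have h2 : T ≤ s * ((K + 2) * T) + T := Nat.le_add_left _ _
    omega
  obtain ⟨t, ht⟩ : ∃ t, n = s * A + t := ⟨n - s * A, by omega⟩
  have ht1 : (K + 1) * (K + 2) ≤ t := by omega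
  have ht2 : t < T := by
    have h5 : s * (A + 1) = s * A + s := by ring
    omega
  obtain ⟨C, B, hCB⟩ : ∃ C B, t = B * (K + 1) + C * (K + 2) := by
    have h1 := Nat.div_add_mod t (K + 1)
    have h2 := Nat.mod_lt t (show 0 < K + 1 by omega)
    have h3 : t % (K + 1) ≤ t / (K + 1) := by
      have h4 : K + 2 ≤ t / (K + 1) := by
        rw [Nat.le_div_iff_mul_le (by omega), Nat.mul_comm]
        exact ht1
      omega
    refine ⟨t % (K + 1), t / (K + 1) - t % (K + 1), ?_⟩
    obtain ⟨u, hu⟩ : ∃ u, t / (K + 1) = u + t % (K + 1) := ⟨t / (K + 1) - t % (K + 1), by omega⟩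
    rw [hu, Nat.add_sub_cancel]
    rw [hu] at h1
    calc t = (K + 1) * (u + t % (K + 1)) + t % (K + 1) := h1.symm
      _ = u * (K + 1) + t % (K + 1) * (K + 2) := by ring
  have hcard : Fintype.card (W K A B C) = n := by
    rw [card_W, ← hs, ← hCB, ht, Nat.mul_comm]
  let e : W K A B C ≃ Fin n := (Fintype.equivFin _).trans (finCongr hcard)
  let G : SimpleGraph (Fin n) := (GW K A B C).comap e.symm
  have hadj : ∀ u v, G.Adj (e u) (e v) ↔ (GW K A B C).Adj u v := by
    intro u v
    show (GW K A B C).Adj (e.symm (e u)) (e.symm (e v)) ↔ _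
    rw [e.symm_apply_apply, e.symm_apply_apply]
  have hadj' : ∀ u v, (GW K A B C).Adj (e.symm u) (e.symm v) ↔ G.Adj u v := fun u v => Iff.rfl
  refine ⟨G, ?_, ?_, ?_⟩
  · intro h
    exact no_up hK (up_iso e.symm hadj' h)
  · intro v w hvw hn'
    have h1 : e.symm v ≠ e.symm w := fun h => hvw (e.symm.injective h)
    have h2 := sat hK (e.symm v) (e.symm w) h1 hn'
    refine up_iso e ?_ h2
    intro a b
    rw [addE_adj, addE_adj, hadj]
    have h3 : ∀ x y, e x = y ↔ x = e.symm y := fun x y => e.eq_symm_apply.symm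
    rw [h3, h3, h3, h3, e.injective.ne_iff]
  · have h1 : ∑ v, dg G v = ∑ v, dg (GW K A B C) v := by
      rw [← e.sum_comp]
      exact Finset.sum_congr rfl (fun v _ => dg_iso e hadj v)
    rw [h1]
    refine (sum_dg K A B C hK).trans ?_
    have h2 : (K + 2) * t ≤ A := (Nat.mul_le_mul_left _ ht2.le).trans hA1
    have h3 : A ≤ 2 ^ (K + 1) * A := Nat.le_mul_of_pos_left _ (by positivity)
    rw [← hCB, ht, hs']
    generalize ∑ r ∈ range K, MM K 1 r = u
    have h4 : (u + 2 ^ (K + 1)) * A = A * u + 2 ^ (K + 1) * A := by ring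
    rw [h4]
    omega

end Pool.Agent.R798.DMP
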