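import Mathlib

/-!
# Closed plane curves, knot diagrams and knot types

A generic closed curve in the plane (or in the sphere) is recorded by the cyclic list of its passages
through its double points. Each double point is passed twice. At a passage we note the name of the
double point and the direction in which the other branch of the curve crosses there.
-/

set_option autoImplicit false

namespace Pool.Agent.R798

/-- A passage of an oriented closed curve through one of its double points: the name `lab` of the
double point, and `ori`, which is `true` if the other branch crosses from right to left and `false` if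
it crosses from left to right. -/
structure Pass where
  lab : ℕ
  ori : Bool
  deriving DecidableEq

/-- The other passage through the same double point. (If branch 1 sees branch 2 cross from right to
left, then branch 2 sees branch 1 cross from left to right.) -/
def Pass.flip (x : Pass) : Pass := ⟨x.lab, !x.ori⟩

/-- The place before `i` in a cyclic list with `n` places. -/
def prev {n : ℕ} (i : Fin n) : Fin n := (finRotate n).symm i

/-- A directed edge of the curve `w`. The edge number `i` leads from the passage number `i` to the
next passage; `(i, true)` is this edge with the direction of the curve, and `(i, false)` the same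
edge with the opposite direction. -/
abbrev Dart (w : List Pass) : Type := Fin w.length × Bool

/-- `Turn w d e`: the directed edge `e` follows the directed edge `d` if one turns left at the end of
`d`, so that both have the same face of the curve on their left side. Here `k` and `m` are the two
passages through the double point at the end of `d`. -/
inductive Turn (w : List Pass) : Dart w → Dart w → Prop
  | aheadLeft (k m : Fin w.length) : w[m] = w[k].flip → w[k].ori = true →
      Turn w (prev k, true) (m, true)
  | aheadRight (k m : Fin w.length) : w[m] = w[k].flip → w[k].ori = false →
      Turn w (prev k, true) (prev m, false)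
  | backLeft (k m : Fin w.length) : w[m] = w[k].flip → w[k].ori = true →
      Turn w (k, false) (prev m, false)
  | backRight (k m : Fin w.length) : w[m] = w[k].flip → w[k].ori = false →
      Turn w (k, false) (m, true)

/-- The number of faces of the curve `w` (on the closed surface which is obtained if one glues a disk
along every closed path that turns left at each double point). -/
noncomputable def faces (w : List Pass) : ℕ := Nat.card (Quot (Turn w))

/-- The curve `w` lies on the sphere (equivalently, in the plane): each double point is passed exactly
twice, once in each way, and Euler's formula for the sphere holds: if there are `n > 0` double points,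
hence `2 * n` passages and `2 * n` edges, then there are `n + 2` faces. -/
def IsPlaneCurve (w : List Pass) : Prop :=
  w.Nodup ∧ (∀ x ∈ w, x.flip ∈ w) ∧ (w = [] ∨ 2 * faces w = w.length + 4)

/-- The double point passed in `x` is nugatory: the curve runs from one of its two passages to the
other one without crossing the rest of the curve, i.e. every double point that is passed on this way
is passed twice on this way. (Equivalently, the curve becomes disconnected if this double point is
removed; equivalently, some simple closed curve meets the given curve only in this double point.) -/
def Nugatory (w : List Pass) (x : Pass) : Prop :=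
  ∃ A B C : List Pass, w = A ++ x :: (B ++ x.flip :: C) ∧ ∀ y ∈ B, y.flip ∈ B

/-- A passage of a knot diagram through one of its crossings: the name `lab` of the crossing, whether
the passage is the upper one (`upper = true`) or the lower one, and whether the crossing is positive
(`pos = true`) or negative. -/
structure Letter where
  lab : ℕ
  upper : Bool
  pos : Bool
  deriving DecidableEq

/-- The other passage through the same crossing. -/
def Letter.flip (x : Letter) : Letter := ⟨x.lab, !x.upper, x.pos⟩

/-- Forgetting which branch is the upper one. At the upper passage of a positive crossing, and at the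
lower passage of a negative crossing, the other branch crosses from right to left. -/
def Letter.pass (x : Letter) : Pass := ⟨x.lab, x.upper == x.pos⟩

/-- The curve underlying a diagram. -/
def curve (D : List Letter) : List Pass := D.map Letter.pass

/-- Knot diagrams, given by their (signed) Gauss codes: each crossing is passed once above and once
below, and the underlying curve is a plane curve. -/
def IsDiagram (D : List Letter) : Prop :=
  (∀ x ∈ D, x.flip ∈ D) ∧ IsPlaneCurve (curve D)

/-- Knot diagrams. -/
def Diagram : Type := {D : List Letter // IsDiagram D}

/-- Two consecutive passages, in the order `x`, `y` (if `d = true`) or in the order `y`, `x`. -/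
def seg (d : Bool) (x y : Letter) : List Letter := if d then [x, y] else [y, x]

/-- Changes of the code of a diagram that do not change the knot: another starting point, another
orientation of the knot, other names for the crossings, and the Reidemeister moves.

* `first`: a kink is added.
* `second₁`, `second₂`: two consecutive passages through two new crossings `a` and `b` with opposite
  signs, both above or both below, are added at one place, and the other passages through `a` and `b`
  are added consecutively at another place, in the same order or in the opposite order.
* `third₁`, `third₂`: a triangle with the crossings `p`, `q`, `r`. The top branch passes `p` and `q`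
  consecutively, the middle branch passes `p` and `r` consecutively, the bottom branch passes `q` and
  `r` consecutively, and in each of these three pairs the order is reversed. The condition on the
  signs and the orders says that the three passages do bound a triangle. The two cases are the two
  possible cyclic orders of the three branches along the knot. -/
inductive Move : List Letter → List Letter → Prop
  | start (x : Letter) (L : List Letter) : Move (x :: L) (L ++ [x])
  | reverse (L : List Letter) : Move L L.reverse
  | rename (f : ℕ → ℕ) (L : List Letter)
      (hf : ∀ x ∈ L, ∀ y ∈ L, f x.lab = f y.lab → x.lab = y.lab) :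
      Move L (L.map fun x => ⟨f x.lab, x.upper, x.pos⟩)
  | first (a : ℕ) (o s : Bool) (L : List Letter) : Move L (⟨a, o, s⟩ :: ⟨a, !o, s⟩ :: L)
  | second₁ (a b : ℕ) (o s : Bool) (X Y : List Letter) :
      Move (X ++ Y) (⟨a, o, s⟩ :: ⟨b, o, !s⟩ :: (X ++ ⟨a, !o, s⟩ :: ⟨b, !o, !s⟩ :: Y))
  | second₂ (a b : ℕ) (o s : Bool) (X Y : List Letter) :
      Move (X ++ Y) (⟨a, o, s⟩ :: ⟨b, o, !s⟩ :: (X ++ ⟨b, !o, !s⟩ :: ⟨a, !o, s⟩ :: Y))
  | third₁ (p q r : ℕ) (sp sq sr dT dM dB : Bool) (X Y Z : List Letter)
      (h₁ : (dT ^^ dM ^^ sp) = (dT ^^ dB ^^ sq)) (h₂ : (dT ^^ dM ^^ sp) = (dM ^^ dB ^^ sr)) :
      Move
        (seg dT ⟨p, true, sp⟩ ⟨q, true, sq⟩ ++ X ++ seg dM ⟨p, false, sp⟩ ⟨r, true, sr⟩ ++ Y ++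
          seg dB ⟨q, false, sq⟩ ⟨r, false, sr⟩ ++ Z)
        (seg (!dT) ⟨p, true, sp⟩ ⟨q, true, sq⟩ ++ X ++ seg (!dM) ⟨p, false, sp⟩ ⟨r, true, sr⟩ ++ Y ++
          seg (!dB) ⟨q, false, sq⟩ ⟨r, false, sr⟩ ++ Z)
  | third₂ (p q r : ℕ) (sp sq sr dT dM dB : Bool) (X Y Z : List Letter)
      (h₁ : (dT ^^ dM ^^ sp) = (dT ^^ dB ^^ sq)) (h₂ : (dT ^^ dM ^^ sp) = (dM ^^ dB ^^ sr)) :
      Move
        (seg dT ⟨p, true, sp⟩ ⟨q, true, sq⟩ ++ X ++ seg dB ⟨q, false, sq⟩ ⟨r, false, sr⟩ ++ Y ++
          seg dM ⟨p, false, sp⟩ ⟨r, true, sr⟩ ++ Z)
        (seg (!dT) ⟨p, true, sp⟩ ⟨q, true, sq⟩ ++ X ++ seg (!dB) ⟨q, false, sq⟩ ⟨r, false, sr⟩ ++ Y ++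
          seg (!dM) ⟨p, false, sp⟩ ⟨r, true, sr⟩ ++ Z)

/-- Types of (unoriented) knots: knot diagrams up to the equivalence relation generated by the
moves. By Reidemeister's theorem these are the isotopy classes of tame knots in `ℝ³`. Mirror images
are not identified. -/
def KnotType : Type := Quot fun D E : Diagram => Move D.1 E.1

/-- The type of the knot with the diagram `D`. -/
def Diagram.knot (D : Diagram) : KnotType := Quot.mk _ D

/-- The types of the knots with a diagram whose underlying curve is `w`, i.e. of the knots into which
the shadow `w` resolves. -/
def resolutions (w : List Pass) : Set KnotType := {K | ∃ D : Diagram, curve D.1 = w ∧ K = D.knot}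

/-- The number of types of knots into which the shadow `w` resolves. -/
noncomputable def numKnots (w : List Pass) : ℕ := (resolutions w).ncard

end Pool.Agent.R798
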