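import Mathlib

/-!
# The theorem of Erdos and Gallai on degree sequences (sufficiency)

The proof follows Tripathi, Venugopalan and West.
-/

set_option autoImplicit false

namespace Pool.Agent.R798.EGdeg

open Finset

open Classical in
/-- the set of neighbours of `v` -/
noncomputable def nbr {V : Type*} [Fintype V] (G : SimpleGraph V) (v : V) : Finset V :=
  univ.filter (fun u => G.Adj v u)

/-- the degree of `v` -/
noncomputable def dg {V : Type*} [Fintype V] (G : SimpleGraph V) (v : V) : ℕ :=
  (nbr G v).card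

theorem mem_nbr {V : Type*} [Fintype V] {G : SimpleGraph V} {u v : V} :
    u ∈ nbr G v ↔ G.Adj v u := by
  simp [nbr]

/-- `G` with the edge `xy` added -/
def addE {V : Type*} (G : SimpleGraph V) (x y : V) : SimpleGraph V where
  Adj u v := G.Adj u v ∨ (u ≠ v ∧ ((u = x ∧ v = y) ∨ (u = y ∧ v = x)))
  symm := ⟨fun u v h => by
    rcases h with h | ⟨h1, h2⟩
    · exact Or.inl h.symm
    · refine Or.inr ⟨h1.symm, ?_⟩
      rcases h2 with ⟨rfl, rfl⟩ | ⟨rfl, rfl⟩
      · exact Or.inr ⟨rfl, rfl⟩
      · exact Or.inl ⟨rfl, rfl⟩⟩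
  loopless := ⟨fun u h => by
    rcases h with h | ⟨h1, _⟩
    · exact G.irrefl h
    · exact h1 rfl⟩

/-- `G` with the edge `xy` removed -/
def remE {V : Type*} (G : SimpleGraph V) (x y : V) : SimpleGraph V where
  Adj u v := G.Adj u v ∧ ¬ ((u = x ∧ v = y) ∨ (u = y ∧ v = x))
  symm := ⟨fun u v h => by
    refine ⟨h.1.symm, ?_⟩
    rintro (⟨rfl, rfl⟩ | ⟨rfl, rfl⟩)
    · exact h.2 (Or.inr ⟨rfl, rfl⟩)
    · exact h.2 (Or.inl ⟨rfl, rfl⟩)⟩
  loopless := ⟨fun u h => G.irrefl h.1⟩

theorem addE_adj {V : Type*} {x y u v : V} (G : SimpleGraph V) :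
    (addE G x y).Adj u v ↔ G.Adj u v ∨ (u ≠ v ∧ ((u = x ∧ v = y) ∨ (u = y ∧ v = x))) := Iff.rfl

theorem remE_adj {V : Type*} {x y u v : V} (G : SimpleGraph V) :
    (remE G x y).Adj u v ↔ G.Adj u v ∧ ¬ ((u = x ∧ v = y) ∨ (u = y ∧ v = x)) := Iff.rfl

section basic

variable {V : Type*} [Fintype V] (G : SimpleGraph V)

theorem dg_add [DecidableEq V] {x y : V} (hxy : x ≠ y) (h : ¬ G.Adj x y) (v : V) :
    dg (addE G x y) v = dg G v + if v = x ∨ v = y then 1 else 0 := by
  unfold dg
  by_cases h1 : v = x
  · subst h1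
    rw [if_pos (Or.inl rfl)]
    have : nbr (addE G v y) v = insert y (nbr G v) := by
      ext u
      rw [mem_insert, mem_nbr, mem_nbr, addE_adj]
      constructor
      · rintro (h | ⟨h1, ⟨_, h2⟩ | ⟨h2, _⟩⟩)
        · exact Or.inr h
        · exact Or.inl h2
        · exact absurd h2 hxy
      · rintro (rfl | h)
        · exact Or.inr ⟨hxy, Or.inl ⟨rfl, rfl⟩⟩
        · exact Or.inl h
    rw [this, card_insert_of_notMem (by rwa [mem_nbr])]
  · by_cases h2 : v = y
    · subst h2
      rw [if_pos (Or.inr rfl)]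
      have : nbr (addE G x v) v = insert x (nbr G v) := by
        ext u
        rw [mem_insert, mem_nbr, mem_nbr, addE_adj]
        constructor
        · rintro (h | ⟨h1, ⟨h2, _⟩ | ⟨_, h2⟩⟩)
          · exact Or.inr h
          · exact absurd h2 (Ne.symm hxy)
          · exact Or.inl h2
        · rintro (rfl | h)
          · exact Or.inr ⟨hxy.symm, Or.inr ⟨rfl, rfl⟩⟩
          · exact Or.inl h
      rw [this, card_insert_of_notMem (by rwa [mem_nbr, G.adj_comm])]
    · rw [if_neg (by tauto), add_zero]
      congr 1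
      ext u
      rw [mem_nbr, mem_nbr, addE_adj]
      tauto

theorem dg_rem [DecidableEq V] {x y : V} (h : G.Adj x y) (v : V) :
    dg (remE G x y) v + (if v = x ∨ v = y then 1 else 0) = dg G v := by
  have hxy : x ≠ y := h.ne
  unfold dg
  by_cases h1 : v = x
  · subst h1
    rw [if_pos (Or.inl rfl)]
    have : nbr G v = insert y (nbr (remE G v y) v) := by
      ext u
      rw [mem_insert, mem_nbr, mem_nbr, remE_adj]
      constructor
      · intro h3
        by_cases h4 : u = y
        · exact Or.inl h4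
        · refine Or.inr ⟨h3, ?_⟩
          rintro (⟨_, h5⟩ | ⟨h5, _⟩)
          · exact h4 h5
          · exact hxy h5
      · rintro (rfl | h)
        · assumption
        · exact h.1
    rw [this, card_insert_of_notMem]
    rw [mem_nbr, remE_adj]
    tauto
  · by_cases h2 : v = y
    · subst h2
      rw [if_pos (Or.inr rfl)]
      have : nbr G v = insert x (nbr (remE G x v) v) := by
        ext u
        rw [mem_insert, mem_nbr, mem_nbr, remE_adj]
        constructor
        · intro h3
          by_cases h4 : u = x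
          · exact Or.inl h4
          · refine Or.inr ⟨h3, ?_⟩
            rintro (⟨h5, _⟩ | ⟨_, h5⟩)
            · exact hxy h5.symm
            · exact h4 h5
        · rintro (rfl | h3)
          · exact h.symm
          · exact h3.1
      rw [this, card_insert_of_notMem]
      rw [mem_nbr, remE_adj]
      tauto
    · rw [if_neg (by tauto), add_zero]
      congr 1
      ext u
      rw [mem_nbr, mem_nbr, remE_adj]
      tauto

/-- a vertex of larger degree has a private neighbour -/
theorem exists_private {r i : V} (h : dg G r < dg G i) :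
    ∃ u, G.Adj i u ∧ ¬ G.Adj r u ∧ u ≠ r ∧ u ≠ i := by
  classical
  by_contra hcon
  push Not at hcon
  have h1 : ∀ u, G.Adj i u → u = r ∨ G.Adj r u := by
    intro u hu
    by_contra h2
    push Not at h2
    exact G.irrefl ((hcon u hu h2.2 h2.1) ▸ hu)
  have hne : i ≠ r := by
    rintro rfl
    exact lt_irrefl _ h
  unfold dg at h
  by_cases hir : G.Adj i r
  · have h2 : (nbr G i).erase r ⊆ (nbr G r).erase i := by
      intro u hu
      rw [mem_erase, mem_nbr] at hu ⊢
      exact ⟨hu.2.ne', (h1 u hu.2).resolve_left hu.1⟩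
    have h3 := card_le_card h2
    rw [card_erase_of_mem (mem_nbr.2 hir), card_erase_of_mem (mem_nbr.2 hir.symm)] at h3
    have h4 : 0 < (nbr G r).card := card_pos.2 ⟨i, mem_nbr.2 hir.symm⟩
    omega
  · have h2 : nbr G i ⊆ nbr G r := by
      intro u hu
      rw [mem_nbr] at hu ⊢
      rcases h1 u hu with rfl | h3
      · exact absurd hu hir
      · exact h3
    have h3 := card_le_card h2
    omega

theorem sum_dg_even : Even (∑ v, dg G v) := by
  classical
  have h := G.sum_degrees_eq_twice_card_edges
  have h2 : ∑ v, dg G v = ∑ v, G.degree v := by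
    apply Finset.sum_congr rfl
    intro v _
    unfold dg
    rw [← SimpleGraph.card_neighborFinset_eq_degree]
    congr 1
    ext u
    rw [mem_nbr, SimpleGraph.mem_neighborFinset]
  rw [h2, h]
  exact even_two_mul _

end basic

section step

variable {n : ℕ} (b : Fin n → ℕ)

/-- a graph whose degrees are at most `b`, with equality before `r`, and with no edges after `r` -/
def Good (r : Fin n) (G : SimpleGraph (Fin n)) : Prop :=
  (∀ i, dg G i ≤ b i) ∧ (∀ i, i < r → dg G i = b i) ∧ ∀ i j, r < i → r < j → ¬ G.Adj i j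

variable {b} {r : Fin n} {G : SimpleGraph (Fin n)}

theorem h0 (hG : Good b r G) (hr : dg G r < b r) (hmax : ∀ G', Good b r G' → dg G' r ≤ dg G r)
    {i : Fin n} (hir : i ≠ r) (hi : dg G i < b i) : G.Adj r i := by
  by_contra hcon
  have hri : r < i := by
    rcases lt_trichotomy i r with h | h | h
    · exact absurd (hG.2.1 i h) hi.ne
    · exact absurd h hir
    · exact h
  have key := dg_add G hir.symm hcon
  have : Good b r (addE G r i) := by
    refine ⟨?_, ?_, ?_⟩
    · intro v
      rw [key v]
      split_ifs with h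
      · rcases h with rfl | rfl <;> omega
      · exact hG.1 v
    · intro v hv
      rw [key v, if_neg, add_zero]
      · exact hG.2.1 v hv
      · rintro (rfl | rfl)
        · exact lt_irrefl _ hv
        · exact lt_asymm hv hri
    · intro u v hu hv
      rw [addE_adj]
      rintro (h | ⟨_, ⟨rfl, _⟩ | ⟨_, rfl⟩⟩)
      · exact hG.2.2 u v hu hv h
      · exact lt_irrefl _ hu
      · exact lt_irrefl _ hv
  have h1 := hmax _ this
  rw [key r, if_pos (Or.inl rfl)] at h1
  omega

theorem h1 (hb : Antitone b) (hev : Even (∑ i, b i)) (hG : Good b r G) (hr : dg G r < b r)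
    (hmax : ∀ G', Good b r G' → dg G' r ≤ dg G r) {i : Fin n} (hir : i < r) : G.Adj r i := by
  by_contra hcon
  have hi := hG.2.1 i hir
  have hbi := hb hir.le
  obtain ⟨u, hiu, hru, hur, hui⟩ := exists_private G (show dg G r < dg G i by omega)
  have hG1a : ¬ (remE G i u).Adj r u := fun h => hru h.1
  have hG2a : ¬ (addE (remE G i u) r u).Adj r i := by
    rw [addE_adj, remE_adj]
    rintro (h | ⟨_, ⟨_, h⟩ | ⟨h, _⟩⟩)
    · exact hcon h.1
    · exact hui h.symm
    · exact hur h.symm
  by_cases h2 : dg G r + 2 ≤ b r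
  · have key : ∀ v, dg (addE (addE (remE G i u) r u) r i) v =
        dg G v + if v = r then 2 else 0 := by
      intro v
      have e1 := dg_rem G hiu v
      have e2 := dg_add (remE G i u) hur.symm hG1a v
      have e3 := dg_add (addE (remE G i u) r u) hir.ne' hG2a v
      rw [e3, e2, ← e1]
      by_cases c1 : v = r
      · have c2 : v ≠ i := fun h => hir.ne (h ▸ c1)
        have c3 : v ≠ u := fun h => hur (h ▸ c1)
        simp [c1, c2, c3, hir.ne', hur.symm]
      · by_cases c2 : v = i
        · have c3 : v ≠ u := fun h => hui (h ▸ c2)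
          simp [c2, hir.ne, hui.symm]
        · by_cases c3 : v = u
          · simp [c3, hur, hui]
          · simp [c1, c2, c3]
    have : Good b r (addE (addE (remE G i u) r u) r i) := by
      refine ⟨?_, ?_, ?_⟩
      · intro v
        rw [key v]
        split_ifs with h
        · rw [h]
          exact h2
        · exact hG.1 v
      · intro v hv
        rw [key v, if_neg hv.ne, add_zero]
        exact hG.2.1 v hv
      · intro x y hx hy
        rw [addE_adj, addE_adj, remE_adj]
        rintro ((h | ⟨_, ⟨rfl, _⟩ | ⟨_, rfl⟩⟩) | ⟨_, ⟨rfl, _⟩ | ⟨_, rfl⟩⟩)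
        · exact hG.2.2 x y hx hy h.1
        · exact lt_irrefl _ hx
        · exact lt_irrefl _ hy
        · exact lt_irrefl _ hx
        · exact lt_irrefl _ hy
    have h3 := hmax _ this
    rw [key r, if_pos rfl] at h3
    omega
  · have hk : ∃ k, k ≠ r ∧ dg G k < b k := by
      by_contra hcon2
      push Not at hcon2
      have h3 : ∀ k, k ≠ r → dg G k = b k := fun k hk => le_antisymm (hG.1 k) (hcon2 k hk)
      have h4 : ∑ i, b i = ∑ i, dg G i + 1 := by
        rw [← Finset.add_sum_erase univ _ (mem_univ r),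
          ← Finset.add_sum_erase univ (fun i => dg G i) (mem_univ r)]
        have h5 : ∑ x ∈ univ.erase r, b x = ∑ x ∈ univ.erase r, dg G x := by
          apply Finset.sum_congr rfl
          intro x hx
          exact (h3 x (mem_erase.1 hx).1).symm
        rw [h5]
        omega
      have h5 := sum_dg_even G
      rw [h4] at hev
      exact (Nat.not_even_iff_odd.2 h5.add_one) hev
    obtain ⟨k, hkr, hk⟩ := hk
    have hrk : G.Adj r k := h0 hG hr hmax hkr hk
    have hki : k ≠ i := by
      rintro rfl
      omega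
    have hku : k ≠ u := by
      rintro rfl
      exact hru hrk
    have g1 : (remE G i u).Adj r k := by
      rw [remE_adj]
      refine ⟨hrk, ?_⟩
      rintro (⟨h, _⟩ | ⟨h, _⟩)
      · exact hir.ne h.symm
      · exact hur h.symm
    have g2 : ¬ (remE (remE G i u) r k).Adj r u := fun h => hru h.1.1
    have g3 : ¬ (addE (remE (remE G i u) r k) r u).Adj r i := by
      rw [addE_adj, remE_adj, remE_adj]
      rintro (h | ⟨_, ⟨_, h⟩ | ⟨h, _⟩⟩)
      · exact hcon h.1.1
      · exact hui h.symm
      · exact hur h.symm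
    have key : ∀ v, dg (addE (addE (remE (remE G i u) r k) r u) r i) v +
        (if v = k then 1 else 0) = dg G v + if v = r then 1 else 0 := by
      intro v
      have e1 := dg_rem G hiu v
      have e2 := dg_rem (remE G i u) g1 v
      have e3 := dg_add _ hur.symm g2 v
      have e4 := dg_add _ hir.ne' g3 v
      rw [e4, e3, ← e1, ← e2]
      by_cases c1 : v = r
      · simp [c1, hir.ne', hur.symm, hkr.symm]
      · by_cases c2 : v = i
        · simp [c2, hir.ne, hui.symm, hki.symm]
        · by_cases c3 : v = u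
          · simp [c3, hur, hui, hku.symm]
          · by_cases c4 : v = k
            · simp [c4, hkr, hki, hku]
            · simp [c1, c2, c3, c4]
    have : Good b r (addE (addE (remE (remE G i u) r k) r u) r i) := by
      refine ⟨?_, ?_, ?_⟩
      · intro v
        have h3 := key v
        have h4 := hG.1 v
        by_cases h5 : v = r
        · rw [if_pos h5] at h3
          rw [h5] at h3 ⊢
          omega
        · rw [if_neg h5] at h3
          omega
      · intro v hv
        have h3 := key v
        have h4 := hG.2.1 v hv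
        have h5 : v ≠ k := by
          rintro rfl
          omega
        rw [if_neg h5, if_neg hv.ne] at h3
        omega
      · intro x y hx hy
        rw [addE_adj, addE_adj, remE_adj, remE_adj]
        rintro ((h | ⟨_, ⟨rfl, _⟩ | ⟨_, rfl⟩⟩) | ⟨_, ⟨rfl, _⟩ | ⟨_, rfl⟩⟩)
        · exact hG.2.2 x y hx hy h.1.1
        · exact lt_irrefl _ hx
        · exact lt_irrefl _ hy
        · exact lt_irrefl _ hx
        · exact lt_irrefl _ hy
    have h3 := hmax _ this
    have h4 := key r
    rw [if_neg hkr.symm, if_pos rfl] at h4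
    omega

theorem card_nbr_inter (hG : Good b r G) {k : Fin n} (hk : r < k) : nbr G k ⊆ Finset.Iic r := by
  intro x hx
  rw [mem_Iic]
  by_contra h
  exact hG.2.2 k x hk (not_le.1 h) (mem_nbr.1 hx)

theorem h2 (hb : Antitone b) (hG : Good b r G) (hr : dg G r < b r)
    (hmax : ∀ G', Good b r G' → dg G' r ≤ dg G r) (hH1 : ∀ i, i < r → G.Adj r i)
    {k : Fin n} (hk : r < k) : dg G k = min (b k) (r.1 + 1) := by
  have hle : dg G k ≤ r.1 + 1 := by
    have := card_le_card (card_nbr_inter hG hk)
    rw [Fin.card_Iic] at this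
    exact this
  by_contra hcon
  have hkb : dg G k < b k := by
    have := hG.1 k
    omega
  have hkr : dg G k < r.1 + 1 := by
    have := hG.1 k
    omega
  have hrk : G.Adj r k := h0 hG hr hmax hk.ne' hkb
  obtain ⟨i, hi, hik⟩ : ∃ i, i ≤ r ∧ ¬ G.Adj k i := by
    by_contra h
    push Not at h
    have h3 : Finset.Iic r ⊆ nbr G k := by
      intro x hx
      exact mem_nbr.2 (h x (mem_Iic.1 hx))
    have := card_le_card h3
    rw [Fin.card_Iic] at this
    unfold dg at hkr
    omega
  have hir : i < r := by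
    refine lt_of_le_of_ne hi ?_
    rintro rfl
    exact hik hrk.symm
  have hi := hG.2.1 i hir
  have hbi := hb hir.le
  obtain ⟨u, hiu, hru, hur, hui⟩ := exists_private G (show dg G r < dg G i by omega)
  have huk : u ≠ k := by
    rintro rfl
    exact hik hiu.symm
  have g1 : ¬ (remE G i u).Adj r u := fun h => hru h.1
  have g2 : ¬ (addE (remE G i u) r u).Adj i k := by
    rw [addE_adj, remE_adj]
    rintro (h | ⟨_, ⟨h, _⟩ | ⟨h, _⟩⟩)
    · exact hik h.1.symm
    · exact hir.ne h
    · exact hui h.symm
  have hik' : i ≠ k := (hir.trans hk).ne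
  have key : ∀ v, dg (addE (addE (remE G i u) r u) i k) v =
      dg G v + (if v = r then 1 else 0) + if v = k then 1 else 0 := by
    intro v
    have e1 := dg_rem G hiu v
    have e2 := dg_add _ hur.symm g1 v
    have e3 := dg_add _ hik' g2 v
    rw [e3, e2, ← e1]
    by_cases c1 : v = r
    · simp [c1, hir.ne', hur.symm, hk.ne]
    · by_cases c2 : v = i
      · simp [c2, hir.ne, hui.symm, hik']
      · by_cases c3 : v = u
        · simp [c3, hur, hui, huk]
        · by_cases c4 : v = k
          · simp [c4, hk.ne', hik'.symm, huk.symm]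
          · simp [c1, c2, c3, c4]
  have : Good b r (addE (addE (remE G i u) r u) i k) := by
    refine ⟨?_, ?_, ?_⟩
    · intro v
      rw [key v]
      have h4 := hG.1 v
      by_cases h5 : v = r
      · rw [h5, if_pos rfl, if_neg hk.ne]
        omega
      · by_cases h6 : v = k
        · rw [h6, if_pos rfl, if_neg hk.ne']
          omega
        · rw [if_neg h5, if_neg h6]
          omega
    · intro v hv
      rw [key v, if_neg hv.ne, if_neg (hv.trans hk).ne]
      exact hG.2.1 v hv
    · intro x y hx hy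
      rw [addE_adj, addE_adj, remE_adj]
      rintro ((h | ⟨_, ⟨rfl, _⟩ | ⟨_, rfl⟩⟩) | ⟨_, ⟨rfl, _⟩ | ⟨_, rfl⟩⟩)
      · exact hG.2.2 x y hx hy h.1
      · exact lt_irrefl _ hx
      · exact lt_irrefl _ hy
      · exact lt_asymm hx hir
      · exact lt_asymm hy hir
  have h3 := hmax _ this
  rw [key r, if_pos rfl] at h3
  omega

theorem h3 (hb : Antitone b) (hG : Good b r G) (hr : dg G r < b r)
    (hmax : ∀ G', Good b r G' → dg G' r ≤ dg G r) (hH1 : ∀ i, i < r → G.Adj r i)
    {i j : Fin n} (hir : i < r) (hjr : j < r) (hij : i ≠ j) : G.Adj i j := by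
  by_contra hcon
  have hi := hG.2.1 i hir
  have hbi := hb hir.le
  have hj := hG.2.1 j hjr
  have hbj := hb hjr.le
  obtain ⟨u, hiu, hru, hur, hui⟩ := exists_private G (show dg G r < dg G i by omega)
  obtain ⟨w, hjw, hrw, hwr, hwj⟩ := exists_private G (show dg G r < dg G j by omega)
  have hru' : r < u := by
    rcases lt_trichotomy u r with h | h | h
    · exact absurd (hH1 u h) hru
    · exact absurd h hur
    · exact h
  have hrw' : r < w := by
    rcases lt_trichotomy w r with h | h | h
    · exact absurd (hH1 w h) hrw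
    · exact absurd h hwr
    · exact h
  have huj : u ≠ j := (hjr.trans hru').ne'
  have hwi : w ≠ i := (hir.trans hrw').ne'
  have g1 : (remE G i u).Adj j w := by
    rw [remE_adj]
    refine ⟨hjw, ?_⟩
    rintro (⟨h, _⟩ | ⟨h, _⟩)
    · exact hij h.symm
    · exact huj h.symm
  have g2 : ¬ (remE (remE G i u) j w).Adj r u := fun h => hru h.1.1
  have g3 : ¬ (addE (remE (remE G i u) j w) r u).Adj i j := by
    rw [addE_adj, remE_adj, remE_adj]
    rintro (h | ⟨_, ⟨h, _⟩ | ⟨h, _⟩⟩)
    · exact hcon h.1.1
    · exact hir.ne h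
    · exact hui h.symm
  have key : ∀ v, dg (addE (addE (remE (remE G i u) j w) r u) i j) v +
      (if v = w then 1 else 0) = dg G v + if v = r then 1 else 0 := by
    intro v
    have e1 := dg_rem G hiu v
    have e2 := dg_rem (remE G i u) g1 v
    have e3 := dg_add _ hur.symm g2 v
    have e4 := dg_add _ hij g3 v
    rw [e4, e3, ← e1, ← e2]
    by_cases c1 : v = r
    · simp [c1, hir.ne', hur.symm, hjr.ne', hwr.symm]
    · by_cases c2 : v = i
      · simp [c2, hir.ne, hui.symm, hij, hwi.symm]
      · by_cases c3 : v = j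
        · simp [c3, hjr.ne, huj.symm, hij.symm, hwj.symm]
        · have i1 : (if v = i ∨ v = u then 1 else 0) = (if v = u then 1 else 0 : ℕ) := by
            simp [c2]
          have i2 : (if v = j ∨ v = w then 1 else 0) = (if v = w then 1 else 0 : ℕ) := by
            simp [c3]
          have i3 : (if v = r ∨ v = u then 1 else 0) = (if v = u then 1 else 0 : ℕ) := by
            simp [c1]
          have i4 : (if v = i ∨ v = j then 1 else 0) = (0 : ℕ) := by
            simp [c2, c3]
          rw [i1, i2, i3, i4, if_neg c1]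
          omega
  have : Good b r (addE (addE (remE (remE G i u) j w) r u) i j) := by
    refine ⟨?_, ?_, ?_⟩
    · intro v
      have h3 := key v
      have h4 := hG.1 v
      by_cases h5 : v = r
      · rw [if_pos h5] at h3
        rw [h5] at h3 ⊢
        omega
      · rw [if_neg h5] at h3
        omega
    · intro v hv
      have h3 := key v
      have h4 := hG.2.1 v hv
      rw [if_neg (hv.trans hrw').ne, if_neg hv.ne] at h3
      omega
    · intro x y hx hy
      rw [addE_adj, addE_adj, remE_adj, remE_adj]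
      rintro ((h | ⟨_, ⟨rfl, _⟩ | ⟨_, rfl⟩⟩) | ⟨_, ⟨rfl, _⟩ | ⟨_, rfl⟩⟩)
      · exact hG.2.2 x y hx hy h.1.1
      · exact lt_irrefl _ hx
      · exact lt_irrefl _ hy
      · exact lt_asymm hx hir
      · exact lt_asymm hy hir
  have h3 := hmax _ this
  have h4 := key r
  rw [if_neg hrw'.ne, if_pos rfl] at h4
  omega

/-- deleting the edges after `r` -/
def cut (r : Fin n) (G : SimpleGraph (Fin n)) : SimpleGraph (Fin n) where
  Adj u v := G.Adj u v ∧ ¬ (r < u ∧ r < v)
  symm := ⟨fun u v h => ⟨h.1.symm, fun h2 => h.2 ⟨h2.2, h2.1⟩⟩⟩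
  loopless := ⟨fun u h => G.irrefl h.1⟩

theorem cut_le (G : SimpleGraph (Fin n)) (v : Fin n) : dg (cut r G) v ≤ dg G v := by
  apply card_le_card
  intro u hu
  rw [mem_nbr] at hu ⊢
  exact hu.1

theorem cut_eq (G : SimpleGraph (Fin n)) {v : Fin n} (hv : v ≤ r) : dg (cut r G) v = dg G v := by
  unfold dg
  congr 1
  ext u
  rw [mem_nbr, mem_nbr]
  constructor
  · exact fun h => h.1
  · exact fun h => ⟨h, fun h2 => absurd h2.1 (not_lt.2 hv)⟩

/-- the final count -/
theorem final (hG : Good b r G) (hr : dg G r < b r)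
    (hH1 : ∀ i, i < r → G.Adj r i)
    (hH2 : ∀ k, r < k → dg G k = min (b k) (r.1 + 1))
    (hH3 : ∀ i j, i < r → j < r → i ≠ j → G.Adj i j)
    (hEG : ∑ i ∈ Finset.Iic r, b i ≤ (r.1 + 1) * r.1 + ∑ k ∈ Finset.Ioi r, min (b k) (r.1 + 1)) :
    False := by
  classical
  have h1 : ∀ i ∈ Finset.Iic r, dg G i = r.1 + ∑ k ∈ Finset.Ioi r, if G.Adj i k then 1 else 0 := by
    intro i hi
    have h2 : nbr G i = (Finset.Iic r).erase i ∪ (Finset.Ioi r).filter (fun k => G.Adj i k) := by
      ext x
      rw [mem_nbr, mem_union, mem_erase, mem_Iic, mem_filter, mem_Ioi]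
      rw [mem_Iic] at hi
      constructor
      · intro h
        by_cases hx : x ≤ r
        · exact Or.inl ⟨h.ne', hx⟩
        · exact Or.inr ⟨not_le.1 hx, h⟩
      · rintro (⟨h3, h4⟩ | h3)
        · rcases lt_or_eq_of_le hi with h5 | h5
          · rcases lt_or_eq_of_le h4 with h6 | h6
            · exact hH3 i x h5 h6 h3.symm
            · rw [h6]
              exact (hH1 i h5).symm
          · rw [h5]
            exact hH1 x (lt_of_le_of_ne h4 (fun h6 => h3 (h6.trans h5.symm)))
        · exact h3.2
    unfold dg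
    rw [h2, card_union_of_disjoint, card_erase_of_mem hi, Fin.card_Iic, card_filter]
    · omega
    · rw [disjoint_left]
      intro x hx hx2
      rw [mem_erase, mem_Iic] at hx
      rw [mem_filter, mem_Ioi] at hx2
      exact absurd hx.2 (not_le.2 hx2.1)
  have h4 : ∑ i ∈ Finset.Iic r, dg G i = (r.1 + 1) * r.1 + ∑ k ∈ Finset.Ioi r, dg G k := by
    rw [Finset.sum_congr rfl h1, sum_add_distrib, sum_const, Fin.card_Iic, smul_eq_mul, sum_comm]
    congr 1
    apply Finset.sum_congr rfl
    intro k hk
    rw [← card_filter]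
    unfold dg
    congr 1
    ext x
    rw [mem_filter, mem_nbr]
    constructor
    · exact fun h => h.2.symm
    · intro h
      refine ⟨?_, h.symm⟩
      exact card_nbr_inter hG (mem_Ioi.1 hk) (mem_nbr.2 h)
  have h5 : ∑ k ∈ Finset.Ioi r, dg G k = ∑ k ∈ Finset.Ioi r, min (b k) (r.1 + 1) :=
    Finset.sum_congr rfl (fun k hk => hH2 k (mem_Ioi.1 hk))
  have h6 : ∑ i ∈ Finset.Iic r, dg G i < ∑ i ∈ Finset.Iic r, b i :=
    Finset.sum_lt_sum (fun i _ => hG.1 i) ⟨r, mem_Iic.2 le_rfl, hr⟩
  omega

theorem step (hb : Antitone b) (hev : Even (∑ i, b i))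
    (hEG : ∑ i ∈ Finset.Iic r, b i ≤ (r.1 + 1) * r.1 + ∑ k ∈ Finset.Ioi r, min (b k) (r.1 + 1))
    (G : SimpleGraph (Fin n)) (hG : ∀ i, dg G i ≤ b i) (hG2 : ∀ i, i < r → dg G i = b i) :
    ∃ G' : SimpleGraph (Fin n), (∀ i, dg G' i ≤ b i) ∧ (∀ i, i ≤ r → dg G' i = b i) := by
  classical
  have hne : (univ.filter (fun G' : SimpleGraph (Fin n) => Good b r G')).Nonempty := by
    refine ⟨cut r G, ?_⟩
    rw [mem_filter]
    refine ⟨mem_univ _, fun i => (cut_le G i).trans (hG i), fun i hi => ?_, ?_⟩
    · rw [cut_eq G hi.le]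
      exact hG2 i hi
    · intro i j hi hj h
      exact h.2 ⟨hi, hj⟩
  obtain ⟨H, hH, hmax⟩ := exists_max_image _ (fun G' => dg G' r) hne
  rw [mem_filter] at hH
  have hmax' : ∀ G', Good b r G' → dg G' r ≤ dg H r :=
    fun G' h => hmax G' (mem_filter.2 ⟨mem_univ _, h⟩)
  by_cases hr : dg H r < b r
  · exfalso
    have hH1 : ∀ i, i < r → H.Adj r i := fun i hi => h1 hb hev hH.2 hr hmax' hi
    exact final hH.2 hr hH1 (fun k hk => h2 hb hH.2 hr hmax' hH1 hk)
      (fun i j hi hj hij => h3 hb hH.2 hr hmax' hH1 hi hj hij) hEG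
  · refine ⟨H, hH.2.1, ?_⟩
    intro i hi
    rcases lt_or_eq_of_le hi with h | h
    · exact hH.2.2.1 i h
    · rw [h]
      exact le_antisymm (hH.2.1 r) (not_lt.1 hr)

end step

/-- **Erdos-Gallai**: a nonincreasing sequence with even sum satisfying the inequalities is the
degree sequence of a graph. -/
theorem erdosGallai {n : ℕ} (b : Fin n → ℕ) (hb : Antitone b) (hev : Even (∑ i, b i))
    (hEG : ∀ r : Fin n, ∑ i ∈ Finset.Iic r, b i ≤
      (r.1 + 1) * r.1 + ∑ k ∈ Finset.Ioi r, min (b k) (r.1 + 1)) :
    ∃ G : SimpleGraph (Fin n), ∀ i, dg G i = b i := by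
  have key : ∀ r : ℕ, r ≤ n → ∃ G : SimpleGraph (Fin n), (∀ i, dg G i ≤ b i) ∧
      ∀ i, i.1 < r → dg G i = b i := by
    intro r
    induction r with
    | zero =>
      intro _
      refine ⟨⊥, ?_, fun i hi => absurd hi (by omega)⟩
      intro i
      have : nbr (⊥ : SimpleGraph (Fin n)) i = ∅ := by
        ext x
        rw [mem_nbr]
        simp
      unfold dg
      rw [this, card_empty]
      exact Nat.zero_le _
    | succ r ih =>
      intro hr
      obtain ⟨G, h1, h2⟩ := ih (by omega)
      obtain ⟨G', h3, h4⟩ := step (r := ⟨r, by omega⟩) hb hev (hEG _) G h1 (fun i hi => h2 i hi)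
      exact ⟨G', h3, fun i hi => h4 i (by rw [Fin.le_def]; simp only; omega)⟩
  obtain ⟨G, _, h⟩ := key n le_rfl
  exact ⟨G, fun i => h i i.2⟩

end Pool.Agent.R798.EGdeg
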