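import Pool.Agent.R798.Inv

/-! # The change of the Casson invariant under a crossing change -/

set_option autoImplicit false

namespace Pool.Agent.R798

/-- Two crossings are interlaced. -/
def Adj (w : List Pass) (a b : ℕ) : Prop :=
  a ≠ b ∧ ((w.filter fun x => x.lab = a ∨ x.lab = b).map Pass.lab = [a, b, a, b] ∨
    (w.filter fun x => x.lab = a ∨ x.lab = b).map Pass.lab = [b, a, b, a])

instance (w : List Pass) (a b : ℕ) : Decidable (Adj w a b) := by unfold Adj; infer_instance

theorem Adj.symm {w : List Pass} {a b : ℕ} (h : Adj w a b) : Adj w b a := by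
  have e : (w.filter fun x => x.lab = b ∨ x.lab = a) = w.filter fun x => x.lab = a ∨ x.lab = b :=
    List.filter_congr fun x _ => by simp [or_comm]
  refine ⟨h.1.symm, ?_⟩
  rw [e]
  exact h.2.symm

theorem app3 {α : Type} {X Y Z : List α} {p q : α} (h : X ++ (Y ++ Z) = [p, q]) :
    (X = [] ∧ Y = [] ∧ Z = [p, q]) ∨ (X = [] ∧ Y = [p] ∧ Z = [q]) ∨ (X = [] ∧ Y = [p, q] ∧ Z = []) ∨
      (X = [p] ∧ Y = [] ∧ Z = [q]) ∨ (X = [p] ∧ Y = [q] ∧ Z = []) ∨
      (X = [p, q] ∧ Y = [] ∧ Z = []) := by
  rcases app2 h with ⟨h1, h2⟩ | ⟨h1, h2⟩ | ⟨h1, h2⟩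
  · rcases app2 h2 with ⟨h3, h4⟩ | ⟨h3, h4⟩ | ⟨h3, h4⟩ <;> simp [h1, h3, h4]
  · rcases Y with _ | ⟨y, Y⟩
    · simp at h2; simp [h1, h2]
    · simp at h2; simp [h1, h2]
  · simp at h2; simp [h1, h2]

theorem flip_pair (t t' : ℕ → Bool) {x : Pass} {A B C : List Pass} {b : ℕ} (hb : b ≠ x.lab)
    (ht : t' x.lab = !t x.lab) (ht' : t' b = t b)
    (hd : (A ++ x :: (B ++ x.flip :: C)).Nodup)
    (hf : ∀ y ∈ A ++ x :: (B ++ x.flip :: C), y.flip ∈ A ++ x :: (B ++ x.flip :: C)) :
    2 * ((pw x.lab b (two x.lab b ((A ++ x :: (B ++ x.flip :: C)).map (res t))) -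
        pw x.lab b (two x.lab b ((A ++ x :: (B ++ x.flip :: C)).map (res t')))) +
      (pw b x.lab (two b x.lab ((A ++ x :: (B ++ x.flip :: C)).map (res t))) -
        pw b x.lab (two b x.lab ((A ++ x :: (B ++ x.flip :: C)).map (res t'))))) =
      sg (t x.lab) * (if Adj (A ++ x :: (B ++ x.flip :: C)) x.lab b then sg (t b) else 0) +
      sg (t x.lab) * ((B.filter fun y => y.lab = b).map fun y => sg y.ori).sum := by
  obtain ⟨a, o⟩ := x
  simp only at hb ht
  have hp : (A ++ ⟨a, o⟩ :: (B ++ (⟨a, o⟩ : Pass).flip :: C)).Perm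
      (⟨a, o⟩ :: (⟨a, o⟩ : Pass).flip :: (A ++ (B ++ C))) := by
    refine List.perm_middle.trans ?_
    refine List.Perm.cons _ ?_
    rw [← List.append_assoc]
    refine List.perm_middle.trans ?_
    rw [List.append_assoc]
  have hfr : ∀ y ∈ A ++ (B ++ C), y.lab ≠ a := by
    intro y hy h
    have hn := hp.nodup_iff.1 hd
    rw [List.nodup_cons, List.nodup_cons] at hn
    rcases pass_eq_or (y := ⟨a, o⟩) h with rfl | rfl
    · exact hn.1 (List.mem_cons_of_mem _ hy)
    · exact hn.2.1 hy
  have hA : ∀ y ∈ A, y.lab ≠ a := fun y hy => hfr y (by simp [hy])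
  have hB : ∀ y ∈ B, y.lab ≠ a := fun y hy => hfr y (by simp [hy])
  have hC : ∀ y ∈ C, y.lab ≠ a := fun y hy => hfr y (by simp [hy])
  have eA : A.filter (fun y => y.lab = a ∨ y.lab = b) = A.filter (fun y => y.lab = b) :=
    List.filter_congr fun y hy => by simp [hA y hy]
  have eA' : A.filter (fun y => y.lab = b ∨ y.lab = a) = A.filter (fun y => y.lab = b) :=
    List.filter_congr fun y hy => by simp [hA y hy]
  have eB : B.filter (fun y => y.lab = a ∨ y.lab = b) = B.filter (fun y => y.lab = b) :=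
    List.filter_congr fun y hy => by simp [hB y hy]
  have eC : C.filter (fun y => y.lab = a ∨ y.lab = b) = C.filter (fun y => y.lab = b) :=
    List.filter_congr fun y hy => by simp [hC y hy]
  have eB' : B.filter (fun y => y.lab = b ∨ y.lab = a) = B.filter (fun y => y.lab = b) :=
    List.filter_congr fun y hy => by simp [hB y hy]
  have eC' : C.filter (fun y => y.lab = b ∨ y.lab = a) = C.filter (fun y => y.lab = b) :=
    List.filter_congr fun y hy => by simp [hC y hy]
  have hab : ¬ a = b := fun h => hb h.symm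
  unfold Adj
  rw [two_res, two_res, two_res, two_res]
  simp only [List.filter_cons, List.filter_append, eA, eA', eB, eC, eB', eC', Pass.flip_lab, true_or,
    or_true, decide_true, if_true]
  have h0 : A.filter (fun y => y.lab = b) ++ (B.filter (fun y => y.lab = b) ++
      C.filter (fun y => y.lab = b)) =
      (A ++ ⟨a, o⟩ :: (B ++ (⟨a, o⟩ : Pass).flip :: C)).filter (fun y => y.lab = b) := by
    simp [hab]
  rcases filter_form hd hf b with h | ⟨⟨c, o'⟩, hc, h⟩
  · rw [h, List.append_eq_nil_iff, List.append_eq_nil_iff] at h0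
    rw [h0.1, h0.2.1, h0.2.2]
    simp [pw, pat]
  · simp only at hc
    subst hc
    rw [h] at h0
    have k1 := pw_res (a := a) (b := c) o o' t
    have k2 := pw_res (a := c) (b := a) o' o t
    have k3 := pw_res (a := a) (b := c) o o' t'
    have k4 := pw_res (a := c) (b := a) o' o t'
    rcases app3 h0 with ⟨h1, h2, h3⟩ | ⟨h1, h2, h3⟩ | ⟨h1, h2, h3⟩ | ⟨h1, h2, h3⟩ | ⟨h1, h2, h3⟩ |
      ⟨h1, h2, h3⟩
    · rw [h1, h2, h3]
      rw [pw_zero (by simp [hb]), pw_zero (by simp [hb]), pw_zero (by simp [hb]), pw_zero (by simp [hb])]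
      simp [hb, hab]
    · rw [h1, h2, h3]
      simp only [Pass.flip, List.map_cons, List.map_nil, List.cons_append, List.nil_append]
      rw [k1, k3, pw_zero (by simp [hb]), pw_zero (by simp [hb]), ht, ht']
      simp only [ne_eq, hab, not_false_eq_true, true_and, true_or, if_true]
      cases o <;> cases o' <;> cases t a <;> cases t c <;> simp
    · rw [h1, h2, h3]
      rw [pw_zero (by simp [hb]), pw_zero (by simp [hb]), pw_zero (by simp [hb]), pw_zero (by simp [hb])]
      simp [hb, hab, Pass.flip]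
    · rw [h1, h2, h3]
      rw [pw_zero (by simp [hb]), pw_zero (by simp [hb]), pw_zero (by simp [hb]), pw_zero (by simp [hb])]
      simp [hb, hab]
    · rw [h1, h2, h3]
      simp only [Pass.flip, List.map_cons, List.map_nil, List.cons_append, List.nil_append]
      rw [k2, k4, pw_zero (by simp [hb]), pw_zero (by simp [hb]), ht, ht']
      simp only [ne_eq, hab, not_false_eq_true, true_and, or_true, if_true]
      cases o <;> cases o' <;> cases t a <;> cases t c <;> simp
    · rw [h1, h2, h3]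
      rw [pw_zero (by simp [hb]), pw_zero (by simp [hb]), pw_zero (by simp [hb]), pw_zero (by simp [hb])]
      simp [hb, hab]

/-- **The crossing change formula.** -/
theorem v2_flip (t t' : ℕ → Bool) {x : Pass} {A B C : List Pass} {S : Finset ℕ}
    (hw : IsPlaneCurve (A ++ x :: (B ++ x.flip :: C)))
    (hS : ∀ b, b ∈ S ↔ ∃ y ∈ A ++ x :: (B ++ x.flip :: C), y.lab = b)
    (ht : t' x.lab = !t x.lab) (ht' : ∀ b, b ≠ x.lab → t' b = t b) :
    2 * (v2 ((A ++ x :: (B ++ x.flip :: C)).map (res t)) -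
        v2 ((A ++ x :: (B ++ x.flip :: C)).map (res t'))) =
      sg (t x.lab) * ∑ b ∈ S, if Adj (A ++ x :: (B ++ x.flip :: C)) x.lab b then sg (t b) else 0 := by
  have hi := index_list hw
  obtain ⟨hd, hf, hE⟩ := hw
  have e1 : labels ((A ++ x :: (B ++ x.flip :: C)).map (res t)) ⊆ S := by
    intro b hb; rw [mem_labels_res] at hb; exact (hS b).2 hb
  have e2 : labels ((A ++ x :: (B ++ x.flip :: C)).map (res t')) ⊆ S := by
    intro b hb; rw [mem_labels_res] at hb; exact (hS b).2 hb
  have hxS : x.lab ∈ S := (hS _).2 ⟨x, by simp, rfl⟩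
  have hnot : ¬ Adj (A ++ x :: (B ++ x.flip :: C)) x.lab x.lab := fun h => h.1 rfl
  rw [v2_eq e1, v2_eq e2, sub_sum, cross_sum hxS, Finset.mul_sum,
    ← Finset.add_sum_erase S (fun b => if Adj (A ++ x :: (B ++ x.flip :: C)) x.lab b then sg (t b) else 0)
      hxS]
  · simp only [hnot, if_false, zero_add]
    rw [Finset.sum_congr rfl fun b hb =>
      flip_pair t t' (Finset.ne_of_mem_erase hb) ht (ht' b (Finset.ne_of_mem_erase hb)) hd hf,
      Finset.sum_add_distrib, ← Finset.mul_sum, ← Finset.mul_sum, sum_filter_lab, hi, mul_zero, add_zero]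
    intro y hy
    refine Finset.mem_erase.2 ⟨?_, (hS _).2 ⟨y, by simp [hy], rfl⟩⟩
    intro h
    have h1 := (List.nodup_append'.1 hd).2.1
    rw [List.nodup_cons, List.nodup_append'] at h1
    rcases pass_eq_or h with rfl | rfl
    · simp [hy] at h1
    · exact h1.2.2.2 hy List.mem_cons_self
  · intro a b ha hb
    rw [two_res, two_res, sub_eq_zero]
    congr 1
    refine List.map_congr_left fun y hy => ?_
    have hy' : y.lab ≠ x.lab := by
      have := (List.mem_filter.1 hy).2
      simp only [decide_eq_true_eq] at this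
      rcases this with h | h
      · rw [h]; exact ha
      · rw [h]; exact hb
    unfold res
    rw [ht' _ hy']
  · rw [pw_two_self t hd hf, pw_two_self t' hd hf, sub_self]

end Pool.Agent.R798
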