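import Pool.Agent.R798.V2

/-! # A large set of vertices in which each vertex has less than half of its neighbours -/

set_option autoImplicit false

namespace Pool.Agent.R798

/-- The number of ordered monochromatic edges. -/
def mono (V : Finset ℕ) (adj : ℕ → ℕ → Prop) [∀ a b, Decidable (adj a b)] (f : ℕ → Fin 3) : ℕ :=
  ∑ a ∈ V, ∑ b ∈ V, if adj a b ∧ f a = f b then 1 else 0

theorem graph_lemma (V : Finset ℕ) (adj : ℕ → ℕ → Prop) [∀ a b, Decidable (adj a b)]
    (hs : ∀ a b, adj a b → adj b a) (hi : ∀ a, ¬ adj a a)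
    (hn : ∀ v ∈ V, ∃ u ∈ V, adj v u) :
    ∃ U ⊆ V, V.card ≤ 3 * U.card ∧
      ∀ v ∈ U, 2 * (U.filter fun u => adj v u).card < (V.filter fun u => adj v u).card := by
  obtain ⟨f, hf⟩ : ∃ f : ℕ → Fin 3, ∀ g, mono V adj f ≤ mono V adj g := by
    obtain ⟨f, hf⟩ := Nat.sInf_mem (Set.range_nonempty (mono V adj))
    exact ⟨f, fun g => hf ▸ Nat.sInf_le ⟨g, rfl⟩⟩
  have key : ∀ v ∈ V, ∀ c : Fin 3, (V.filter fun u => adj v u ∧ f u = f v).card ≤
      (V.filter fun u => adj v u ∧ f u = c).card := by
    intro v hv c
    have h1 := hf (Function.update f v c)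
    set g := Function.update f v c with hg
    have gv : g v = c := by simp [hg]
    have gne : ∀ b, b ≠ v → g b = f b := fun b hb => by simp [hg, hb]
    have h2 : ((mono V adj g : ℕ) : ℤ) - ((mono V adj f : ℕ) : ℤ) =
        2 * ((((V.filter fun u => adj v u ∧ f u = c).card : ℕ) : ℤ) -
          (((V.filter fun u => adj v u ∧ f u = f v).card : ℕ) : ℤ)) := by
      have e1 : ∀ P : ℕ → Prop, [DecidablePred P] → (((V.filter P).card : ℕ) : ℤ) =
          ∑ b ∈ V, if P b then 1 else 0 := by
        intro P _
        simp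
      rw [e1, e1]
      unfold mono
      push_cast
      rw [← Finset.sum_sub_distrib]
      simp only [← Finset.sum_sub_distrib]
      rw [cross_sum hv]
      · rw [← Finset.add_sum_erase V (fun b => ((if adj v b ∧ f b = c then (1 : ℤ) else 0) -
          if adj v b ∧ f b = f v then 1 else 0)) hv]
        simp only [hi, false_and, if_false, sub_zero, zero_add]
        rw [Finset.mul_sum]
        refine Finset.sum_congr rfl fun b hb => ?_
        have hbv := Finset.ne_of_mem_erase hb
        have e2 : adj b v ↔ adj v b := ⟨hs _ _, hs _ _⟩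
        rw [gv, gne b hbv]
        simp only [e2, eq_comm (a := f v), eq_comm (a := c)]
        ring
      · intro a b ha hb
        rw [gne a ha, gne b hb, sub_self]
      · simp [hi]
    have h3 : ((mono V adj f : ℕ) : ℤ) ≤ ((mono V adj g : ℕ) : ℤ) := by exact_mod_cast h1
    have h4 : (((V.filter fun u => adj v u ∧ f u = f v).card : ℕ) : ℤ) ≤
        (((V.filter fun u => adj v u ∧ f u = c).card : ℕ) : ℤ) := by linarith
    exact_mod_cast h4
  have hdeg : ∀ v ∈ V, 3 * (V.filter fun u => adj v u ∧ f u = f v).card ≤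
      (V.filter fun u => adj v u).card := by
    intro v hv
    have h1 : (V.filter fun u => adj v u).card =
        ∑ c : Fin 3, (V.filter fun u => adj v u ∧ f u = c).card := by
      rw [Finset.card_eq_sum_card_fiberwise (f := f) (t := Finset.univ) (fun _ _ => Finset.mem_univ _)]
      refine Finset.sum_congr rfl fun c _ => ?_
      rw [Finset.filter_filter]
    rw [h1, Fin.sum_univ_three]
    have := key v hv 0
    have := key v hv 1
    have := key v hv 2
    omega
  obtain ⟨c, hc⟩ : ∃ c : Fin 3, V.card ≤ 3 * (V.filter fun u => f u = c).card := by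
    by_contra hcon
    push Not at hcon
    have h1 : V.card = ∑ c : Fin 3, (V.filter fun u => f u = c).card :=
      Finset.card_eq_sum_card_fiberwise (f := f) (t := Finset.univ) (fun _ _ => Finset.mem_univ _)
    rw [Fin.sum_univ_three] at h1
    have := hcon 0
    have := hcon 1
    have := hcon 2
    omega
  refine ⟨V.filter fun u => f u = c, Finset.filter_subset _ _, hc, ?_⟩
  intro v hv
  obtain ⟨hvV, hvc⟩ := Finset.mem_filter.1 hv
  have h1 := hdeg v hvV
  have h2 : ((V.filter fun u => f u = c).filter fun u => adj v u).card =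
      (V.filter fun u => adj v u ∧ f u = f v).card := by
    rw [Finset.filter_filter, hvc]
    simp only [and_comm]
  have h3 : 0 < (V.filter fun u => adj v u).card := by
    obtain ⟨u, hu, hvu⟩ := hn v hvV
    exact Finset.card_pos.2 ⟨u, Finset.mem_filter.2 ⟨hu, hvu⟩⟩
  omega

end Pool.Agent.R798
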