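import Pool.Agent.R798.EGdeg

set_option autoImplicit false

namespace Pool.Agent.R798.Imb

open Finset

section ineq

variable {V : Type} [Fintype V] [DecidableEq V] (G : SimpleGraph V) [DecidableRel G.Adj]

/-- the imbalance of a pair -/
def w (e : Sym2 V) : ℕ :=
  Sym2.lift ⟨fun u v => ((G.degree u : ℤ) - (G.degree v : ℤ)).natAbs, fun u v => by
    show ((G.degree u : ℤ) - (G.degree v : ℤ)).natAbs = ((G.degree v : ℤ) - (G.degree u : ℤ)).natAbs
    rw [← Int.natAbs_neg]
    congr 1
    ring⟩ e

theorem w_mk (u v : V) : w G s(u, v) = ((G.degree u : ℤ) - (G.degree v : ℤ)).natAbs := rfl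

variable {G}

/-- counting edges near a set of neighbours of `x` -/
theorem count_edges (x : V) (Y : Finset V) (hY : ∀ y ∈ Y, G.Adj x y) :
    ∑ y ∈ Y, (G.degree y - 1) ≤
      (G.edgeFinset.filter (fun f => x ∉ f ∧ ∃ y ∈ Y, y ∈ f)).card + Y.card.choose 2 := by
  classical
  set F := G.edgeFinset.filter (fun f => x ∉ f ∧ ∃ y ∈ Y, y ∈ f) with hF
  set P := Y.offDiag.image (fun p : V × V => s(p.1, p.2)) with hP
  have hPc : P.card = Y.card.choose 2 := by
    rw [hP]
    exact Sym2.card_image_offDiag Y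
  have h1 : ∀ y ∈ Y, G.degree y - 1 ≤ (F.filter (fun f => y ∈ f)).card := by
    intro y hy
    have hxy := hY y hy
    have e1 : G.degree y - 1 = ((G.neighborFinset y).erase x).card := by
      rw [card_erase_of_mem, SimpleGraph.card_neighborFinset_eq_degree]
      rw [SimpleGraph.mem_neighborFinset]
      exact hxy.symm
    rw [e1]
    refine card_le_card_of_injOn (fun z => s(y, z)) ?_ ?_
    · intro z hz
      simp only [coe_erase, SimpleGraph.coe_neighborFinset, Set.mem_sdiff,
        SimpleGraph.mem_neighborSet, Set.mem_singleton_iff] at hz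
      simp only [hF, coe_filter, mem_filter, SimpleGraph.mem_edgeFinset,
        SimpleGraph.mem_edgeSet, Sym2.mem_iff, Set.mem_ofPred_eq]
      refine ⟨⟨hz.1, ?_, y, hy, Or.inl rfl⟩, Or.inl trivial⟩
      rintro (h | h)
      · exact hxy.ne h
      · exact hz.2 h.symm
    · intro a _ c _ hac
      simp only [Sym2.eq_iff] at hac
      rcases hac with ⟨_, h⟩ | ⟨h2, h3⟩
      · exact h
      · rw [h3, ← h2]
  have h2 : ∀ f ∈ F, (Y.filter (fun y => y ∈ f)).card ≤ 1 + if f ∈ P then 1 else 0 := by
    intro f hf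
    induction f using Sym2.ind with
    | _ a c =>
      have hac : a ≠ c := by
        rw [hF, mem_filter, SimpleGraph.mem_edgeFinset, SimpleGraph.mem_edgeSet] at hf
        exact hf.1.ne
      by_cases hp : a ∈ Y ∧ c ∈ Y
      · have : s(a, c) ∈ P := by
          rw [hP, mem_image]
          exact ⟨(a, c), mem_offDiag.2 ⟨hp.1, hp.2, hac⟩, rfl⟩
        rw [if_pos this]
        have h3 : Y.filter (fun y => y ∈ s(a, c)) ⊆ {a, c} := by
          intro y hy
          rw [mem_filter, Sym2.mem_iff] at hy
          rw [mem_insert, mem_singleton]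
          exact hy.2
        exact (card_le_card h3).trans card_le_two
      · have h3 : (Y.filter (fun y => y ∈ s(a, c))).card ≤ 1 := by
          rw [card_le_one]
          intro u hu v hv
          rw [mem_filter, Sym2.mem_iff] at hu hv
          rcases hu with ⟨hu, rfl | rfl⟩ <;> rcases hv with ⟨hv, rfl | rfl⟩
          · rfl
          · exact absurd ⟨hu, hv⟩ hp
          · exact absurd ⟨hv, hu⟩ hp
          · rfl
        exact h3.trans (Nat.le_add_right _ _)
  calc ∑ y ∈ Y, (G.degree y - 1) ≤ ∑ y ∈ Y, (F.filter (fun f => y ∈ f)).card :=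
        Finset.sum_le_sum h1
    _ = ∑ f ∈ F, (Y.filter (fun y => y ∈ f)).card := by
        simp only [card_filter]
        rw [sum_comm]
    _ ≤ ∑ f ∈ F, (1 + if f ∈ P then 1 else 0) := Finset.sum_le_sum h2
    _ = F.card + (F.filter (fun f => f ∈ P)).card := by
        rw [sum_add_distrib, ← card_filter, ← card_eq_sum_ones]
    _ ≤ F.card + P.card := by
        apply Nat.add_le_add_left
        apply card_le_card
        intro f hf
        exact (mem_filter.1 hf).2
    _ = F.card + Y.card.choose 2 := by rw [hPc]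

/-- the arithmetic of the inequality -/
theorem arith (k t j o D : ℤ) (c W A S RHS : ℤ) (hk : 1 ≤ k) (ht : 1 ≤ t) (htk : t ≤ k)
    (hj : 0 ≤ j) (ho : 0 ≤ o) (hsum : t + j + o = D + 1) (hc : 2 * c = j * (j - 1))
    (hA : j * D - W ≤ A + c)
    (hS : W + k * o + (A - (k - t)) ≤ S) (hS0 : 0 ≤ S) (hR : RHS = k * (k - 1) + S) :
    k * D ≤ RHS := by
  rw [hR]
  rcases le_or_gt (2 * k) (2 * D - (j - 1)) with h | h
  · have h1 : 0 ≤ (k - 1) * (k - t) := mul_nonneg (by omega) (by omega)
    have h2 : 0 ≤ j * (2 * D - (j - 1) - 2 * k) := mul_nonneg hj (by omega)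
    have h3 : o = D + 1 - t - j := by omega
    rw [h3] at hS
    nlinarith
  · have hD : 2 * D ≤ 2 * k + j - 2 := by omega
    have hko : 0 ≤ k * o := mul_nonneg (by omega) ho
    rcases le_or_gt k j with h4 | h4
    · have h5 : 0 ≤ (j - k) * (D - j) := mul_nonneg (by omega) (by omega)
      nlinarith [sq_nonneg (j - k), mul_nonneg (show (0:ℤ) ≤ j - k by omega)
        (show (0:ℤ) ≤ j - k + 1 by omega), mul_nonneg (show (0:ℤ) ≤ k - 1 by omega)
        (show (0:ℤ) ≤ k - 1 by omega)]
    · rcases le_or_gt 2 j with h5 | h5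
      · have h6 : (k - j) * (2 * D) ≤ (k - j) * (2 * k + j - 2) :=
          mul_le_mul_of_nonneg_left hD (by omega)
        have h7 : 0 ≤ (k - 1) * (j - 2) := mul_nonneg (by omega) (by omega)
        nlinarith
      · have h6 : D ≤ k - 1 := by omega
        nlinarith

theorem ineq (T : Finset (Sym2 V)) (hT : T ⊆ G.edgeFinset)
    (hpos : ∀ f ∈ G.edgeFinset, 0 < w G f) {x v : V} (he : s(x, v) ∈ T) :
    T.card * (G.degree x - 1) ≤
      T.card * (T.card - 1) + ∑ f ∈ G.edgeFinset \ T, min (w G f) T.card := by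
  classical
  set k := T.card with hk
  set E := G.edgeFinset with hE
  have hk1 : 1 ≤ k := card_pos.2 ⟨_, he⟩
  set N := G.neighborFinset x with hN
  set Y := N.filter (fun y => s(x, y) ∉ T ∧ w G s(x, y) < k) with hY
  set O := N.filter (fun y => s(x, y) ∉ T ∧ ¬ w G s(x, y) < k) with hO
  set X := N.filter (fun y => s(x, y) ∈ T) with hX
  have hYN : ∀ y ∈ Y, G.Adj x y := fun y hy =>
    (SimpleGraph.mem_neighborFinset _ _ _).1 (mem_filter.1 hy).1
  have hinj : Function.Injective (fun y : V => s(x, y)) := by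
    intro a c hac
    simp only [Sym2.eq_iff] at hac
    rcases hac with ⟨_, h⟩ | ⟨h2, h3⟩
    · exact h
    · rw [h3, ← h2]
  -- the three classes of neighbours
  have hdeg : X.card + Y.card + O.card = G.degree x := by
    rw [← SimpleGraph.card_neighborFinset_eq_degree, ← hN]
    have e1 : X.card + (N.filter (fun y => s(x, y) ∉ T)).card = N.card :=
      card_filter_add_card_filter_not (s := N) (fun y => s(x, y) ∈ T)
    have e2 : (N.filter (fun y => s(x, y) ∉ T)).card = Y.card + O.card := by
      have e3 := card_filter_add_card_filter_not (s := N.filter (fun y => s(x, y) ∉ T))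
        (fun y => w G s(x, y) < k)
      rw [filter_filter, filter_filter] at e3
      rw [← e3]
    omega
  have hvX : v ∈ X := by
    rw [hX, mem_filter]
    refine ⟨?_, he⟩
    rw [hN, SimpleGraph.mem_neighborFinset]
    have := hT he
    rwa [hE, SimpleGraph.mem_edgeFinset, SimpleGraph.mem_edgeSet] at this
  have ht1 : 1 ≤ X.card := card_pos.2 ⟨v, hvX⟩
  have hXT : X.image (fun y => s(x, y)) ⊆ T := by
    intro f hf
    rw [mem_image] at hf
    obtain ⟨y, hy, rfl⟩ := hf
    exact (mem_filter.1 hy).2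
  have hXc : (X.image (fun y => s(x, y))).card = X.card := card_image_of_injective _ hinj
  have htk : X.card ≤ k := by
    rw [← hXc]
    exact card_le_card hXT
  set F := E.filter (fun f => x ∉ f ∧ ∃ y ∈ Y, y ∈ f) with hF
  have hcount : ∑ y ∈ Y, (G.degree y - 1) ≤ F.card + Y.card.choose 2 := count_edges x Y hYN
  -- edges of `T` in `F`
  have hFT : (F \ T).card + (k - X.card) ≥ F.card := by
    have e1 : (F ∩ T).card ≤ k - X.card := by
      rw [← hXc, ← card_sdiff_of_subset hXT]
      apply card_le_card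
      intro f hf
      rw [mem_inter, hF, mem_filter] at hf
      rw [mem_sdiff]
      refine ⟨hf.2, ?_⟩
      intro h
      rw [mem_image] at h
      obtain ⟨y, _, rfl⟩ := h
      exact hf.1.2.1 (Sym2.mem_mk_left _ _)
    have e2 := card_sdiff_add_card_inter F T
    omega
  -- the lower bound of the sum
  have hsum : ∑ y ∈ Y, w G s(x, y) + k * O.card + (F \ T).card ≤
      ∑ f ∈ E \ T, min (w G f) k := by
    have d1 : Disjoint (Y.image (fun y => s(x, y))) (O.image (fun y => s(x, y))) := by
      rw [disjoint_image hinj, disjoint_left]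
      intro y h1 h2
      exact (mem_filter.1 h2).2.2 (mem_filter.1 h1).2.2
    have d2 : Disjoint (Y.image (fun y => s(x, y)) ∪ O.image (fun y => s(x, y))) (F \ T) := by
      rw [disjoint_left]
      intro f h1 h2
      rw [mem_union, mem_image, mem_image] at h1
      rw [mem_sdiff, hF, mem_filter] at h2
      rcases h1 with ⟨y, _, rfl⟩ | ⟨y, _, rfl⟩ <;> exact h2.1.2.1 (Sym2.mem_mk_left _ _)
    have hsub : (Y.image (fun y => s(x, y)) ∪ O.image (fun y => s(x, y))) ∪ (F \ T) ⊆ E \ T := by
      intro f hf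
      rw [mem_union, mem_union, mem_image, mem_image] at hf
      rw [mem_sdiff]
      rcases hf with (⟨y, hy, rfl⟩ | ⟨y, hy, rfl⟩) | hf
      · refine ⟨?_, (mem_filter.1 hy).2.1⟩
        rw [hE, SimpleGraph.mem_edgeFinset, SimpleGraph.mem_edgeSet]
        exact hYN y hy
      · refine ⟨?_, (mem_filter.1 hy).2.1⟩
        rw [hE, SimpleGraph.mem_edgeFinset, SimpleGraph.mem_edgeSet]
        exact (SimpleGraph.mem_neighborFinset _ _ _).1 (mem_filter.1 hy).1
      · rw [mem_sdiff, hF, mem_filter] at hf
        exact ⟨hf.1.1, hf.2⟩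
    refine le_trans ?_ (Finset.sum_le_sum_of_subset hsub)
    rw [sum_union d2, sum_union d1, sum_image (fun a _ c _ h => hinj h),
      sum_image (fun a _ c _ h => hinj h)]
    refine Nat.add_le_add (Nat.add_le_add ?_ ?_) ?_
    · apply Finset.sum_le_sum
      intro y hy
      rw [min_eq_left (mem_filter.1 hy).2.2.le]
    · rw [Nat.mul_comm, ← smul_eq_mul]
      apply Finset.card_nsmul_le_sum
      intro y hy
      rw [min_eq_right (not_lt.1 (mem_filter.1 hy).2.2)]
    · rw [card_eq_sum_ones]
      apply Finset.sum_le_sum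
      intro f hf
      rw [mem_sdiff, hF, mem_filter] at hf
      have := hpos f hf.1.1
      omega
  -- degrees of the vertices of `Y`
  have hdY : ∀ y ∈ Y, G.degree x - 1 ≤ (G.degree y - 1) + w G s(x, y) := by
    intro y _
    rw [w_mk]
    omega
  have hdY' : Y.card * (G.degree x - 1) ≤ ∑ y ∈ Y, (G.degree y - 1) + ∑ y ∈ Y, w G s(x, y) := by
    rw [← sum_add_distrib, ← smul_eq_mul]
    exact Finset.card_nsmul_le_sum _ _ _ hdY
  have hdx : 1 ≤ G.degree x := by omega
  have hchoose : 2 * (Y.card.choose 2 : ℤ) = (Y.card : ℤ) * ((Y.card : ℤ) - 1) := by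
    have h1 : 2 * Y.card.choose 2 = Y.card * (Y.card - 1) := by
      rw [Nat.choose_two_right]
      exact Nat.mul_div_cancel' (Nat.even_mul_pred_self _).two_dvd
    rcases Nat.eq_zero_or_pos Y.card with h0 | h0
    · rw [h0]
      simp
    · have h2 : ((Y.card - 1 : ℕ) : ℤ) = (Y.card : ℤ) - 1 := by
        rw [Nat.cast_sub h0]
        simp
      rw [← h2]
      exact_mod_cast h1
  have hfin := arith (k : ℤ) (X.card : ℤ) (Y.card : ℤ) (O.card : ℤ) ((G.degree x - 1 : ℕ) : ℤ)
    (Y.card.choose 2 : ℤ) ((∑ y ∈ Y, w G s(x, y) : ℕ) : ℤ) (F.card : ℤ)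
    ((∑ f ∈ E \ T, min (w G f) k : ℕ) : ℤ)
    ((k : ℤ) * ((k : ℤ) - 1) + ((∑ f ∈ E \ T, min (w G f) k : ℕ) : ℤ))
    (by exact_mod_cast hk1) (by exact_mod_cast ht1) (by exact_mod_cast htk)
    (by positivity) (by positivity) (by push_cast [Nat.cast_sub hdx]; omega) hchoose
    (by
      have : Y.card * (G.degree x - 1) ≤ F.card + Y.card.choose 2 + ∑ y ∈ Y, w G s(x, y) := by
        omega
      zify at this
      push_cast at this ⊢
      linarith)
    (by
      have h1 : ((F \ T).card : ℤ) ≥ (F.card : ℤ) - ((k : ℤ) - (X.card : ℤ)) := by omega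
      have h2 : ((∑ y ∈ Y, w G s(x, y) : ℕ) : ℤ) + (k : ℤ) * (O.card : ℤ) + ((F \ T).card : ℤ) ≤
          ((∑ f ∈ E \ T, min (w G f) k : ℕ) : ℤ) := by exact_mod_cast hsum
      linarith)
    (by positivity) rfl
  have h1 : ((k * (k - 1) : ℕ) : ℤ) = (k : ℤ) * ((k : ℤ) - 1) := by
    push_cast [Nat.cast_sub hk1]
    ring
  rw [← h1] at hfin
  exact_mod_cast hfin

theorem degree_pos_of_adj {x v : V} (h : G.Adj x v) : 1 ≤ G.degree v := by
  rw [← SimpleGraph.card_neighborFinset_eq_degree]
  exact card_pos.2 ⟨x, (SimpleGraph.mem_neighborFinset _ _ _).2 h.symm⟩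

/-- the inequality with the largest imbalance of `T` -/
theorem ineq_max (T : Finset (Sym2 V)) (hT : T ⊆ G.edgeFinset)
    (hpos : ∀ f ∈ G.edgeFinset, 0 < w G f) {e : Sym2 V} (he : e ∈ T) :
    T.card * w G e ≤
      T.card * (T.card - 1) + ∑ f ∈ G.edgeFinset \ T, min (w G f) T.card := by
  have key : ∀ x v : V, s(x, v) ∈ T → G.degree v < G.degree x →
      T.card * w G s(x, v) ≤
      T.card * (T.card - 1) + ∑ f ∈ G.edgeFinset \ T, min (w G f) T.card := by
    intro x v hxv hlt
    refine le_trans (Nat.mul_le_mul_left _ ?_) (ineq T hT hpos hxv)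
    have h1 := hT hxv
    rw [SimpleGraph.mem_edgeFinset, SimpleGraph.mem_edgeSet] at h1
    have h2 := degree_pos_of_adj h1
    rw [w_mk]
    omega
  induction e using Sym2.ind with
  | _ a c =>
    have h1 := hpos _ (hT he)
    rw [w_mk] at h1
    rcases Nat.lt_trichotomy (G.degree a) (G.degree c) with h | h | h
    · rw [Sym2.eq_swap] at he ⊢
      exact key c a he h
    · omega
    · exact key a c he h

theorem even_sum : Even (∑ f ∈ G.edgeFinset, w G f) := by
  classical
  have h1 : ∀ f ∈ G.edgeFinset,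
      Even (w G f + ∑ v : V, if v ∈ f then G.degree v else 0) := by
    intro f hf
    induction f using Sym2.ind with
    | _ a c =>
      rw [SimpleGraph.mem_edgeFinset, SimpleGraph.mem_edgeSet] at hf
      have h2 : (∑ v : V, if v ∈ s(a, c) then G.degree v else 0) = G.degree a + G.degree c := by
        rw [← sum_filter]
        have h3 : univ.filter (fun v => v ∈ s(a, c)) = {a, c} := by
          ext v
          simp
        rw [h3, sum_pair hf.ne]
      rw [h2, w_mk, Nat.even_iff]
      omega
  have h2 : Even (∑ f ∈ G.edgeFinset, (w G f + ∑ v : V, if v ∈ f then G.degree v else 0)) :=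
    Finset.even_sum _ h1
  rw [sum_add_distrib, Nat.even_add] at h2
  rw [h2, sum_comm]
  have h3 : ∀ v : V, (∑ f ∈ G.edgeFinset, if v ∈ f then G.degree v else 0) =
      G.degree v * G.degree v := by
    intro v
    rw [← sum_filter, sum_const, smul_eq_mul]
    congr 1
    rw [← SimpleGraph.card_incidenceFinset_eq_degree, SimpleGraph.incidenceFinset_eq_filter]
  simp only [h3]
  have h4 : Even (∑ v : V, (G.degree v * G.degree v + G.degree v)) :=
    Finset.even_sum _ (fun v _ => by
      have := Nat.even_mul_succ_self (G.degree v)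
      rwa [Nat.mul_succ] at this)
  rw [sum_add_distrib, Nat.even_add] at h4
  rw [h4, SimpleGraph.sum_degrees_eq_twice_card_edges]
  exact even_two_mul _

theorem main (hpos : ∀ f ∈ G.edgeFinset, 0 < w G f) :
    ∃ (n : ℕ) (H : SimpleGraph (Fin n)),
      (univ : Finset (Fin n)).val.map (fun i => EGdeg.dg H i) = G.edgeFinset.val.map (w G) := by
  classical
  set E := G.edgeFinset with hE
  set m := E.card with hm
  let e0 : Fin m ≃ E := E.equivFin.symm
  let g : Fin m → ℕᵒᵈ := fun i => OrderDual.toDual (w G (e0 i).1)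
  let e : Fin m ≃ E := (Tuple.sort g).trans e0
  let b : Fin m → ℕ := fun i => w G (e i).1
  have hb : Antitone b := by
    intro i j hij
    have := Tuple.monotone_sort g hij
    exact this
  have hinj : Function.Injective (fun i : Fin m => ((e i).1 : Sym2 V)) :=
    Subtype.val_injective.comp e.injective
  have hval : (univ : Finset (Fin m)).val.map b = E.val.map (w G) := by
    have h1 : (univ : Finset (Fin m)).val.map e = (univ : Finset E).val :=
      Multiset.map_univ_val_equiv e
    have h2 : (univ : Finset E).val.map (fun x => w G x.1) = E.val.map (w G) := by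
      have h3 : (univ : Finset E).val = E.attach.val := rfl
      rw [h3]
      have h4 : E.attach.val = E.val.attach := rfl
      rw [h4]
      exact Multiset.attach_map_val' E.val (w G)
    rw [← h2, ← h1, Multiset.map_map]
    rfl
  have hev : Even (∑ i, b i) := by
    have h1 : ∑ i, b i = ∑ f ∈ E, w G f := by
      show ((univ : Finset (Fin m)).val.map b).sum = (E.val.map (w G)).sum
      rw [hval]
    rw [h1]
    exact even_sum
  have hEG : ∀ r : Fin m, ∑ i ∈ Finset.Iic r, b i ≤
      (r.1 + 1) * r.1 + ∑ k ∈ Finset.Ioi r, min (b k) (r.1 + 1) := by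
    intro r
    set T : Finset (Sym2 V) := (Finset.Iic r).image (fun i : Fin m => ((e i).1 : Sym2 V)) with hT
    have hTc : T.card = r.1 + 1 := by
      rw [hT, card_image_of_injective _ hinj, Fin.card_Iic]
    have hTE : T ⊆ E := by
      intro f hf
      rw [hT, mem_image] at hf
      obtain ⟨i, _, rfl⟩ := hf
      exact (e i).2
    have hsd : E \ T = (Finset.Ioi r).image (fun i : Fin m => ((e i).1 : Sym2 V)) := by
      ext f
      rw [mem_sdiff, hT, mem_image, mem_image]
      constructor
      · rintro ⟨h1, h2⟩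
        refine ⟨e.symm ⟨f, h1⟩, ?_, by simp⟩
        rw [mem_Ioi]
        by_contra h3
        exact h2 ⟨e.symm ⟨f, h1⟩, mem_Iic.2 (not_lt.1 h3), by simp⟩
      · rintro ⟨i, hi, rfl⟩
        refine ⟨(e i).2, ?_⟩
        rintro ⟨j, hj, hji⟩
        have := hinj hji
        rw [this] at hj
        exact absurd (mem_Iic.1 hj) (not_le.2 (mem_Ioi.1 hi))
    have hm0 : 0 < m := by
      have := r.2
      omega
    have h0 : ((e ⟨0, hm0⟩).1 : Sym2 V) ∈ T := by
      rw [hT, mem_image]
      exact ⟨⟨0, hm0⟩, mem_Iic.2 (by rw [Fin.le_def]; exact Nat.zero_le _), rfl⟩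
    have h1 := ineq_max T hTE hpos h0
    rw [hTc, ← hE, hsd, sum_image (fun a _ c _ h => hinj h)] at h1
    have h2 : ∑ i ∈ Finset.Iic r, b i ≤ (r.1 + 1) * b ⟨0, hm0⟩ := by
      have h3 := Finset.sum_le_card_nsmul (Finset.Iic r) b (b ⟨0, hm0⟩)
        (fun i _ => hb (by rw [Fin.le_def]; exact Nat.zero_le _))
      rwa [Fin.card_Iic, smul_eq_mul] at h3
    exact h2.trans h1
  obtain ⟨H, hH⟩ := EGdeg.erdosGallai b hb hev hEG
  refine ⟨m, H, ?_⟩
  rw [← hval]
  congr 1
  funext i
  exact hH i

end ineq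

end Pool.Agent.R798.Imb
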