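import Pool.Agent.R798.Defs

/-! # Between the two passages through a double point the crossings balance -/

set_option autoImplicit false

namespace Pool.Agent.R798

@[simp] theorem Pass.flip_flip (x : Pass) : x.flip.flip = x := by
  cases x; simp [Pass.flip]
@[simp] theorem Pass.flip_lab (x : Pass) : x.flip.lab = x.lab := rfl
@[simp] theorem Pass.flip_ori (x : Pass) : x.flip.ori = !x.ori := rfl
theorem Pass.flip_ne (x : Pass) : x.flip ≠ x := by
  intro h
  have := congrArg Pass.ori h
  simp at this

/-- The sign of a passage. -/
def sg (b : Bool) : ℤ := if b then 1 else -1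

@[simp] theorem sg_true : sg true = 1 := rfl
@[simp] theorem sg_false : sg false = -1 := rfl
@[simp] theorem sg_not (b : Bool) : sg (!b) = -sg b := by cases b <;> rfl

theorem prev_val {n : ℕ} (k : Fin n) : (prev k : Fin n).val = if k.val = 0 then n - 1 else k.val - 1 := by
  obtain ⟨k, hk⟩ := k
  unfold prev
  have h : (finRotate n) ⟨if k = 0 then n - 1 else k - 1, by split_ifs <;> omega⟩ = ⟨k, hk⟩ := by
    cases n with
    | zero => omega
    | succ n =>
      by_cases h0 : k = 0
      · subst h0
        simp only [if_true]
        have := finRotate_last (n := n)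
        simpa [Fin.last] using this
      · simp only [h0, if_false]
        have hk' : k - 1 < n := by omega
        rw [finRotate_of_lt hk']
        ext
        simp
        omega
  have h2 : (finRotate n).symm ⟨k, hk⟩ = ⟨if k = 0 then n - 1 else k - 1, by split_ifs <;> omega⟩ := by
    rw [← h, Equiv.symm_apply_apply]
  rw [h2]

section

variable {w : List Pass} (hd : w.Nodup) (hf : ∀ x ∈ w, x.flip ∈ w)

include hf in
theorem exists_mate (k : Fin w.length) : ∃ m : Fin w.length, w[m] = w[k].flip := by
  have h := hf w[k] (List.getElem_mem _)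
  obtain ⟨i, hi, h⟩ := List.getElem_of_mem h
  exact ⟨⟨i, hi⟩, h⟩

/-- The other passage. -/
noncomputable def mate (k : Fin w.length) : Fin w.length := (exists_mate hf k).choose

theorem mate_spec (k : Fin w.length) : w[mate hf k] = w[k].flip := (exists_mate hf k).choose_spec

include hd in
theorem get_inj {i j : Fin w.length} (h : w[i] = w[j]) : i = j := by
  have := List.nodup_iff_injective_get.1 hd
  exact this h

include hd in
theorem mate_mate (k : Fin w.length) : mate hf (mate hf k) = k := by
  apply get_inj hd
  rw [mate_spec, mate_spec, Pass.flip_flip]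

/-- The involution. -/
noncomputable def mateE : Fin w.length ≃ Fin w.length where
  toFun := mate hf
  invFun := mate hf
  left_inv := mate_mate hd hf
  right_inv := mate_mate hd hf

theorem mate_ori (k : Fin w.length) : (w[mate hf k]).ori = !(w[k]).ori := by
  rw [mate_spec]; rfl

/-- The difference between the left and the right side of the edges. -/
noncomputable def δ (w : List Pass) : (Quot (Turn w) → ℚ) →ₗ[ℚ] (Fin w.length → ℚ) where
  toFun h i := h (Quot.mk _ (i, true)) - h (Quot.mk _ (i, false))
  map_add' h h' := by ext i; simp; ring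
  map_smul' c h := by ext i; simp; ring

/-- Flows. -/
def Z : Submodule ℚ (Fin w.length → ℚ) where
  carrier := {f | ∀ k, f k - f (prev k) + (f (mate hf k) - f (prev (mate hf k))) = 0}
  add_mem' := by
    intro f g h1 h2 k
    have e1 := h1 k
    have e2 := h2 k
    simp only [Pi.add_apply]
    linarith
  zero_mem' := by intro k; simp
  smul_mem' := by
    intro c f h k
    have e := h k
    simp only [Pi.smul_apply, smul_eq_mul]
    linear_combination c * e

variable (h : Quot (Turn w) → ℚ)

theorem turn1 {k : Fin w.length} (ho : (w[k]).ori = true) :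
    h (Quot.mk _ (prev k, true)) = h (Quot.mk _ (mate hf k, true)) :=
  congrArg h (Quot.sound (Turn.aheadLeft k _ (mate_spec hf k) ho))

theorem turn2 {k : Fin w.length} (ho : (w[k]).ori = false) :
    h (Quot.mk _ (prev k, true)) = h (Quot.mk _ (prev (mate hf k), false)) :=
  congrArg h (Quot.sound (Turn.aheadRight k _ (mate_spec hf k) ho))

theorem turn3 {k : Fin w.length} (ho : (w[k]).ori = true) :
    h (Quot.mk _ (k, false)) = h (Quot.mk _ (prev (mate hf k), false)) :=
  congrArg h (Quot.sound (Turn.backLeft k _ (mate_spec hf k) ho))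

theorem turn4 {k : Fin w.length} (ho : (w[k]).ori = false) :
    h (Quot.mk _ (k, false)) = h (Quot.mk _ (mate hf k, true)) :=
  congrArg h (Quot.sound (Turn.backRight k _ (mate_spec hf k) ho))

include hd in
theorem range_le : LinearMap.range (δ w) ≤ Z hf := by
  rintro _ ⟨h, rfl⟩ k
  have key : ∀ k : Fin w.length, (w[k]).ori = true →
      δ w h k - δ w h (prev k) + (δ w h (mate hf k) - δ w h (prev (mate hf k))) = 0 := by
    intro k ho
    have ho' : (w[mate hf k]).ori = false := by rw [mate_ori, ho]; rfl
    have e1 := turn1 hf h ho
    have e3 := turn3 hf h ho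
    have e2 := turn2 hf h ho'
    have e4 := turn4 hf h ho'
    rw [mate_mate hd hf] at e2 e4
    show (h _ - h _) - (h _ - h _) + ((h _ - h _) - (h _ - h _)) = 0
    linarith
  cases ho : (w[k]).ori with
  | true => exact key k ho
  | false =>
    have ho' : (w[mate hf k]).ori = true := by rw [mate_ori, ho]; rfl
    have := key _ ho'
    rw [mate_mate hd hf] at this
    linarith

/-- A function that does not change along the curve is constant. -/
theorem const_of_prev {n : ℕ} {u : Fin n → ℚ} (h : ∀ k, u k = u (prev k)) (i j : Fin n) :
    u i = u j := by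
  have key : ∀ (m : ℕ) (hm : m < n), u ⟨m, hm⟩ = u ⟨0, by omega⟩ := by
    intro m
    induction m with
    | zero => intro _; rfl
    | succ m ih =>
      intro hm
      rw [h ⟨m + 1, hm⟩, ← ih (by omega)]
      congr 1
      ext
      rw [prev_val]
      simp
  rw [key i.1 i.2, key j.1 j.2]

include hd hf in
theorem finrank_ker : Module.finrank ℚ (LinearMap.ker (δ w)) ≤ 1 := by
  rcases Nat.eq_zero_or_pos w.length with h0 | h0
  · have : IsEmpty (Fin w.length) := by rw [h0]; infer_instance
    have : IsEmpty (Quot (Turn w)) := by
      refine ⟨fun q => ?_⟩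
      induction q using Quot.ind with
      | mk d => exact IsEmpty.false d.1
    have : Subsingleton (LinearMap.ker (δ w)) := by
      constructor
      intro a b
      ext q
      exact (IsEmpty.false q).elim
    rw [Module.finrank_zero_of_subsingleton]
    omega
  · let i0 : Fin w.length := ⟨0, h0⟩
    let ev : LinearMap.ker (δ w) →ₗ[ℚ] ℚ :=
      { toFun := fun h => h.1 (Quot.mk _ (i0, true))
        map_add' := fun _ _ => rfl
        map_smul' := fun _ _ => rfl }
    have hinj : Function.Injective ev := by
      rw [← LinearMap.ker_eq_bot, LinearMap.ker_eq_bot']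
      rintro ⟨h, hh⟩ h1
      have h1' : h (Quot.mk _ (i0, true)) = 0 := h1
      have h2 : ∀ i, h (Quot.mk _ (i, true)) = h (Quot.mk _ (i, false)) := by
        intro i
        have := congrFun (LinearMap.mem_ker.1 hh) i
        have : h (Quot.mk _ (i, true)) - h (Quot.mk _ (i, false)) = 0 := this
        linarith
      have h3 : ∀ k, h (Quot.mk _ (k, true)) = h (Quot.mk _ (prev k, true)) := by
        intro k
        cases ho : (w[k]).ori with
        | true =>
          have ho' : (w[mate hf k]).ori = false := by rw [mate_ori, ho]; rfl
          have e3 := turn3 hf h ho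
          have e2 := turn2 hf h ho'
          rw [mate_mate hd hf] at e2
          rw [h2 k, h2 (prev k), e3, ← e2, h2]
        | false =>
          have ho' : (w[mate hf k]).ori = true := by rw [mate_ori, ho]; rfl
          have e1 := turn1 hf h ho'
          have e2 := turn2 hf h ho
          rw [mate_mate hd hf] at e1
          rw [← e1, e2, h2]
      have h4 : ∀ i, h (Quot.mk _ (i, true)) = 0 := by
        intro i
        rw [const_of_prev (u := fun i => h (Quot.mk _ (i, true))) h3 i i0, h1']
      ext q
      induction q using Quot.ind with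
      | mk d =>
        obtain ⟨i, b⟩ := d
        cases b with
        | true => exact h4 i
        | false => exact (h2 i).symm.trans (h4 i)
    have := LinearMap.finrank_le_finrank_of_injective hinj
    rwa [Module.finrank_self] at this

/-- Places where the other branch crosses from right to left. -/
abbrev Ups (w : List Pass) : Type := {k : Fin w.length // (w[k]).ori = true}

include hd hf in
theorem card_ups : 2 * Fintype.card (Ups w) = w.length := by
  have h1 : Fintype.card (Ups w) = Fintype.card {k : Fin w.length // ¬ (w[k]).ori = true} := by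
    refine Fintype.card_congr ⟨fun k => ⟨mate hf k.1, ?_⟩, fun k => ⟨mate hf k.1, ?_⟩, ?_, ?_⟩
    · rw [mate_ori, k.2]; simp
    · rw [mate_ori]
      have := k.2
      simpa using this
    · intro k; ext1; exact mate_mate hd hf _
    · intro k; ext1; exact mate_mate hd hf _
  have h2 := Fintype.card_subtype_compl (fun k : Fin w.length => (w[k]).ori = true)
  have h3 := Fintype.card_subtype_le (fun k : Fin w.length => (w[k]).ori = true)
  rw [Fintype.card_fin] at h2 h3
  have h1' : Fintype.card (Ups w) = w.length - Fintype.card (Ups w) := by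
    have h1'' := h1.trans h2
    exact h1''
  have h3' : Fintype.card (Ups w) ≤ w.length := h3
  omega

include hd in
theorem finrank_Z : 2 * Module.finrank ℚ (Z hf) ≤ w.length + 2 := by
  rcases Nat.eq_zero_or_pos w.length with h0 | h0
  · have : IsEmpty (Fin w.length) := by rw [h0]; infer_instance
    have : Subsingleton (Z hf) := by
      constructor
      intro a b
      ext q
      exact (IsEmpty.false q).elim
    rw [Module.finrank_zero_of_subsingleton]
    omega
  · let i0 : Fin w.length := ⟨0, h0⟩
    let J : Z hf →ₗ[ℚ] (ℚ × (Ups w → ℚ)) :=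
      { toFun := fun f => (f.1 i0, fun k => f.1 k.1 - f.1 (prev k.1))
        map_add' := by intro f g; ext <;> simp; ring
        map_smul' := by intro c f; ext <;> simp; ring }
    have hinj : Function.Injective J := by
      rw [← LinearMap.ker_eq_bot, LinearMap.ker_eq_bot']
      rintro ⟨f, hfZ⟩ h1
      have h2 : f i0 = 0 := congrArg Prod.fst h1
      have h3 : ∀ k : Fin w.length, (w[k]).ori = true → f k - f (prev k) = 0 := by
        intro k hk
        exact congrFun (congrArg Prod.snd h1) ⟨k, hk⟩
      have h4 : ∀ k : Fin w.length, f k = f (prev k) := by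
        intro k
        cases ho : (w[k]).ori with
        | true => linarith [h3 k ho]
        | false =>
          have ho' : (w[mate hf k]).ori = true := by rw [mate_ori, ho]; rfl
          have e := hfZ k
          linarith [h3 _ ho']
      ext i
      show f i = 0
      rw [const_of_prev h4 i i0, h2]
    have h5 := LinearMap.finrank_le_finrank_of_injective hinj
    rw [Module.finrank_prod, Module.finrank_self, Module.finrank_fintype_fun_eq_card] at h5
    have h6 := card_ups hd hf
    omega

include hd in
theorem range_eq (hw : 2 * faces w = w.length + 4) : LinearMap.range (δ w) = Z hf := by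
  classical
  have hfin : Finite (Quot (Turn w)) := Quot.finite _
  have := Fintype.ofFinite (Quot (Turn w))
  have h1 := LinearMap.finrank_range_add_finrank_ker (δ w)
  rw [Module.finrank_fintype_fun_eq_card, ← Nat.card_eq_fintype_card] at h1
  have h1' : Module.finrank ℚ (LinearMap.range (δ w)) + Module.finrank ℚ (LinearMap.ker (δ w)) =
      faces w := h1
  have h2 := finrank_ker hd hf
  have h3 := finrank_Z hd hf
  refine Submodule.eq_of_le_of_finrank_le (range_le hd hf) ?_
  omega

/-- The indicator function of a loop. -/
def loop {n : ℕ} (a b : Fin n) (i : Fin n) : ℚ := if a ≤ i ∧ i < b then 1 else 0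

theorem loop_prev {n : ℕ} {a b : Fin n} (k : Fin n) :
    loop a b (prev k) = if a < k ∧ k ≤ b then 1 else 0 := by
  unfold loop
  congr 1
  simp only [Fin.le_def, Fin.lt_def, prev_val, eq_iff_iff]
  have := k.2
  have := b.2
  split_ifs <;> omega

theorem loop_jump {n : ℕ} {a b : Fin n} (hab : a < b) (k : Fin n) :
    loop a b k - loop a b (prev k) = if k = a then 1 else if k = b then -1 else 0 := by
  rw [loop_prev]
  unfold loop
  simp only [Fin.le_def, Fin.lt_def, Fin.ext_iff] at *
  split_ifs <;> first | omega | norm_num

include hd in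
theorem loop_mem {a b : Fin w.length} (hab : a < b) (hm : w[b] = w[a].flip) :
    loop a b ∈ Z hf := by
  have hb : mate hf a = b := get_inj hd (by rw [mate_spec, hm])
  have ha : mate hf b = a := by rw [← hb, mate_mate hd hf]
  intro k
  rw [loop_jump hab, loop_jump hab]
  have hne : a ≠ b := ne_of_lt hab
  by_cases h1 : k = a
  · subst h1
    rw [hb]
    simp [hne.symm]
  · by_cases h2 : k = b
    · subst h2
      rw [ha]
      simp [hne.symm]
    · have h3 : mate hf k ≠ a := by
        intro h
        apply h2
        rw [← mate_mate hd hf k, h, hb]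
      have h4 : mate hf k ≠ b := by
        intro h
        apply h1
        rw [← mate_mate hd hf k, h, ha]
      simp [h1, h2, h3, h4]

include hd hf in
/-- **The crossings on a loop balance.** -/
theorem index_sum (hw : 2 * faces w = w.length + 4) {a b : Fin w.length} (hab : a < b)
    (hm : w[b] = w[a].flip) : ∑ k ∈ Finset.Ioo a b, sg (w[k]).ori = 0 := by
  have hmem := loop_mem hd hf hab hm
  rw [← range_eq hd hf hw] at hmem
  obtain ⟨h, hh⟩ := hmem
  have hh' : ∀ i, h (Quot.mk _ (i, true)) - h (Quot.mk _ (i, false)) = loop a b i :=
    fun i => congrFun hh i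
  have step : ∀ k : Fin w.length, h (Quot.mk _ (k, true)) - h (Quot.mk _ (prev k, true)) =
      if (w[k]).ori = true then -loop a b (mate hf k) else loop a b (prev (mate hf k)) := by
    intro k
    cases ho : (w[k]).ori with
    | true =>
      have ho' : (w[mate hf k]).ori = false := by rw [mate_ori, ho]; rfl
      have e1 := turn1 hf h ho
      have e4 := turn4 hf h ho'
      rw [mate_mate hd hf] at e4
      rw [if_pos rfl, ← hh', e1, ← e4]
      ring
    | false =>
      have ho' : (w[mate hf k]).ori = true := by rw [mate_ori, ho]; rfl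
      have e2 := turn2 hf h ho
      have e1 := turn1 hf h ho'
      rw [mate_mate hd hf] at e1
      rw [if_neg (by simp), ← hh', e2, ← e1]
  have h1 : ∑ k : Fin w.length, (h (Quot.mk _ (k, true)) - h (Quot.mk _ (prev k, true))) = 0 := by
    rw [Finset.sum_sub_distrib, sub_eq_zero]
    exact (Equiv.sum_comp (finRotate w.length).symm (fun k => h (Quot.mk _ (k, true)))).symm
  rw [Finset.sum_congr rfl (fun k _ => step k)] at h1
  have h2 : ∑ k : Fin w.length, (if (w[k]).ori = true then loop a b (prev k) else -loop a b k) = 0 := by
    rw [← h1, ← Equiv.sum_comp (mateE hd hf)]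
    refine Finset.sum_congr rfl fun k _ => ?_
    show (if (w[mate hf k]).ori = true then _ else _) = _
    rw [mate_ori]
    cases (w[k]).ori <;> simp [mateE]
  have h3 : ∀ k : Fin w.length, (if (w[k]).ori = true then loop a b (prev k) else -loop a b k) =
      (if k ∈ Finset.Ioo a b then ((sg (w[k]).ori : ℤ) : ℚ) else 0) +
        ((if k = a then (if (w[k]).ori = true then 0 else -1) else 0) +
        (if k = b then (if (w[k]).ori = true then 1 else 0) else 0)) := by
    intro k
    rw [loop_prev]
    unfold loop
    simp only [Finset.mem_Ioo]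
    by_cases e1 : k = a
    · subst e1
      have : ¬ k = b := ne_of_lt hab
      cases (w[k]).ori <;> simp [hab, this]
    · by_cases e2 : k = b
      · subst e2
        cases (w[k]).ori <;> simp [hab, e1]
      · have e3 : (a ≤ k ∧ k < b) ↔ (a < k ∧ k < b) :=
          ⟨fun h => ⟨lt_of_le_of_ne h.1 (Ne.symm e1), h.2⟩, fun h => ⟨h.1.le, h.2⟩⟩
        have e4 : (a < k ∧ k ≤ b) ↔ (a < k ∧ k < b) :=
          ⟨fun h => ⟨h.1, lt_of_le_of_ne h.2 e2⟩, fun h => ⟨h.1, h.2.le⟩⟩
        rw [if_congr e3 rfl rfl, if_congr e4 rfl rfl]
        cases (w[k]).ori <;> by_cases e5 : a < k ∧ k < b <;> simp [e1, e2, e5]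
  rw [Finset.sum_congr rfl (fun k _ => h3 k), Finset.sum_add_distrib, Finset.sum_add_distrib,
    Finset.sum_ite_eq' Finset.univ a, Finset.sum_ite_eq' Finset.univ b, ← Finset.sum_filter] at h2
  simp only [Finset.mem_univ, if_true] at h2
  have h4 : (w[b]).ori = !(w[a]).ori := by rw [hm]; rfl
  rw [h4] at h2
  have h5 : (if (w[a]).ori = true then (0 : ℚ) else -1) + (if (!(w[a]).ori) = true then 1 else 0) = 0 := by
    cases (w[a]).ori <;> simp
  rw [h5, add_zero] at h2
  have h6 : Finset.univ.filter (fun k => k ∈ Finset.Ioo a b) = Finset.Ioo a b := by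
    ext k; simp
  rw [h6] at h2
  exact_mod_cast h2

end

/-- The list form of `index_sum`. -/
theorem index_list {A B C : List Pass} {x : Pass}
    (hw : IsPlaneCurve (A ++ x :: (B ++ x.flip :: C))) : (B.map fun y => sg y.ori).sum = 0 := by
  obtain ⟨hd, hf, hE⟩ := hw
  have hE' : 2 * faces (A ++ x :: (B ++ x.flip :: C)) = (A ++ x :: (B ++ x.flip :: C)).length + 4 := by
    rcases hE with h | h
    · simp at h
    · exact h
  generalize hW : A ++ x :: (B ++ x.flip :: C) = w at hd hf hE'
  have hlen : w.length = A.length + 1 + B.length + 1 + C.length := by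
    rw [← hW]; simp; omega
  have ha : w[A.length]'(by omega) = x := by simp [← hW]
  have hb : w[A.length + 1 + B.length]'(by omega) = x.flip := by
    simp [← hW, add_assoc, add_comm 1]
  have hB : ∀ i (hi : i < B.length), w[A.length + 1 + i]'(by omega) = B[i] := by
    intro i hi
    simp [← hW, add_assoc, add_comm 1, hi]
  have key := index_sum hd hf hE' (a := ⟨A.length, by omega⟩) (b := ⟨A.length + 1 + B.length, by omega⟩)
    (by simp only [Fin.lt_def]; omega) (by
      show w[A.length + 1 + B.length]'_ = (w[A.length]'_).flip
      rw [ha, hb])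
  rw [← Fin.sum_univ_fun_getElem, ← key]
  refine Finset.sum_bij (fun i _ => ⟨A.length + 1 + i.1, by have := i.2; omega⟩) ?_ ?_ ?_ ?_
  · intro i _
    rw [Finset.mem_Ioo]
    have := i.2
    simp only [Fin.lt_def]
    omega
  · intro i _ j _ h
    simp only [Fin.mk.injEq] at h
    ext
    omega
  · intro k hk
    rw [Finset.mem_Ioo] at hk
    simp only [Fin.lt_def] at hk
    refine ⟨⟨k.1 - (A.length + 1), by omega⟩, Finset.mem_univ _, ?_⟩
    ext
    simp only
    omega
  · intro i _
    show sg (B[i.1]).ori = sg (w[A.length + 1 + i.1]'_).ori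
    rw [hB]

end Pool.Agent.R798
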