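import Pool.Agent.R798.V2

/-! # The invariance of the Casson invariant under the moves -/

set_option autoImplicit false

namespace Pool.Agent.R798

theorem mem_labels {D : List Letter} {b : ℕ} : b ∈ labels D ↔ ∃ x ∈ D, x.lab = b := by
  simp [labels]

theorem mem_labels_res {w : List Pass} {t : ℕ → Bool} {b : ℕ} :
    b ∈ labels (w.map (res t)) ↔ ∃ x ∈ w, x.lab = b := by
  simp [labels]

theorem pw_two_self {w : List Pass} (t : ℕ → Bool) (hd : w.Nodup) (hf : ∀ x ∈ w, x.flip ∈ w) (a : ℕ) :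
    pw a a (two a a (w.map (res t))) = 0 := by
  rw [two_res]
  simp only [or_self]
  rcases filter_form hd hf a with h | ⟨z, _, h⟩ <;> rw [h] <;> exact pw_zero (by simp)

theorem sub_sum {S : Finset ℕ} (f g : ℕ → ℕ → ℤ) :
    ∑ a ∈ S, ∑ b ∈ S, f a b - ∑ a ∈ S, ∑ b ∈ S, g a b = ∑ a ∈ S, ∑ b ∈ S, (f a b - g a b) := by
  rw [← Finset.sum_sub_distrib]
  exact Finset.sum_congr rfl fun a _ => (Finset.sum_sub_distrib _ _).symm

/-- Invariance under a change of the starting point. -/
theorem v2_start {x : Letter} {L : List Letter} (hD : IsDiagram (x :: L)) :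
    v2 (x :: L) = v2 (L ++ [x]) := by
  obtain ⟨t, ht⟩ := exists_res hD
  obtain ⟨w, hw⟩ : ∃ w, w = curve (x :: L) := ⟨_, rfl⟩
  have hw' : w = x.pass :: curve L := hw
  obtain ⟨B, C, hBC⟩ : ∃ B C, curve L = B ++ x.pass.flip :: C := by
    have h1 : x.pass.flip ∈ curve (x :: L) := hD.2.2.1 _ List.mem_cons_self
    have h2 : x.pass.flip ∈ curve L := by
      rcases List.mem_cons.1 h1 with h | h
      · exact absurd h (Pass.flip_ne _)
      · exact h
    exact List.append_of_mem h2
  have hwp : IsPlaneCurve w := hw ▸ hD.2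
  rw [hw', hBC] at hwp
  rw [← hw, hw', hBC, List.map_cons, List.cons.injEq] at ht
  obtain ⟨ht1, ht2⟩ := ht
  have hx : x :: L = (x.pass :: (B ++ x.pass.flip :: C)).map (res t) := by
    rw [List.map_cons, ← ht1, ← ht2]
  have hx' : L ++ [x] = ((B ++ x.pass.flip :: C) ++ [x.pass]).map (res t) := by
    rw [List.map_append, List.map_cons (l := []), List.map_nil, ← ht1, ← ht2]
  rw [hx, hx']
  generalize x.pass = p at *
  obtain ⟨hd, hf, hE⟩ := hwp
  have hS : labels ((B ++ p.flip :: C ++ [p]).map (res t)) ⊆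
      labels ((p :: (B ++ p.flip :: C)).map (res t)) := by
    intro b hb
    rw [mem_labels_res] at hb ⊢
    obtain ⟨y, hy, hb⟩ := hb
    refine ⟨y, ?_, hb⟩
    simp only [List.mem_append, List.mem_cons, List.not_mem_nil, or_false] at hy ⊢
    tauto
  rw [← sub_eq_zero, v2_eq (subset_refl (labels ((p :: (B ++ p.flip :: C)).map (res t)))), v2_eq hS,
    sub_sum, cross_sum (c := p.lab)]
  · rw [Finset.sum_congr rfl fun b hb => start_pair t (Finset.ne_of_mem_erase hb) hd hf,
      ← Finset.mul_sum, sum_filter_lab, index_list (A := []) ⟨hd, hf, hE⟩, mul_zero]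
    intro y hy
    refine Finset.mem_erase.2 ⟨?_, mem_labels_res.2 ⟨y, by simp [hy], rfl⟩⟩
    intro h
    rcases pass_eq_or h with rfl | rfl
    · simp [hy] at hd
    · have : ¬ List.Disjoint B (p.flip :: C) := fun h => h hy List.mem_cons_self
      rw [List.nodup_cons, List.nodup_append'] at hd
      exact this hd.2.2.2
  · exact mem_labels_res.2 ⟨p, by simp, rfl⟩
  · intro a b ha hb
    have e : two a b ((p :: (B ++ p.flip :: C)).map (res t)) =
        two a b (((B ++ p.flip :: C) ++ [p]).map (res t)) := by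
      rw [two_res, two_res]
      simp [ha.symm, hb.symm]
    rw [e, sub_self]
  · rw [pw_two_self t hd hf, pw_two_self, sub_self]
    · rw [List.nodup_append_comm]
      exact hd
    · intro y hy
      have := hf y (by
        simp only [List.mem_append, List.mem_cons, List.not_mem_nil, or_false] at hy ⊢
        tauto)
      simp only [List.mem_append, List.mem_cons, List.not_mem_nil, or_false] at this ⊢
      tauto

theorem sum_bool_comm (f : Bool → Bool → ℤ) : ∑ s : Bool, ∑ t : Bool, f s t = ∑ s : Bool, ∑ t : Bool, f t s :=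
  Finset.sum_comm

theorem pw_reverse (a b : ℕ) (l : List Letter) : pw a b l.reverse = pw b a l := by
  unfold pw
  rw [sum_bool_comm]
  refine Finset.sum_congr rfl fun s _ => Finset.sum_congr rfl fun t _ => ?_
  have : l.reverse = pat a b t s ↔ l = pat b a s t := by
    rw [List.reverse_eq_iff]
    rfl
  rw [if_congr this rfl rfl, mul_comm]

theorem v2_reverse (L : List Letter) : v2 L.reverse = v2 L := by
  have h : labels L.reverse ⊆ labels L := by
    intro b; rw [mem_labels, mem_labels]; simp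
  rw [v2_eq h, v2, Finset.sum_comm]
  refine Finset.sum_congr rfl fun a _ => Finset.sum_congr rfl fun b _ => ?_
  have : two b a L.reverse = (two a b L).reverse := by
    unfold two
    rw [← List.filter_reverse]
    refine List.filter_congr fun x _ => ?_
    simp [or_comm]
  rw [this, pw_reverse]

theorem map_inj_on {α β : Type} {g : α → β} : ∀ {l l' : List α},
    (∀ x ∈ l, ∀ y ∈ l', g x = g y → x = y) → l.map g = l'.map g → l = l'
  | [], [], _, _ => rfl
  | [], y :: l', _, h => by simp at h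
  | x :: l, [], _, h => by simp at h
  | x :: l, y :: l', hg, h => by
    rw [List.map_cons, List.map_cons, List.cons.injEq] at h
    rw [hg x List.mem_cons_self y List.mem_cons_self h.1,
      map_inj_on (fun x hx y hy => hg x (List.mem_cons_of_mem _ hx) y (List.mem_cons_of_mem _ hy)) h.2]

theorem v2_rename {f : ℕ → ℕ} {L : List Letter}
    (hf : ∀ x ∈ L, ∀ y ∈ L, f x.lab = f y.lab → x.lab = y.lab) :
    v2 (L.map fun x => ⟨f x.lab, x.upper, x.pos⟩) = v2 L := by
  have hinj : Set.InjOn f (labels L) := by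
    intro a ha b hb h
    obtain ⟨x, hx, rfl⟩ := mem_labels.1 (Finset.mem_coe.1 ha)
    obtain ⟨y, hy, rfl⟩ := mem_labels.1 (Finset.mem_coe.1 hb)
    exact hf x hx y hy h
  have hl : labels (L.map fun x => (⟨f x.lab, x.upper, x.pos⟩ : Letter)) = (labels L).image f := by
    ext b
    simp [labels]
  unfold v2
  rw [hl, Finset.sum_image hinj]
  refine Finset.sum_congr rfl fun a ha => ?_
  rw [Finset.sum_image hinj]
  refine Finset.sum_congr rfl fun b hb => ?_
  have e : two (f a) (f b) (L.map fun x => (⟨f x.lab, x.upper, x.pos⟩ : Letter)) =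
      (two a b L).map fun x => ⟨f x.lab, x.upper, x.pos⟩ := by
    unfold two
    rw [List.filter_map]
    congr 1
    refine List.filter_congr fun x hx => ?_
    have hx' : x.lab ∈ labels L := mem_labels.2 ⟨x, hx, rfl⟩
    have e1 : f x.lab = f a ↔ x.lab = a := ⟨fun h => hinj hx' ha h, fun h => by rw [h]⟩
    have e2 : f x.lab = f b ↔ x.lab = b := ⟨fun h => hinj hx' hb h, fun h => by rw [h]⟩
    simp [e1, e2]
  rw [e]
  unfold pw
  refine Finset.sum_congr rfl fun s _ => Finset.sum_congr rfl fun t _ => ?_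
  refine if_congr ?_ rfl rfl
  constructor
  · intro h
    refine map_inj_on (g := fun x : Letter => (⟨f x.lab, x.upper, x.pos⟩ : Letter)) ?_ h
    intro x hx y hy h
    simp only [Letter.mk.injEq] at h
    have hx1 : x.lab ∈ labels L := mem_labels.2 ⟨x, List.mem_of_mem_filter hx, rfl⟩
    have hy1 : y.lab ∈ labels L := by
      simp only [pat, List.mem_cons, List.not_mem_nil, or_false] at hy
      rcases hy with rfl | rfl | rfl | rfl
      exacts [ha, hb, ha, hb]
    have h1 := hinj hx1 hy1 h.1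
    obtain ⟨xl, xu, xp⟩ := x
    obtain ⟨yl, yu, yp⟩ := y
    simp only at h h1
    rw [h1, h.2.1, h.2.2]
  · intro h
    rw [h]
    rfl

theorem fresh {a : ℕ} {o s : Bool} {L : List Letter}
    (h : (curve (⟨a, o, s⟩ :: ⟨a, !o, s⟩ :: L)).Nodup) : ∀ y ∈ L, y.lab ≠ a := by
  intro y hy hya
  have h1 : y.pass ∈ curve L := List.mem_map_of_mem hy
  have h2 : y.pass = (⟨a, o, s⟩ : Letter).pass ∨ y.pass = (⟨a, !o, s⟩ : Letter).pass := by
    obtain ⟨yl, yu, yp⟩ := y
    simp only at hya
    subst hya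
    unfold Letter.pass
    cases o <;> cases s <;> cases yu <;> cases yp <;> simp
  unfold curve at h h1
  rw [List.map_cons, List.map_cons, List.nodup_cons, List.nodup_cons] at h
  rcases h2 with h2 | h2
  · exact h.1 (h2 ▸ List.mem_cons_of_mem _ h1)
  · exact h.2.1 (h2 ▸ h1)

theorem two_fresh {a c d : ℕ} {L : List Letter} (h : ∀ y ∈ L, y.lab ≠ a) (hc : c = a ∨ d = a) :
    pw c d (two c d L) = 0 := by
  have ha : a ∉ labels L := by
    rw [mem_labels]
    rintro ⟨y, hy, rfl⟩
    exact h y hy rfl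
  rcases hc with rfl | rfl
  · exact two_left ha
  · exact two_right ha

theorem v2_first {a : ℕ} {o s : Bool} {L : List Letter}
    (h : (curve (⟨a, o, s⟩ :: ⟨a, !o, s⟩ :: L)).Nodup) :
    v2 L = v2 (⟨a, o, s⟩ :: ⟨a, !o, s⟩ :: L) := by
  have hfr := fresh h
  have hS : labels L ⊆ labels (⟨a, o, s⟩ :: ⟨a, !o, s⟩ :: L) := by
    intro b hb
    rw [mem_labels] at hb ⊢
    obtain ⟨x, hx, hb⟩ := hb
    exact ⟨x, by simp [hx], hb⟩
  rw [v2_eq hS, v2]
  refine Finset.sum_congr rfl fun c _ => Finset.sum_congr rfl fun d _ => ?_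
  by_cases hc : c = a
  · rw [two_fresh hfr (Or.inl hc)]
    by_cases hd : d = a
    · have : two c d (⟨a, o, s⟩ :: ⟨a, !o, s⟩ :: L) = [⟨a, o, s⟩, ⟨a, !o, s⟩] := by
        unfold two
        subst hc
        subst hd
        simp only [or_self, List.filter_cons, decide_true, if_true, List.cons.injEq, true_and]
        rw [List.filter_eq_nil_iff]
        intro y hy
        simpa using hfr y hy
      rw [this]
      exact (pw_zero (by simp)).symm
    · refine (pw_zero ?_).symm
      subst hc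
      simp [two, Ne.symm hd]
  · by_cases hd : d = a
    · rw [two_fresh hfr (Or.inr hd)]
      refine (pw_zero ?_).symm
      subst hd
      simp [two, Ne.symm hc]
    · have : two c d (⟨a, o, s⟩ :: ⟨a, !o, s⟩ :: L) = two c d L := by
        simp [two, Ne.symm hc, Ne.symm hd]
      rw [this]

theorem pw_upper {a b : ℕ} {x : Letter} {l : List Letter} (h : x.upper = true) :
    pw a b (x :: l) = 0 := pw_zero' (by simp [h])

theorem third_zero {a b p q : ℕ} (sp sq d : Bool) (R : List Letter)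
    (h : a = p ∨ a = q ∨ b = p ∨ b = q) :
    pw a b (two a b (seg d ⟨p, true, sp⟩ ⟨q, true, sq⟩ ++ R)) = 0 := by
  have key : ∀ (p q : ℕ) (sp sq : Bool), (a = p ∨ a = q ∨ b = p ∨ b = q) →
      pw a b (two a b (⟨p, true, sp⟩ :: ⟨q, true, sq⟩ :: R)) = 0 := by
    intro p q sp sq h
    unfold two
    by_cases h1 : p = a ∨ p = b
    · rw [List.filter_cons_of_pos (by simpa using h1)]
      exact pw_upper rfl
    · rw [List.filter_cons_of_neg (by simpa using h1), List.filter_cons_of_pos]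
      · exact pw_upper rfl
      · simp only [decide_eq_true_eq]
        rcases h with h | h | h | h
        · exact absurd (Or.inl h.symm) h1
        · exact Or.inl h.symm
        · exact absurd (Or.inr h.symm) h1
        · exact Or.inr h.symm
  cases d
  · exact key q p sq sp (by tauto)
  · exact key p q sp sq h

theorem labels_append (X Y : List Letter) : labels (X ++ Y) = labels X ∪ labels Y := by
  simp [labels]

theorem labels_seg (d : Bool) (x y : Letter) : labels (seg (!d) x y) = labels (seg d x y) := by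
  cases d <;> simp [labels, seg, Finset.pair_comm]

theorem two_append (a b : ℕ) (X Y : List Letter) : two a b (X ++ Y) = two a b X ++ two a b Y := by
  simp [two]

theorem filter_swap {α : Type} (F : α → Bool) {x y : α} (h : ¬ (F x = true ∧ F y = true)) :
    [x, y].filter F = [y, x].filter F := by
  cases hx : F x <;> cases hy : F y
  · simp [hx, hy]
  · simp [hx, hy]
  · simp [hx, hy]
  · exact absurd ⟨hx, hy⟩ h

theorem two_seg {a b : ℕ} {x y : Letter} (d : Bool)
    (h : ¬ ((x.lab = a ∨ x.lab = b) ∧ (y.lab = a ∨ y.lab = b))) :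
    two a b (seg (!d) x y) = two a b (seg d x y) := by
  have key := filter_swap (fun z : Letter => decide (z.lab = a ∨ z.lab = b)) (x := x) (y := y)
    (by simpa only [decide_eq_true_eq] using h)
  cases d
  · exact key
  · exact key.symm

theorem v2_third₁ (p q r : ℕ) (sp sq sr dT dM dB : Bool) (X Y Z : List Letter) :
    v2 (seg dT ⟨p, true, sp⟩ ⟨q, true, sq⟩ ++ X ++ seg dM ⟨p, false, sp⟩ ⟨r, true, sr⟩ ++ Y ++
          seg dB ⟨q, false, sq⟩ ⟨r, false, sr⟩ ++ Z) =
    v2 (seg (!dT) ⟨p, true, sp⟩ ⟨q, true, sq⟩ ++ X ++ seg (!dM) ⟨p, false, sp⟩ ⟨r, true, sr⟩ ++ Y ++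
          seg (!dB) ⟨q, false, sq⟩ ⟨r, false, sr⟩ ++ Z) := by
  unfold v2
  simp only [labels_append, labels_seg]
  refine Finset.sum_congr rfl fun a _ => Finset.sum_congr rfl fun b _ => ?_
  by_cases h : a = p ∨ a = q ∨ b = p ∨ b = q
  · simp only [List.append_assoc]
    rw [third_zero _ _ _ _ h, third_zero _ _ _ _ h]
  · simp only [two_append]
    rw [two_seg dT (by simp only; tauto), two_seg dM (by simp only; tauto),
      two_seg dB (by simp only; tauto)]

theorem v2_third₂ (p q r : ℕ) (sp sq sr dT dM dB : Bool) (X Y Z : List Letter) :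
    v2 (seg dT ⟨p, true, sp⟩ ⟨q, true, sq⟩ ++ X ++ seg dB ⟨q, false, sq⟩ ⟨r, false, sr⟩ ++ Y ++
          seg dM ⟨p, false, sp⟩ ⟨r, true, sr⟩ ++ Z) =
    v2 (seg (!dT) ⟨p, true, sp⟩ ⟨q, true, sq⟩ ++ X ++ seg (!dB) ⟨q, false, sq⟩ ⟨r, false, sr⟩ ++ Y ++
          seg (!dM) ⟨p, false, sp⟩ ⟨r, true, sr⟩ ++ Z) := by
  unfold v2
  simp only [labels_append, labels_seg]
  refine Finset.sum_congr rfl fun a _ => Finset.sum_congr rfl fun b _ => ?_
  by_cases h : a = p ∨ a = q ∨ b = p ∨ b = q
  · simp only [List.append_assoc]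
    rw [third_zero _ _ _ _ h, third_zero _ _ _ _ h]
  · simp only [two_append]
    rw [two_seg dT (by simp only; tauto), two_seg dM (by simp only; tauto),
      two_seg dB (by simp only; tauto)]

theorem perm_second₁ (a b : ℕ) (o s : Bool) (X Y : List Letter) :
    (⟨a, o, s⟩ :: ⟨b, o, !s⟩ :: (X ++ ⟨a, !o, s⟩ :: ⟨b, !o, !s⟩ :: Y) : List Letter).Perm
      (⟨a, o, s⟩ :: ⟨a, !o, s⟩ :: ⟨b, o, !s⟩ :: ⟨b, !o, !s⟩ :: (X ++ Y)) := by
  refine List.Perm.cons _ ?_
  refine ((List.perm_middle.cons _).trans (List.Perm.swap _ _ _)).trans ?_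
  exact (List.perm_middle.cons _).cons _

theorem perm_second₂ (a b : ℕ) (o s : Bool) (X Y : List Letter) :
    (⟨a, o, s⟩ :: ⟨b, o, !s⟩ :: (X ++ ⟨b, !o, !s⟩ :: ⟨a, !o, s⟩ :: Y) : List Letter).Perm
      (⟨a, o, s⟩ :: ⟨a, !o, s⟩ :: ⟨b, o, !s⟩ :: ⟨b, !o, !s⟩ :: (X ++ Y)) := by
  refine List.Perm.trans ?_ (perm_second₁ a b o s X Y)
  exact ((List.Perm.append_left X (List.Perm.swap _ _ _)).cons _).cons _

theorem second_fresh {a b : ℕ} {o s : Bool} {X Y E : List Letter} (hE : (curve E).Nodup)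
    (hp : E.Perm (⟨a, o, s⟩ :: ⟨a, !o, s⟩ :: ⟨b, o, !s⟩ :: ⟨b, !o, !s⟩ :: (X ++ Y))) :
    (∀ y ∈ X ++ Y, y.lab ≠ a) ∧ (∀ y ∈ X ++ Y, y.lab ≠ b) ∧ a ≠ b := by
  have h1 : (curve (⟨a, o, s⟩ :: ⟨a, !o, s⟩ :: ⟨b, o, !s⟩ :: ⟨b, !o, !s⟩ :: (X ++ Y))).Nodup :=
    (hp.map Letter.pass).nodup_iff.1 hE
  have h2 := fresh h1
  have h3 : (curve (⟨b, o, !s⟩ :: ⟨b, !o, !s⟩ :: (X ++ Y))).Nodup := by
    unfold curve at h1 ⊢
    exact (List.nodup_cons.1 (List.nodup_cons.1 h1).2).2
  exact ⟨fun y hy => h2 y (by simp [hy]), fresh h3, fun h => h2 ⟨b, o, !s⟩ (by simp) h.symm⟩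

/-- The common part of the two cases of the second Reidemeister move. -/
theorem second_aux {a b : ℕ} {D E : List Letter} (ha : ∀ y ∈ D, y.lab ≠ a) (hb : ∀ y ∈ D, y.lab ≠ b)
    (hab : a ≠ b) (haE : a ∈ labels E) (hbE : b ∈ labels E) (hDE : labels D ⊆ labels E)
    (h1 : ∀ c d, c ≠ a → c ≠ b → d ≠ a → d ≠ b → two c d E = two c d D)
    (h2 : ∀ c d, c ≠ a → c ≠ b → d = a ∨ d = b → pw c d (two c d E) = 0)
    (h3 : ∀ c d, c = a ∨ c = b → d = a ∨ d = b → pw c d (two c d E) = 0)
    (h4 : ∀ d, d ≠ a → d ≠ b → pw a d (two a d E) + pw b d (two b d E) = 0) : v2 D = v2 E := by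
  symm
  rw [← sub_eq_zero, v2_eq (subset_refl (labels E)), v2_eq hDE, sub_sum, Finset.sum_comm]
  refine Finset.sum_eq_zero fun d _ => ?_
  have hsub : ({a, b} : Finset ℕ) ⊆ labels E := by
    intro c hc
    simp only [Finset.mem_insert, Finset.mem_singleton] at hc
    rcases hc with rfl | rfl <;> assumption
  rw [← Finset.sum_subset hsub, Finset.sum_pair hab, two_fresh ha (Or.inl rfl), two_fresh hb (Or.inl rfl),
    sub_zero, sub_zero]
  · by_cases hd : d = a ∨ d = b
    · rw [h3 a d (Or.inl rfl) hd, h3 b d (Or.inr rfl) hd, add_zero]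
    · exact h4 d (fun h => hd (Or.inl h)) (fun h => hd (Or.inr h))
  · intro c _ hc
    simp only [Finset.mem_insert, Finset.mem_singleton, not_or] at hc
    by_cases hd : d = a ∨ d = b
    · rw [h2 c d hc.1 hc.2 hd]
      rcases hd with rfl | rfl
      · rw [two_fresh ha (Or.inr rfl), sub_self]
      · rw [two_fresh hb (Or.inr rfl), sub_self]
    · rw [not_or] at hd
      rw [h1 c d hc.1 hc.2 hd.1 hd.2, sub_self]

theorem pw_head {a b : ℕ} {x : Letter} {l : List Letter} (h : x.lab ≠ a) : pw a b (x :: l) = 0 :=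
  pw_zero (by simp [h])

theorem pw_opp {a b d : ℕ} {o s : Bool} {P Q : List Letter} (had : a ≠ d) (hbd : b ≠ d)
    (hP : ∀ x ∈ P, x.lab = d) (hQ : ∀ x ∈ Q, x.lab = d) :
    pw a d (⟨a, o, s⟩ :: (P ++ ⟨a, !o, s⟩ :: Q)) + pw b d (⟨b, o, !s⟩ :: (P ++ ⟨b, !o, !s⟩ :: Q)) = 0 := by
  rcases P with _ | ⟨y, _ | ⟨z, P⟩⟩
  · rw [pw_zero, pw_zero, add_zero]
    · simp [hbd]
    · simp [had]
  · have hy : y.lab = d := hP y (by simp)
    obtain ⟨_, yu, yp⟩ := y
    simp only at hy
    subst hy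
    rcases Q with _ | ⟨z, _ | ⟨u, Q⟩⟩
    · rw [pw_zero, pw_zero, add_zero] <;> simp
    · have hz := hQ z (by simp)
      obtain ⟨_, zu, zp⟩ := z
      simp only at hz
      subst hz
      unfold pw pat
      cases o <;> cases s <;> cases yu <;> cases yp <;> cases zu <;> cases zp <;> simp
    · rw [pw_zero, pw_zero, add_zero] <;> simp
  · have hz : z.lab = d := hP z (by simp)
    rw [pw_zero, pw_zero, add_zero]
    · simp [hz, hbd.symm]
    · simp [hz, had.symm]

theorem two_nil {c d : ℕ} {X : List Letter} (hc : ∀ y ∈ X, y.lab ≠ c) (hd : ∀ y ∈ X, y.lab ≠ d) :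
    two c d X = [] := by
  unfold two
  rw [List.filter_eq_nil_iff]
  intro y hy h
  simp only [decide_eq_true_eq] at h
  rcases h with h | h
  · exact hc y hy h
  · exact hd y hy h

theorem two_one {c d : ℕ} {X : List Letter} (hc : ∀ y ∈ X, y.lab ≠ c) :
    two c d X = X.filter fun y => y.lab = d :=
  List.filter_congr fun y hy => by simp [hc y hy]

theorem v2_second₁ {a b : ℕ} {o s : Bool} {X Y : List Letter}
    (hE : (curve (⟨a, o, s⟩ :: ⟨b, o, !s⟩ :: (X ++ ⟨a, !o, s⟩ :: ⟨b, !o, !s⟩ :: Y))).Nodup) :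
    v2 (X ++ Y) = v2 (⟨a, o, s⟩ :: ⟨b, o, !s⟩ :: (X ++ ⟨a, !o, s⟩ :: ⟨b, !o, !s⟩ :: Y)) := by
  obtain ⟨ha, hb, hab⟩ := second_fresh hE (perm_second₁ a b o s X Y)
  have haX : ∀ y ∈ X, y.lab ≠ a := fun y hy => ha y (by simp [hy])
  have haY : ∀ y ∈ Y, y.lab ≠ a := fun y hy => ha y (by simp [hy])
  have hbX : ∀ y ∈ X, y.lab ≠ b := fun y hy => hb y (by simp [hy])
  have hbY : ∀ y ∈ Y, y.lab ≠ b := fun y hy => hb y (by simp [hy])
  refine second_aux ha hb hab ?_ ?_ ?_ ?_ ?_ ?_ ?_
  · simp [labels]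
  · simp [labels]
  · intro c
    simp only [labels, List.map_append, List.map_cons, List.mem_toFinset, List.mem_append, List.mem_cons]
    tauto
  · intro c d h1 h2 h3 h4
    simp [two, h1.symm, h2.symm, h3.symm, h4.symm]
  · intro c d h1 h2 hd
    unfold two
    rcases hd with rfl | rfl
    · rw [List.filter_cons_of_pos (by simp)]
      exact pw_head (Ne.symm h1)
    · rw [List.filter_cons_of_neg (by simp [hab, Ne.symm h1]), List.filter_cons_of_pos (by simp)]
      exact pw_head (Ne.symm h2)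
  · intro c d hc hd
    have e1 := two_nil haX haX
    have e2 := two_nil haX hbX
    have e3 := two_nil hbX haX
    have e4 := two_nil hbX hbX
    have f1 := two_nil haY haY
    have f2 := two_nil haY hbY
    have f3 := two_nil hbY haY
    have f4 := two_nil hbY hbY
    unfold two at e1 e2 e3 e4 f1 f2 f3 f4 ⊢
    rcases hc with rfl | rfl <;> rcases hd with rfl | rfl
    · simp only [List.filter_cons, List.filter_append, e1, f1, hab.symm]
      exact pw_zero (by simp)
    · simp only [List.filter_cons, List.filter_append, e2, f2]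
      exact pw_zero' (by cases o <;> simp)
    · simp only [List.filter_cons, List.filter_append, e3, f3]
      exact pw_zero (by simp [hab])
    · simp only [List.filter_cons, List.filter_append, e4, f4, hab]
      exact pw_zero (by simp)
  · intro d h1 h2
    have g1 : two a d (⟨a, o, s⟩ :: ⟨b, o, !s⟩ :: (X ++ ⟨a, !o, s⟩ :: ⟨b, !o, !s⟩ :: Y)) =
        ⟨a, o, s⟩ :: (two a d X ++ ⟨a, !o, s⟩ :: two a d Y) := by
      simp [two, hab.symm, h2.symm]
    have g2 : two b d (⟨a, o, s⟩ :: ⟨b, o, !s⟩ :: (X ++ ⟨a, !o, s⟩ :: ⟨b, !o, !s⟩ :: Y)) =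
        ⟨b, o, !s⟩ :: (two b d X ++ ⟨b, !o, !s⟩ :: two b d Y) := by
      simp [two, hab, h1.symm]
    rw [g1, g2, two_one haX, two_one hbX, two_one haY, two_one hbY]
    exact pw_opp h1.symm h2.symm (by simp) (by simp)

theorem v2_second₂ {a b : ℕ} {o s : Bool} {X Y : List Letter}
    (hE : (curve (⟨a, o, s⟩ :: ⟨b, o, !s⟩ :: (X ++ ⟨b, !o, !s⟩ :: ⟨a, !o, s⟩ :: Y))).Nodup) :
    v2 (X ++ Y) = v2 (⟨a, o, s⟩ :: ⟨b, o, !s⟩ :: (X ++ ⟨b, !o, !s⟩ :: ⟨a, !o, s⟩ :: Y)) := by
  obtain ⟨ha, hb, hab⟩ := second_fresh hE (perm_second₂ a b o s X Y)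
  have haX : ∀ y ∈ X, y.lab ≠ a := fun y hy => ha y (by simp [hy])
  have haY : ∀ y ∈ Y, y.lab ≠ a := fun y hy => ha y (by simp [hy])
  have hbX : ∀ y ∈ X, y.lab ≠ b := fun y hy => hb y (by simp [hy])
  have hbY : ∀ y ∈ Y, y.lab ≠ b := fun y hy => hb y (by simp [hy])
  refine second_aux ha hb hab ?_ ?_ ?_ ?_ ?_ ?_ ?_
  · simp [labels]
  · simp [labels]
  · intro c
    simp only [labels, List.map_append, List.map_cons, List.mem_toFinset, List.mem_append, List.mem_cons]
    tauto
  · intro c d h1 h2 h3 h4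
    simp [two, h1.symm, h2.symm, h3.symm, h4.symm]
  · intro c d h1 h2 hd
    unfold two
    rcases hd with rfl | rfl
    · rw [List.filter_cons_of_pos (by simp)]
      exact pw_head (Ne.symm h1)
    · rw [List.filter_cons_of_neg (by simp [hab, Ne.symm h1]), List.filter_cons_of_pos (by simp)]
      exact pw_head (Ne.symm h2)
  · intro c d hc hd
    have e1 := two_nil haX haX
    have e2 := two_nil haX hbX
    have e3 := two_nil hbX haX
    have e4 := two_nil hbX hbX
    have f1 := two_nil haY haY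
    have f2 := two_nil haY hbY
    have f3 := two_nil hbY haY
    have f4 := two_nil hbY hbY
    unfold two at e1 e2 e3 e4 f1 f2 f3 f4 ⊢
    rcases hc with rfl | rfl <;> rcases hd with rfl | rfl
    · simp only [List.filter_cons, List.filter_append, e1, f1, hab.symm]
      exact pw_zero (by simp)
    · simp only [List.filter_cons, List.filter_append, e2, f2]
      exact pw_zero' (by cases o <;> simp)
    · simp only [List.filter_cons, List.filter_append, e3, f3]
      exact pw_zero (by simp [hab])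
    · simp only [List.filter_cons, List.filter_append, e4, f4, hab]
      exact pw_zero (by simp)
  · intro d h1 h2
    have g1 : two a d (⟨a, o, s⟩ :: ⟨b, o, !s⟩ :: (X ++ ⟨b, !o, !s⟩ :: ⟨a, !o, s⟩ :: Y)) =
        ⟨a, o, s⟩ :: (two a d X ++ ⟨a, !o, s⟩ :: two a d Y) := by
      simp [two, hab.symm, h2.symm]
    have g2 : two b d (⟨a, o, s⟩ :: ⟨b, o, !s⟩ :: (X ++ ⟨b, !o, !s⟩ :: ⟨a, !o, s⟩ :: Y)) =
        ⟨b, o, !s⟩ :: (two b d X ++ ⟨b, !o, !s⟩ :: two b d Y) := by
      simp [two, hab, h1.symm]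
    rw [g1, g2, two_one haX, two_one hbX, two_one haY, two_one hbY]
    exact pw_opp h1.symm h2.symm (by simp) (by simp)

/-- **Invariance.** -/
theorem v2_move {D E : List Letter} (hD : IsDiagram D) (hE : IsDiagram E) (h : Move D E) :
    v2 D = v2 E := by
  cases h with
  | start x L => exact v2_start hD
  | reverse => exact (v2_reverse D).symm
  | rename f _ hf => exact (v2_rename hf).symm
  | first a o s => exact v2_first hE.2.1
  | second₁ a b o s X Y => exact v2_second₁ hE.2.1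
  | second₂ a b o s X Y => exact v2_second₂ hE.2.1
  | third₁ p q r sp sq sr dT dM dB X Y Z => exact v2_third₁ p q r sp sq sr dT dM dB X Y Z
  | third₂ p q r sp sq sr dT dM dB X Y Z => exact v2_third₂ p q r sp sq sr dT dM dB X Y Z

/-- The Casson invariant of a knot type. -/
def KnotType.v2 (K : KnotType) : ℤ :=
  Quot.lift (fun D : Diagram => R798.v2 D.1) (fun D E h => v2_move D.2 E.2 h) K

theorem KnotType.v2_knot (D : Diagram) : D.knot.v2 = R798.v2 D.1 := rfl

end Pool.Agent.R798
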