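import Pool.Agent.Helper517.FIrrG

set_option autoImplicit false

namespace Pool.Agent.R798.Irr

open Finset Pool.Agent.Helper517.FIrr

theorem exists_fin_ge (K : ℕ) {n : ℕ} (F : SimpleGraph (Fin n)) {V : Type} [Fintype V]
    (G : SimpleGraph V) (hinj : Function.Injective (Nf F G)) (h2 : K ≤ Fintype.card V) :
    ∃ (m : ℕ) (G' : SimpleGraph (Fin m)), K ≤ m ∧
        Function.Injective
          (fun v : Fin m =>
            {H : G'.Subgraph | Nonempty (H.coe ≃g F) ∧ v ∈ H.verts}.ncard) := by
  classical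
  set e := Fintype.equivFin V with he
  refine ⟨Fintype.card V, G.comap e.symm, h2, ?_⟩
  have hN : ∀ v, Nf F (G.comap e.symm) v = Nf F G (e.symm v) := by
    intro v
    unfold Nf
    refine Finset.card_bij (fun φ _ => e.symm ∘ φ) ?_ ?_ ?_
    · intro φ hφ
      rw [mem_Eset] at hφ ⊢
      obtain ⟨⟨h1, h2⟩, a, ha⟩ := hφ
      exact ⟨⟨e.symm.injective.comp h1, fun a b hab => h2 a b hab⟩, a, by simp [ha]⟩
    · intro φ _ ψ _ h
      funext a
      exact e.symm.injective (congrFun h a)
    · intro ψ hψ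
      rw [mem_Eset] at hψ
      obtain ⟨⟨h1, h2⟩, a, ha⟩ := hψ
      refine ⟨e ∘ ψ, ?_, by funext a; simp⟩
      rw [mem_Eset]
      refine ⟨⟨e.injective.comp h1, fun a b hab => ?_⟩, a, by simp [ha]⟩
      simpa using h2 a b hab
  intro u v huv
  have : Nf F (G.comap e.symm) u = Nf F (G.comap e.symm) v := by
    rw [Nf_eq, Nf_eq]
    simp only at huv
    rw [huv]
  rw [hN, hN] at this
  exact e.symm.injective (hinj this)

/-- the case of minimum degree at least two -/
theorem big_two {n : ℕ} (K : ℕ) (F : SimpleGraph (Fin n)) (hn : 3 ≤ n) (y0 : Fin n)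
    (hδ : 2 ≤ (nb F y0).card) (hmin : ∀ a, (nb F y0).card ≤ (nb F a).card) :
    ∃ (m : ℕ) (G' : SimpleGraph (Fin m)), K ≤ m ∧
        Function.Injective
          (fun v : Fin m =>
            {H : G'.Subgraph | Nonempty (H.coe ≃g F) ∧ v ∈ H.verts}.ncard) := by
  have hδn : (nb F y0).card < n := by
    have h1 := Finset.card_le_univ (insert y0 (nb F y0))
    rw [Finset.card_insert_of_notMem (not_mem_nb_self F y0), Fintype.card_fin] at h1
    omega
  set δ := (nb F y0).card with hδdef
  have hm : δ - 1 ≤ n := by omega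
  set M : ℕ := Fintype.card (DD n) + Fintype.card (OO n) + 3 + K with hM
  obtain ⟨u, hu⟩ : ∃ u, u = 2 ^ n * M ^ n * 5 ^ n + 4 * n + M + 1 := ⟨_, rfl⟩
  obtain ⟨b, hb⟩ : ∃ b, b = 2 * (u + n) := ⟨_, rfl⟩
  have hσ : (Sg : Finset (Vtx (DD n) (OO n) b)).card ≤ M := by
    have := card_Sg (D := DD n) (O := OO n) (b := b)
    omega
  have hN : Fintype.card (Vtx (DD n) (OO n) b) ≤ M + 2 * b := by
    rw [card_vtx]
    omega
  have hbound1 : n.choose (δ + 2) *
      ((Sg : Finset (Vtx (DD n) (OO n) b)).card ^ (δ + 2) *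
        (Fintype.card (Vtx (DD n) (OO n) b)) ^ (n - (δ + 2))) <
      b.descFactorial (n - (δ + 1)) := by
    by_cases hk : δ + 2 ≤ n
    · refine (bnd n M (δ + 2) _ _ u b hk (by omega) hσ hu hb hN).trans_le ?_
      have e : n - (δ + 2) + 1 = n - (δ + 1) := by omega
      rw [e]
      refine le_trans (Nat.pow_le_pow_left ?_ _) (Nat.pow_sub_le_descFactorial _ _)
      omega
    · rw [Nat.choose_eq_zero_of_lt (by omega), Nat.zero_mul]
      exact Nat.descFactorial_pos.2 (by omega)
  have hbound2 : n.choose 3 * ((Sg : Finset (Vtx (DD n) (OO n) b)).card ^ 3 *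
        (Fintype.card (Vtx (DD n) (OO n) b)) ^ (n - 3)) < (b - 1).descFactorial (n - 2) := by
    refine (bnd n M 3 _ _ u b hn (by omega) hσ hu hb hN).trans_le ?_
    have e : n - 3 + 1 = n - 2 := by omega
    rw [e]
    refine le_trans (Nat.pow_le_pow_left ?_ _) (Nat.pow_sub_le_descFactorial _ _)
    omega
  set G : SimpleGraph (Vtx (DD n) (OO n) b) := VG b (Rd n) (Sd n (δ - 1) hm) with hG
  have hScard : (Sd n (δ - 1) hm).card + 1 = (nb F y0).card := by
    rw [card_Sd]
    omega
  have hDcard : (nb F y0).card ≤ Fintype.card (DD n) := by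
    rw [Fintype.card_sum, Fintype.card_fin]
    omega
  apply exists_fin_ge K F G _ (by rw [card_vtx]; omega)
  set N : Vtx (DD n) (OO n) b → ℕ := Nf F G with hNdef
  have hw : StrictMono (fun j => N (.w j)) := by
    rw [Fin.strictMono_iff_lt_succ]
    exact fun j => w_lt F y0 hScard (by omega) j
  have ht : StrictAnti (fun i => N (.t i)) := by
    rw [Fin.strictAnti_iff_succ_lt]
    intro i
    by_cases hi : i.1 + 1 = b
    · exact tb_lt F y0 hδ hmin hbound2 i hi
    · exact t_lt F y0 hScard (by omega) i (by have := i.2; omega)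
  have hwt : N (.w (Fin.last b)) < N (.t (Fin.last b)) := wt_lt F y0 hScard (by omega)
  have htd : ∀ q, N (.t 0) < N (.d q) :=
    fun q => td_lt F y0 (by omega) hDcard (by omega) (by omega) q
  have hd : Function.Injective (fun q => N (.d q)) :=
    dd_inj F y0 n b (δ - 1) hm hδ (by omega) (by omega) hmin hbound1
  have hcol : ∀ c, n ≤ (Rd n c).card := by
    rintro (x | j)
    · rw [card_Rl]
      omega
    · rw [card_Rr]
      omega
  have hmiss : ∀ c : OO n, ∃ q, q ∉ Rd n c := by
    rintro (x | j)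
    · refine ⟨.inr (⟨0, by omega⟩, ⟨n, by omega⟩), ?_⟩
      rw [lr_mem]
      simp only
      omega
    · refine ⟨.inr (⟨n - 1, by omega⟩, ⟨0, by omega⟩), ?_⟩
      rw [rr_mem, Fin.lt_def]
      have := j.2
      simp only
      omega
  have how : ∀ c, N (.o c) < N (.w 0) :=
    fun c => ow_lt F y0 (by omega) hDcard (by omega) c (hmiss c)
  have hoo : ∀ c c', (Rd n c).card < (Rd n c').card → N (.o c) < N (.o c') := by
    intro c c' hcc
    have hc1 := hcol c
    have hc2 := hcol c'
    apply low_lt F y0 (.o c) c' (DS (Rd n c)) (adj_o c)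
    · intro x hx
      obtain ⟨q, _, rfl⟩ := mem_DS.1 hx
      exact mem_Sg.2 rfl
    · exact mem_Sg.2 rfl
    · rw [← Finset.card_pos, card_DS]
      omega
    · rw [card_DS]
      exact hcc
    · omega
    · omega
    · exact hmin
    · exact hbound1
  have hso : ∀ c, N .s < N (.o c) := by
    intro c
    have hc1 := hcol c
    have hnot : (Vtx.t (Fin.last b) : Vtx (DD n) (OO n) b) ∉ DS (Sd n (δ - 1) hm) := by
      intro h
      obtain ⟨q, _, h⟩ := mem_DS.1 h
      cases h
    apply low_lt F y0 .s c (insert (.t (Fin.last b)) (DS (Sd n (δ - 1) hm))) (fun x => adj_s x)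
    · intro x hx
      rw [mem_insert] at hx
      rcases hx with rfl | hx
      · rw [mem_Sg]
        simp [sp]
      · obtain ⟨q, _, rfl⟩ := mem_DS.1 hx
        exact mem_Sg.2 rfl
    · exact mem_Sg.2 rfl
    · exact ⟨_, mem_insert_self _ _⟩
    · rw [Finset.card_insert_of_notMem hnot, card_DS, card_Sd]
      omega
    · omega
    · omega
    · exact hmin
    · exact hbound1
  have ho : Function.Injective (fun c => N (.o c)) := by
    intro c c' hcc
    have h1 : (Rd n c).card = (Rd n c').card := by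
      rcases Nat.lt_trichotomy (Rd n c).card (Rd n c').card with h | h | h
      · have := hoo c c' h
        simp only at hcc
        omega
      · exact h
      · have := hoo c' c h
        simp only at hcc
        omega
    rcases c with x | j <;> rcases c' with x' | j'
    · rw [card_Rl, card_Rl] at h1
      congr 1
      apply Fin.ext
      omega
    · exfalso
      rw [card_Rl, card_Rr] at h1
      have hx := x.2
      rcases Nat.eq_zero_or_pos j'.1 with h0 | h0
      · rw [h0] at h1
        omega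
      · obtain ⟨k, hk⟩ : ∃ k, j'.1 = k + 1 := ⟨j'.1 - 1, by omega⟩
        rw [hk, show (k + 1) * (n + 1) = k * (n + 1) + (n + 1) by ring] at h1
        omega
    · exfalso
      rw [card_Rl, card_Rr] at h1
      have hx := x'.2
      rcases Nat.eq_zero_or_pos j.1 with h0 | h0
      · rw [h0] at h1
        omega
      · obtain ⟨k, hk⟩ : ∃ k, j.1 = k + 1 := ⟨j.1 - 1, by omega⟩
        rw [hk, show (k + 1) * (n + 1) = k * (n + 1) + (n + 1) by ring] at h1
        omega
    · rw [card_Rr, card_Rr] at h1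
      congr 1
      apply Fin.ext
      have h2 : j.1 * (n + 1) = j'.1 * (n + 1) := by omega
      exact Nat.eq_of_mul_eq_mul_right (by omega) h2
  -- assembling
  have wt : ∀ j i, N (.w j) < N (.t i) := low_top N hw ht hwt
  have w0 : ∀ j, N (.w 0) ≤ N (.w j) := fun j => hw.monotone (Fin.zero_le j)
  have t0 : ∀ i, N (.t i) ≤ N (.t 0) := fun i => ht.antitone (Fin.zero_le i)
  have c0 : OO n := .inl ⟨0, by omega⟩
  have sw : ∀ j, N .s < N (.w j) := fun j => (hso c0).trans ((how c0).trans_le (w0 j))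
  have ow : ∀ c j, N (.o c) < N (.w j) := fun c j => (how c).trans_le (w0 j)
  have td : ∀ i q, N (.t i) < N (.d q) := fun i q => (t0 i).trans_lt (htd q)
  rintro (q | c | _ | i | j) (q' | c' | _ | i' | j') hh
  · rw [hd hh]
  · have h1 := ow c' 0
    have h2 := wt 0 0
    have h3 := td 0 q
    omega
  · have h1 := sw 0
    have h2 := wt 0 0
    have h3 := td 0 q
    omega
  · have h3 := td i' q
    omega
  · have h2 := wt j' 0
    have h3 := td 0 q
    omega
  · have h1 := ow c 0
    have h2 := wt 0 0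
    have h3 := td 0 q'
    omega
  · rw [ho hh]
  · have h1 := hso c
    omega
  · have h1 := ow c 0
    have h2 := wt 0 i'
    omega
  · have h1 := ow c j'
    omega
  · have h1 := sw 0
    have h2 := wt 0 0
    have h3 := td 0 q'
    omega
  · have h1 := hso c'
    omega
  · rfl
  · have h1 := sw 0
    have h2 := wt 0 i'
    omega
  · have h1 := sw j'
    omega
  · have h3 := td i q'
    omega
  · have h1 := ow c' 0
    have h2 := wt 0 i
    omega
  · have h1 := sw 0
    have h2 := wt 0 i
    omega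
  · rw [ht.injective hh]
  · have h2 := wt j' i
    omega
  · have h2 := wt j 0
    have h3 := td 0 q'
    omega
  · have h1 := ow c' j
    omega
  · have h1 := sw j
    omega
  · have h2 := wt j i'
    omega
  · rw [hw.injective hh]

/-- the case of a leaf -/
theorem big_one {n : ℕ} (K : ℕ) (F : SimpleGraph (Fin n)) (hn : 3 ≤ n) (hF : F.Connected) (y0 : Fin n)
    (hδ : (nb F y0).card = 1) :
    ∃ (m : ℕ) (G' : SimpleGraph (Fin m)), K ≤ m ∧
        Function.Injective
          (fun v : Fin m =>
            {H : G'.Subgraph | Nonempty (H.coe ≃g F) ∧ v ∈ H.verts}.ncard) := by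
  obtain ⟨x0, hx0⟩ := Finset.card_eq_one.1 hδ
  have hy : ∀ a, F.Adj y0 a ↔ a = x0 := by
    intro a
    rw [← mem_nb, hx0, mem_singleton]
  obtain ⟨z0, hz, hzy⟩ := exists_third hF hn x0 y0 hy
  have hiso : ∀ a, ∃ a', F.Adj a a' := exists_nb hF hn
  obtain ⟨u, hu⟩ : ∃ u, u = 2 ^ n * (3 + K) ^ n * 5 ^ n + 4 * n + (3 + K) + 1 := ⟨_, rfl⟩
  obtain ⟨b, hb⟩ : ∃ b, b = 2 * (u + n) := ⟨_, rfl⟩
  have hN : Fintype.card (Vtx Empty Empty b) ≤ 3 + K + 2 * b := by
    rw [card_vtx, Fintype.card_empty]
    omega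
  have hb0 := bnd n (3 + K) 3 3 _ u b hn (by omega) (by omega) hu hb hN
  have hbound1 : n.choose 3 * (3 ^ 3 * (Fintype.card (Vtx Empty Empty b)) ^ (n - 3)) <
      (b - 1).descFactorial (n - 2) := by
    refine hb0.trans_le ?_
    have e : n - 3 + 1 = n - 2 := by omega
    rw [e]
    refine le_trans (Nat.pow_le_pow_left ?_ _) (Nat.pow_sub_le_descFactorial _ _)
    omega
  have hbound2 : n.choose 3 * (3 ^ 3 * (Fintype.card (Vtx Empty Empty b)) ^ (n - 3)) <
      (b / 2) * (b / 2).descFactorial (n - 3) := by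
    refine hb0.trans_le ?_
    rw [Nat.pow_succ, Nat.mul_comm]
    have e : b / 2 = u + n := by omega
    rw [e]
    refine Nat.mul_le_mul (by omega) ?_
    refine le_trans (Nat.pow_le_pow_left ?_ _) (Nat.pow_sub_le_descFactorial _ _)
    omega
  apply exists_fin_ge K F (LG b) _ (by rw [card_vtx]; omega)
  set N : Vtx Empty Empty b → ℕ := Nf F (LG b) with hNdef
  have hScard : (∅ : Finset Empty).card + 1 = (nb F y0).card := by
    rw [hδ]
    rfl
  have hw : StrictMono (fun j => N (.w j)) := by
    rw [Fin.strictMono_iff_lt_succ]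
    exact fun j => w_lt F y0 hScard (by omega) j
  have ht : StrictAnti (fun i => N (.t i)) := by
    rw [Fin.strictAnti_iff_succ_lt]
    intro i
    by_cases hi : i.1 + 1 = b
    · exact tb_lt_leaf F y0 x0 z0 hy hz hzy hbound1 i hi
    · exact t_lt F y0 hScard (by omega) i (by have := i.2; omega)
  have hwt : N (.w (Fin.last b)) < N (.t (Fin.last b)) := wt_lt F y0 hScard (by omega)
  have hw0 : N (.w 0) = 0 := by
    rw [hNdef]
    unfold Nf
    rw [Finset.card_eq_zero, Finset.eq_empty_iff_forall_notMem]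
    intro φ hφ
    obtain ⟨hemb, a, ha⟩ := mem_Eset.1 hφ
    obtain ⟨a', ha'⟩ := hiso a
    have h1 := hemb.2 _ _ ha'
    rw [ha] at h1
    rcases hx : φ a' with p | p | _ | k | k
    · exact p.elim
    · exact p.elim
    · rw [hx] at h1
      exact h1
    · rw [hx] at h1
      have h2 : k.1 < (0 : Fin (b + 1)).1 := h1
      rw [Fin.val_zero] at h2
      omega
    · rw [hx] at h1
      exact h1
  have hs0 : 0 < N .s := by
    obtain ⟨φ, g1, g2, _, _, _⟩ := star_tD (R := fun _ : Empty => (∅ : Finset Empty))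
      (S := (∅ : Finset Empty)) F y0
      (.s : Vtx Empty Empty b) ∅ (Fin.last b) (II b ∅) hScard
      (by
        intro h
        obtain ⟨i, _, h⟩ := mem_TS.1 h
        cases h)
      (by
        rw [mem_II]
        simp)
      (fun q _ => q.elim)
      rfl
      (by
        have := card_II b ∅
        rw [Finset.card_empty] at this
        omega)
    exact Finset.card_pos.2 ⟨φ, mem_Eset.2 ⟨g1, y0, g2⟩⟩
  have hsw1 : N .s < N (.w ⟨1, by omega⟩) :=
    sw_lt_leaf F y0 x0 z0 hy hz hzy hiso hbound2 (by omega) _ rfl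
  have sw : ∀ j : Fin (b + 1), j ≠ 0 → N .s < N (.w j) := by
    intro j hj
    refine hsw1.trans_le (hw.monotone ?_)
    rw [Fin.le_def]
    have : j.1 ≠ 0 := fun h => hj (Fin.ext h)
    simp only
    omega
  have wt : ∀ j i, N (.w j) < N (.t i) := low_top N hw ht hwt
  have st : ∀ i, N .s < N (.t i) := fun i => hsw1.trans (wt _ i)
  rintro (q | c | _ | i | j) (q' | c' | _ | i' | j') hh
  all_goals first | exact q.elim | exact c.elim | exact q'.elim | exact c'.elim | skip
  · rfl
  · have h1 := st i'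
    omega
  · by_cases hj : j' = 0
    · rw [hj] at hh
      omega
    · have h1 := sw j' hj
      omega
  · have h1 := st i
    omega
  · rw [ht.injective hh]
  · have h2 := wt j' i
    omega
  · by_cases hj : j = 0
    · rw [hj] at hh
      omega
    · have h1 := sw j hj
      omega
  · have h2 := wt j i'
    omega
  · rw [hw.injective hh]

theorem big (n : ℕ) (F : SimpleGraph (Fin n)) (hn : 3 ≤ n) (hF : F.Connected) (K : ℕ) :
    ∃ (m : ℕ) (G' : SimpleGraph (Fin m)), K ≤ m ∧
        Function.Injective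
          (fun v : Fin m =>
            {H : G'.Subgraph | Nonempty (H.coe ≃g F) ∧ v ∈ H.verts}.ncard) := by
  obtain ⟨y0, _, hmin⟩ := Finset.exists_min_image (univ : Finset (Fin n))
    (fun a => (nb F a).card) ⟨⟨0, by omega⟩, mem_univ _⟩
  have hmin' : ∀ a, (nb F y0).card ≤ (nb F a).card := fun a => hmin a (mem_univ a)
  have hpos : 0 < (nb F y0).card := by
    obtain ⟨x, hx⟩ := exists_nb hF hn y0
    exact Finset.card_pos.2 ⟨x, mem_nb.2 hx⟩
  by_cases h1 : (nb F y0).card = 1
  · exact big_one K F hn hF y0 h1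
  · exact big_two K F hn y0 (by omega) hmin'

end Pool.Agent.R798.Irr
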