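import Pool.Agent.R798.Irr

set_option autoImplicit false

namespace Pool.Agent.R798.Irr

theorem big_type {W : Type} [Fintype W] (F : SimpleGraph W) (hW : 3 ≤ Fintype.card W)
    (hF : F.Connected) (K : ℕ) :
    ∃ (m : ℕ) (G : SimpleGraph (Fin m)), K ≤ m ∧
      Function.Injective
        (fun v : Fin m => {H : G.Subgraph | Nonempty (H.coe ≃g F) ∧ v ∈ H.verts}.ncard) := by
  obtain ⟨n, hn⟩ : ∃ n, n = Fintype.card W := ⟨_, rfl⟩
  have e : Fin n ≃ W := (finCongr hn).trans (Fintype.equivFin W).symm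
  have i : F.comap e ≃g F := SimpleGraph.Iso.comap e F
  have hc : (F.comap e).Connected := i.connected_iff.2 hF
  obtain ⟨m, G, hm, hinj⟩ := big n (F.comap e) (by omega) hc K
  refine ⟨m, G, hm, ?_⟩
  have key : ∀ v : Fin m, {H : G.Subgraph | Nonempty (H.coe ≃g F) ∧ v ∈ H.verts} =
      {H : G.Subgraph | Nonempty (H.coe ≃g F.comap e) ∧ v ∈ H.verts} := by
    intro v
    ext H
    constructor
    · rintro ⟨⟨j⟩, hv⟩
      exact ⟨⟨j.trans i.symm⟩, hv⟩
    · rintro ⟨⟨j⟩, hv⟩
      exact ⟨⟨j.trans i⟩, hv⟩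
  intro u v huv
  apply hinj
  simp only [key] at huv
  exact huv

/-- arbitrarily large members give infinitely many pairwise non-isomorphic ones -/
theorem infinitely {P : ∀ m : ℕ, SimpleGraph (Fin m) → Prop}
    (h : ∀ K : ℕ, ∃ (m : ℕ) (G : SimpleGraph (Fin m)), K ≤ m ∧ P m G) :
    ∃ (m : ℕ → ℕ) (G : ∀ k, SimpleGraph (Fin (m k))), (∀ k, P (m k) (G k)) ∧
      ∀ k l, k ≠ l → IsEmpty (G k ≃g G l) := by
  classical
  choose m G hm hP using h
  -- a sequence of thresholds
  let t : ℕ → ℕ := fun k => Nat.rec 0 (fun _ r => m r + 1) k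
  have ht : ∀ k, t (k + 1) = m (t k) + 1 := fun k => rfl
  have hmono : StrictMono (fun k => m (t k)) := by
    apply strictMono_nat_of_lt_succ
    intro k
    have := hm (t (k + 1))
    rw [ht] at this
    show m (t k) < m (t (k + 1))
    rw [ht]
    omega
  refine ⟨fun k => m (t k), fun k => G (t k), fun k => hP (t k), ?_⟩
  intro k l hkl
  constructor
  intro e
  have h1 := Fintype.card_congr e.toEquiv
  rw [Fintype.card_fin, Fintype.card_fin] at h1
  exact hkl (hmono.injective h1)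

end Pool.Agent.R798.Irr
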