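import Pool.Agent.R798.Flip
import Pool.Agent.R798.Graph

/-! # A reduced shadow with `n` crossings resolves into at least `n / 3 + 1` knots -/

set_option autoImplicit false

namespace Pool.Agent.R798

/-- The double points of a curve. -/
def crossings (w : List Pass) : Finset ℕ := (w.map Pass.lab).toFinset

theorem mem_crossings {w : List Pass} {b : ℕ} : b ∈ crossings w ↔ ∃ y ∈ w, y.lab = b := by
  simp [crossings]

theorem card_crossings {w : List Pass} (hw : IsPlaneCurve w) : w.length = 2 * (crossings w).card := by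
  have h := sum_filter_lab (B := w) (S := crossings w) (fun y hy => mem_crossings.2 ⟨y, hy, rfl⟩)
    (fun _ => 1)
  have h1 : (w.map fun _ => (1 : ℤ)).sum = w.length := by simp
  rw [h1] at h
  have h2 : ∀ b ∈ crossings w, ((w.filter fun y => y.lab = b).map fun _ => (1 : ℤ)).sum = 2 := by
    intro b hb
    rcases filter_form hw.1 hw.2.1 b with h | ⟨z, _, h⟩
    · obtain ⟨y, hy, hb⟩ := mem_crossings.1 hb
      rw [List.filter_eq_nil_iff] at h
      exact absurd (by simpa using hb) (h y hy)
    · rw [h]; rfl
  rw [Finset.sum_congr rfl h2, Finset.sum_const, nsmul_eq_mul] at h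
  have h3 : ((w.length : ℕ) : ℤ) = ((2 * (crossings w).card : ℕ) : ℤ) := by
    rw [← h]; push_cast; ring
  exact_mod_cast h3

/-- The two passages through a double point. -/
theorem exists_split {w : List Pass} (hw : IsPlaneCurve w) {v : ℕ} (hv : v ∈ crossings w) :
    ∃ (A B C : List Pass) (x : Pass), x.lab = v ∧ w = A ++ x :: (B ++ x.flip :: C) := by
  rcases filter_form hw.1 hw.2.1 v with h | ⟨z, hz, h⟩
  · obtain ⟨y, hy, hb⟩ := mem_crossings.1 hv
    rw [List.filter_eq_nil_iff] at h
    exact absurd (by simpa using hb) (h y hy)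
  · obtain ⟨A, R, rfl, _, _, h2⟩ := List.filter_eq_cons_iff.1 h
    obtain ⟨B, C, rfl, _⟩ := List.filter_eq_cons_iff.1 h2
    exact ⟨A, B, C, z, hz, rfl⟩

/-- In a reduced curve each double point is interlaced with another one. -/
theorem exists_adj {w : List Pass} (hw : IsPlaneCurve w) (hr : ∀ x ∈ w, ¬ Nugatory w x) {v : ℕ}
    (hv : v ∈ crossings w) : ∃ b ∈ crossings w, Adj w v b := by
  obtain ⟨A, B, C, x, rfl, rfl⟩ := exists_split hw hv
  have h1 := hr x (by simp)
  have h2 : ∃ y ∈ B, y.flip ∉ B := by
    by_contra hcon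
    push Not at hcon
    exact h1 ⟨A, B, C, rfl, hcon⟩
  obtain ⟨y, hy, hyB⟩ := h2
  have hd := hw.1
  have hf := hw.2.1
  have hp : (A ++ x :: (B ++ x.flip :: C)).Perm (x :: x.flip :: (A ++ (B ++ C))) := by
    refine List.perm_middle.trans ?_
    refine List.Perm.cons _ ?_
    rw [← List.append_assoc]
    refine List.perm_middle.trans ?_
    rw [List.append_assoc]
  have hfr : ∀ y ∈ A ++ (B ++ C), y.lab ≠ x.lab := by
    intro y hy h
    have hn := hp.nodup_iff.1 hd
    rw [List.nodup_cons, List.nodup_cons] at hn
    rcases pass_eq_or h with rfl | rfl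
    · exact hn.1 (List.mem_cons_of_mem _ hy)
    · exact hn.2.1 hy
  have hyx : y.lab ≠ x.lab := hfr y (by simp [hy])
  refine ⟨y.lab, mem_crossings.2 ⟨y, by simp [hy], rfl⟩, hyx.symm, ?_⟩
  have eA : A.filter (fun z => z.lab = x.lab ∨ z.lab = y.lab) = A.filter (fun z => z.lab = y.lab) :=
    List.filter_congr fun z hz => by simp [hfr z (by simp [hz])]
  have eB : B.filter (fun z => z.lab = x.lab ∨ z.lab = y.lab) = B.filter (fun z => z.lab = y.lab) :=
    List.filter_congr fun z hz => by simp [hfr z (by simp [hz])]
  have eC : C.filter (fun z => z.lab = x.lab ∨ z.lab = y.lab) = C.filter (fun z => z.lab = y.lab) :=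
    List.filter_congr fun z hz => by simp [hfr z (by simp [hz])]
  simp only [List.filter_cons, List.filter_append, eA, eB, eC, Pass.flip_lab, true_or, decide_true,
    if_true]
  have h0 : A.filter (fun z => z.lab = y.lab) ++ (B.filter (fun z => z.lab = y.lab) ++
      C.filter (fun z => z.lab = y.lab)) =
      (A ++ x :: (B ++ x.flip :: C)).filter (fun z => z.lab = y.lab) := by
    simp [hyx.symm]
  have hyF : y ∈ B.filter (fun z => z.lab = y.lab) := List.mem_filter.2 ⟨hy, by simp⟩
  rcases filter_form hd hf y.lab with h | ⟨z, hz, h⟩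
  · rw [h, List.append_eq_nil_iff, List.append_eq_nil_iff] at h0
    rw [h0.2.1] at hyF
    simp at hyF
  · rw [h] at h0
    rcases app3 h0 with ⟨h1, h2, h3⟩ | ⟨h1, h2, h3⟩ | ⟨h1, h2, h3⟩ | ⟨h1, h2, h3⟩ | ⟨h1, h2, h3⟩ |
      ⟨h1, h2, h3⟩
    · rw [h2] at hyF; simp at hyF
    · rw [h1, h2, h3]
      simp [hz]
    · exfalso
      apply hyB
      have h4 : y = z ∨ y = z.flip := pass_eq_or hz.symm
      have h5 : z ∈ B.filter (fun z => z.lab = y.lab) := by rw [h2]; simp
      have h6 : z.flip ∈ B.filter (fun z => z.lab = y.lab) := by rw [h2]; simp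
      rcases h4 with rfl | rfl
      · exact List.mem_of_mem_filter h6
      · rw [Pass.flip_flip]; exact List.mem_of_mem_filter h5
    · rw [h2] at hyF; simp at hyF
    · rw [h1, h2, h3]
      simp [hz]
    · rw [h2] at hyF; simp at hyF

/-- The signs that are negative at the crossings in `W`. -/
def signs (W : Finset ℕ) (c : ℕ) : Bool := decide (c ∉ W)

/-- The resolution with positive crossings outside `W` and negative crossings in `W`. -/
def resW {w : List Pass} (hw : IsPlaneCurve w) (W : Finset ℕ) : Diagram :=
  ⟨w.map (res (signs W)), isDiagram_res _ hw⟩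

theorem resW_mem {w : List Pass} (hw : IsPlaneCurve w) (W : Finset ℕ) :
    (resW hw W).knot ∈ resolutions w :=
  ⟨resW hw W, curve_res _ w, rfl⟩

theorem v2_insert {w : List Pass} (hw : IsPlaneCurve w) {U W : Finset ℕ} (hWU : W ⊆ U) (hUV : U ⊆ crossings w)
    {v : ℕ} (hv : v ∈ U) (hvW : v ∉ W)
    (hU : 2 * (U.filter fun u => Adj w v u).card < ((crossings w).filter fun u => Adj w v u).card) :
    (resW hw (insert v W)).knot.v2 < (resW hw W).knot.v2 := by
  rw [KnotType.v2_knot, KnotType.v2_knot]
  show R798.v2 (w.map (res (signs (insert v W)))) < R798.v2 (w.map (res (signs W)))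
  obtain ⟨A, B, C, x, hx, hA⟩ := exists_split hw (hUV hv)
  have e1 : signs W x.lab = true := by simp [signs, hx, hvW]
  have e2 : signs (insert v W) x.lab = false := by simp [signs, hx]
  have key := v2_flip (signs W) (signs (insert v W)) (S := crossings w) (hA ▸ hw)
    (fun b => by rw [← hA]; exact mem_crossings) (by rw [e1, e2]; rfl) (by
      intro b hb
      rw [hx] at hb
      simp [signs, hb])
  rw [← hA, hx] at key
  have e3 : signs W v = true := hx ▸ e1
  rw [e3] at key
  have h1 : ∑ b ∈ crossings w, (if Adj w v b then sg (signs W b) else 0) =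
      (((crossings w).filter fun u => Adj w v u).card : ℤ) -
        2 * (((crossings w).filter fun u => Adj w v u ∧ u ∈ W).card : ℤ) := by
    rw [Finset.card_filter, Finset.card_filter]
    push_cast
    rw [Finset.mul_sum, ← Finset.sum_sub_distrib]
    refine Finset.sum_congr rfl fun b _ => ?_
    by_cases hb : b ∈ W <;> by_cases hc : Adj w v b <;> simp [signs, hb, hc]
  have h2 : ((crossings w).filter fun u => Adj w v u ∧ u ∈ W).card ≤
      (U.filter fun u => Adj w v u).card := by
    refine Finset.card_le_card fun u hu => ?_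
    rw [Finset.mem_filter] at hu ⊢
    exact ⟨hWU hu.2.2, hu.2.1⟩
  rw [h1] at key
  have h3 : (0 : ℤ) < (((crossings w).filter fun u => Adj w v u).card : ℤ) -
        2 * (((crossings w).filter fun u => Adj w v u ∧ u ∈ W).card : ℤ) := by
    have : ((2 * ((crossings w).filter fun u => Adj w v u ∧ u ∈ W).card : ℕ) : ℤ) <
        ((((crossings w).filter fun u => Adj w v u).card : ℕ) : ℤ) := by
      exact_mod_cast lt_of_le_of_lt (Nat.mul_le_mul_left 2 h2) hU
    push_cast at this
    linarith
  rw [sg_true, one_mul] at key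
  linarith

theorem exists_chain {w : List Pass} (hw : IsPlaneCurve w) {U : Finset ℕ} (hUV : U ⊆ crossings w)
    (hU : ∀ v ∈ U, 2 * (U.filter fun u => Adj w v u).card < ((crossings w).filter fun u => Adj w v u).card)
    (W : Finset ℕ) : W ⊆ U → ∃ K : Finset KnotType, ↑K ⊆ resolutions w ∧ K.card = W.card + 1 ∧
      ∀ k ∈ K, (resW hw W).knot.v2 ≤ k.v2 := by
  classical
  induction W using Finset.induction_on with
  | empty =>
    intro _
    refine ⟨{(resW hw ∅).knot}, ?_, by simp, ?_⟩
    · rw [Finset.coe_singleton, Set.singleton_subset_iff]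
      exact resW_mem hw _
    · intro k hk
      rw [Finset.mem_singleton] at hk
      rw [hk]
  | insert v W hv ih =>
    intro hW
    obtain ⟨K, h1, h2, h3⟩ := ih ((Finset.subset_insert v W).trans hW)
    have hvU : v ∈ U := hW (Finset.mem_insert_self v W)
    have h4 := v2_insert hw ((Finset.subset_insert v W).trans hW) hUV hvU hv (hU v hvU)
    have h5 : (resW hw (insert v W)).knot ∉ K := by
      intro h
      have := h3 _ h
      linarith
    refine ⟨insert (resW hw (insert v W)).knot K, ?_, ?_, ?_⟩
    · rw [Finset.coe_insert, Set.insert_subset_iff]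
      exact ⟨resW_mem hw _, h1⟩
    · rw [Finset.card_insert_of_notMem h5, h2, Finset.card_insert_of_notMem hv]
    · intro k hk
      rcases Finset.mem_insert.1 hk with rfl | hk
      · exact le_refl _
      · exact h4.le.trans (h3 k hk)

theorem finite_codes : ∀ w : List Pass, {D : List Letter | curve D = w}.Finite
  | [] => by
    refine (Set.finite_singleton []).subset ?_
    intro D hD
    have : curve D = [] := hD
    unfold curve at this
    simpa using this
  | p :: w => by
    have h1 : {x : Letter | x.pass = p}.Finite := by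
      refine (Set.toFinite {(⟨p.lab, true, true⟩ : Letter), ⟨p.lab, true, false⟩, ⟨p.lab, false, true⟩,
        ⟨p.lab, false, false⟩}).subset ?_
      rintro ⟨l, u, s⟩ hx
      have hl : l = p.lab := congrArg Pass.lab hx
      subst hl
      cases u <;> cases s <;> simp
    refine ((h1.image2 List.cons (finite_codes w))).subset ?_
    intro D hD
    have hD' : curve D = p :: w := hD
    unfold curve at hD'
    rcases D with _ | ⟨x, D⟩
    · simp at hD'
    · rw [List.map_cons, List.cons.injEq] at hD'
      exact ⟨x, hD'.1, D, hD'.2, rfl⟩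

theorem finite_resolutions (w : List Pass) : (resolutions w).Finite := by
  have h : {D : Diagram | curve D.1 = w}.Finite :=
    (finite_codes w).preimage (f := fun D : Diagram => D.1) Subtype.val_injective.injOn
  refine (h.image Diagram.knot).subset ?_
  rintro K ⟨D, hD, rfl⟩
  exact ⟨D, hD, rfl⟩

/-- **A reduced shadow with `n` crossings resolves into at least `n / 3 + 1` types of knots.** -/
theorem numKnots_ge {n : ℕ} {w : List Pass} (hw : IsPlaneCurve w) (hn : w.length = 2 * n)
    (hr : ∀ x ∈ w, ¬ Nugatory w x) : n + 3 ≤ 3 * numKnots w := by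
  obtain ⟨U, hU1, hU2, hU3⟩ := graph_lemma (crossings w) (Adj w) (fun _ _ h => h.symm)
    (fun _ h => h.1 rfl) (fun v hv => exists_adj hw hr hv)
  obtain ⟨K, h1, h2, _⟩ := exists_chain hw hU1 hU3 U (subset_refl U)
  have h3 : K.card ≤ numKnots w := by
    unfold numKnots
    rw [← Set.ncard_coe_finset K]
    exact Set.ncard_le_ncard h1 (finite_resolutions w)
  have h4 := card_crossings hw
  omega

end Pool.Agent.R798
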