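import Mathlib

/-!
# The arithmetic inequality for MP_604c02_co

For `4 ≤ r` and `2 * r < n`, `1 ≤ k < r`, `p + q = n`, `k + t = r`:
`C(p,k) * C(q,t) ≤ (n / r) * C(n - n / r, r - 1)`.
-/

namespace Pool.Agent.R798.RatSum

open Finset

/-- one variable absorption identity, valid for all values -/
lemma absorb (p k : ℕ) :
    (p : ℚ) * ((p - 1).choose k : ℚ) = ((p : ℚ) - k) * (p.choose k : ℚ) := by
  rcases p with _ | m
  · rcases k with _ | k
    · simp
    · simp
  · have h := Nat.choose_mul_succ_eq m k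
    simp only [Nat.add_sub_cancel]
    rcases Nat.lt_or_ge (m + 1) k with hk | hk
    · rw [Nat.choose_eq_zero_of_lt hk, Nat.choose_eq_zero_of_lt (by omega)]
      simp
    · have h2 : ((m.choose k * (m + 1) : ℕ) : ℚ) = (((m + 1).choose k * (m + 1 - k) : ℕ) : ℚ) := by
        rw [h]
      push_cast [Nat.cast_sub hk] at h2
      push_cast
      linarith

/-- averaging identity -/
lemma avg (p q k t : ℕ) :
    ((p : ℚ) + q - (k + t)) * ((p.choose k : ℚ) * q.choose t)
      = p * (((p - 1).choose k : ℚ) * q.choose t) + q * ((p.choose k : ℚ) * (q - 1).choose t) := by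
  have h1 := absorb p k
  have h2 := absorb q t
  have e : p * (((p - 1).choose k : ℚ) * q.choose t) + q * ((p.choose k : ℚ) * (q - 1).choose t)
      = (p * ((p - 1).choose k : ℚ)) * q.choose t
        + (q * ((q - 1).choose t : ℚ)) * p.choose k := by ring
  rw [e, h1, h2]
  ring

lemma grow {n0 k t : ℕ} (hr : k + t ≤ n0) {M : ℚ}
    (hM : ∀ p q : ℕ, p + q = n0 → ((p.choose k : ℚ) * q.choose t) ≤ M) :
    ∀ d p q : ℕ, p + q = n0 + d →
      ((p.choose k : ℚ) * q.choose t) * n0.choose (k + t) ≤ M * (n0 + d).choose (k + t) := by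
  intro d
  induction d with
  | zero =>
    intro p q h
    have := hM p q h
    simp only [Nat.add_zero]
    exact mul_le_mul_of_nonneg_right this (by positivity)
  | succ d ih =>
    intro p q h
    have key := avg p q k t
    have hpos : (0 : ℚ) < (p : ℚ) + q - (k + t) := by
      have : ((p + q : ℕ) : ℚ) = ((n0 + (d + 1) : ℕ) : ℚ) := by rw [h]
      push_cast at this
      have h3 : ((k + t : ℕ) : ℚ) ≤ (n0 : ℚ) := by exact_mod_cast hr
      push_cast at h3
      have h4 : (0 : ℚ) ≤ (d : ℚ) := by positivity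
      linarith
    have hab := absorb (n0 + d + 1) (k + t)
    have hsum : ((p : ℚ) + q) = ((n0 + d + 1 : ℕ) : ℚ) := by
      have : ((p + q : ℕ) : ℚ) = ((n0 + (d + 1) : ℕ) : ℚ) := by rw [h]
      push_cast at this ⊢
      linarith
    simp only [Nat.add_sub_cancel] at hab
    -- bounds on the two averaged terms
    have b1 : (p : ℚ) * (((p - 1).choose k : ℚ) * q.choose t) * n0.choose (k + t)
        ≤ p * (M * (n0 + d).choose (k + t)) := by
      rcases Nat.eq_zero_or_pos p with hp | hp
      · subst hp; simp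
      · have := ih (p - 1) q (by omega)
        have h5 := mul_le_mul_of_nonneg_left this (by positivity : (0 : ℚ) ≤ (p : ℚ))
        linarith
    have b2 : (q : ℚ) * ((p.choose k : ℚ) * (q - 1).choose t) * n0.choose (k + t)
        ≤ q * (M * (n0 + d).choose (k + t)) := by
      rcases Nat.eq_zero_or_pos q with hq | hq
      · subst hq; simp
      · have := ih p (q - 1) (by omega)
        have h5 := mul_le_mul_of_nonneg_left this (by positivity : (0 : ℚ) ≤ (q : ℚ))
        linarith
    have e1 : ((p : ℚ) + q - (k + t)) * (((p.choose k : ℚ) * q.choose t) * n0.choose (k + t))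
        ≤ ((p : ℚ) + q - (k + t)) * (M * (n0 + (d + 1)).choose (k + t)) := by
      calc ((p : ℚ) + q - (k + t)) * (((p.choose k : ℚ) * q.choose t) * n0.choose (k + t))
          = (((p : ℚ) + q - (k + t)) * ((p.choose k : ℚ) * q.choose t)) * n0.choose (k + t) := by
            ring
        _ = (p : ℚ) * (((p - 1).choose k : ℚ) * q.choose t) * n0.choose (k + t)
            + (q : ℚ) * ((p.choose k : ℚ) * (q - 1).choose t) * n0.choose (k + t) := by
            rw [key]; ring
        _ ≤ p * (M * (n0 + d).choose (k + t)) + q * (M * (n0 + d).choose (k + t)) :=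
            add_le_add b1 b2
        _ = ((p : ℚ) + q) * (n0 + d).choose (k + t) * M := by ring
        _ = (((n0 + d + 1 : ℕ) : ℚ) * (n0 + d).choose (k + t)) * M := by rw [hsum]
        _ = (((n0 + d + 1 : ℕ) : ℚ) - ((k + t : ℕ) : ℚ)) * ((n0 + d + 1).choose (k + t) : ℚ) * M := by
            rw [hab]
        _ = ((p : ℚ) + q - (k + t)) * (M * (n0 + (d + 1)).choose (k + t)) := by
            rw [hsum, Nat.add_assoc]; push_cast; ring
    exact le_of_mul_le_mul_left e1 hpos

/-- first half of the mode computation: shrink the upper index -/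
lemma shrink (l k : ℕ) (hl : 1 ≤ l) : ∀ d, d ≤ l * k →
    (((l * k - d).choose k : ℚ)) * (l : ℚ) ^ d ≤ ((l : ℚ) - 1) ^ d * ((l * k).choose k : ℚ) := by
  have hl1 : (0 : ℚ) ≤ (l : ℚ) - 1 := by
    have : (1 : ℚ) ≤ l := by exact_mod_cast hl
    linarith
  intro d
  induction d with
  | zero => intro _; simp
  | succ d ih =>
    intro hd
    have ih' := ih (by omega)
    set m := l * k - d with hm
    have hm1 : 1 ≤ m := by omega
    have e : l * k - (d + 1) = m - 1 := by omega
    rw [e]
    have hab := absorb m k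
    have hmq : (0 : ℚ) < (m : ℚ) := by exact_mod_cast hm1
    have hmle : (m : ℚ) ≤ l * k := by
      have : m ≤ l * k := Nat.sub_le _ _
      exact_mod_cast this
    -- m * C(m-1,k) * l = (m - k) * l * C(m,k) ≤ m (l - 1) C(m,k)
    have h1 : ((m : ℚ) - k) * l ≤ m * ((l : ℚ) - 1) := by nlinarith
    have h2 : ((m - 1).choose k : ℚ) * l ≤ ((l : ℚ) - 1) * (m.choose k : ℚ) := by
      have h3 : (m : ℚ) * (((m - 1).choose k : ℚ) * l) ≤ m * (((l : ℚ) - 1) * (m.choose k : ℚ)) := by
        calc (m : ℚ) * (((m - 1).choose k : ℚ) * l) = (m * ((m - 1).choose k : ℚ)) * l := by ring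
          _ = (((m : ℚ) - k) * l) * (m.choose k : ℚ) := by rw [hab]; ring
          _ ≤ (m * ((l : ℚ) - 1)) * (m.choose k : ℚ) :=
              mul_le_mul_of_nonneg_right h1 (by positivity)
          _ = m * (((l : ℚ) - 1) * (m.choose k : ℚ)) := by ring
      exact le_of_mul_le_mul_left h3 hmq
    calc ((m - 1).choose k : ℚ) * (l : ℚ) ^ (d + 1)
        = (((m - 1).choose k : ℚ) * l) * (l : ℚ) ^ d := by ring
      _ ≤ (((l : ℚ) - 1) * (m.choose k : ℚ)) * (l : ℚ) ^ d :=
          mul_le_mul_of_nonneg_right h2 (by positivity)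
      _ = ((l : ℚ) - 1) * ((m.choose k : ℚ) * (l : ℚ) ^ d) := by ring
      _ ≤ ((l : ℚ) - 1) * (((l : ℚ) - 1) ^ d * ((l * k).choose k : ℚ)) :=
          mul_le_mul_of_nonneg_left ih' hl1
      _ = ((l : ℚ) - 1) ^ (d + 1) * ((l * k).choose k : ℚ) := by ring

/-- second half of the mode computation: enlarge the upper index -/
lemma enlarge (l t : ℕ) (hl : 1 ≤ l) : ∀ d,
    (((l * t + d).choose t : ℚ)) * ((l : ℚ) - 1) ^ d ≤ (l : ℚ) ^ d * ((l * t).choose t : ℚ) := by
  have hl1 : (0 : ℚ) ≤ (l : ℚ) - 1 := by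
    have : (1 : ℚ) ≤ l := by exact_mod_cast hl
    linarith
  intro d
  induction d with
  | zero => simp
  | succ d ih =>
    set m := l * t + d with hm
    have e : l * t + (d + 1) = m + 1 := by omega
    rw [e]
    have hab := absorb (m + 1) t
    simp only [Nat.add_sub_cancel] at hab
    have hmge : (l : ℚ) * t ≤ m := by
      have : l * t ≤ m := by omega
      exact_mod_cast this
    -- (m+1) C(m,t) = (m+1-t) C(m+1,t); want C(m+1,t) (l-1) ≤ l C(m,t)
    have h1 : (((m + 1 : ℕ) : ℚ)) * ((l : ℚ) - 1) ≤ (((m + 1 : ℕ) : ℚ) - t) * l := by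
      push_cast
      nlinarith
    have hpos : (0 : ℚ) < ((m + 1 : ℕ) : ℚ) := by positivity
    have h2 : ((m + 1).choose t : ℚ) * ((l : ℚ) - 1) ≤ l * (m.choose t : ℚ) := by
      have h3 : ((m + 1 : ℕ) : ℚ) * (((m + 1).choose t : ℚ) * ((l : ℚ) - 1))
          ≤ ((m + 1 : ℕ) : ℚ) * (l * (m.choose t : ℚ)) := by
        calc ((m + 1 : ℕ) : ℚ) * (((m + 1).choose t : ℚ) * ((l : ℚ) - 1))
            = (((m + 1 : ℕ) : ℚ) * ((l : ℚ) - 1)) * ((m + 1).choose t : ℚ) := by ring
          _ ≤ ((((m + 1 : ℕ) : ℚ) - t) * l) * ((m + 1).choose t : ℚ) :=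
              mul_le_mul_of_nonneg_right h1 (by positivity)
          _ = ((((m + 1 : ℕ) : ℚ) - t) * ((m + 1).choose t : ℚ)) * l := by ring
          _ = (((m + 1 : ℕ) : ℚ) * (m.choose t : ℚ)) * l := by rw [hab]
          _ = ((m + 1 : ℕ) : ℚ) * (l * (m.choose t : ℚ)) := by ring
      exact le_of_mul_le_mul_left h3 hpos
    calc ((m + 1).choose t : ℚ) * ((l : ℚ) - 1) ^ (d + 1)
        = (((m + 1).choose t : ℚ) * ((l : ℚ) - 1)) * ((l : ℚ) - 1) ^ d := by ring
      _ ≤ (l * (m.choose t : ℚ)) * ((l : ℚ) - 1) ^ d :=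
          mul_le_mul_of_nonneg_right h2 (by positivity)
      _ = l * ((m.choose t : ℚ) * ((l : ℚ) - 1) ^ d) := by ring
      _ ≤ l * ((l : ℚ) ^ d * ((l * t).choose t : ℚ)) :=
          mul_le_mul_of_nonneg_left ih (by positivity)
      _ = (l : ℚ) ^ (d + 1) * ((l * t).choose t : ℚ) := by ring

/-- at `n = l * r` the mode is at `(l * k, l * t)` -/
lemma mode_aux (l k t d : ℕ) (hl : 2 ≤ l) (hd : d ≤ l * k) :
    ((l * k - d).choose k : ℚ) * ((l * t + d).choose t : ℚ)
      ≤ ((l * k).choose k : ℚ) * ((l * t).choose t : ℚ) := by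
  have h1 := shrink l k (by omega) d hd
  have h2 := enlarge l t (by omega) d
  have hl0 : (0 : ℚ) < (l : ℚ) := by positivity
  have hl1 : (0 : ℚ) < (l : ℚ) - 1 := by
    have : (2 : ℚ) ≤ l := by exact_mod_cast hl
    linarith
  have hpos : (0 : ℚ) < (l : ℚ) ^ d * ((l : ℚ) - 1) ^ d := by positivity
  have h3 := mul_le_mul h1 h2 (by positivity) (by positivity)
  have h4 : ((l : ℚ) ^ d * ((l : ℚ) - 1) ^ d) *
      (((l * k - d).choose k : ℚ) * ((l * t + d).choose t : ℚ))
      ≤ ((l : ℚ) ^ d * ((l : ℚ) - 1) ^ d) *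
        (((l * k).choose k : ℚ) * ((l * t).choose t : ℚ)) := by
    calc _ = ((l * k - d).choose k : ℚ) * (l : ℚ) ^ d *
          (((l * t + d).choose t : ℚ) * ((l : ℚ) - 1) ^ d) := by ring
      _ ≤ _ := h3
      _ = _ := by ring
  exact le_of_mul_le_mul_left h4 hpos

lemma mode (l k t : ℕ) (hl : 2 ≤ l) (p q : ℕ) (h : p + q = l * (k + t)) :
    (p.choose k : ℚ) * (q.choose t : ℚ) ≤ ((l * k).choose k : ℚ) * ((l * t).choose t : ℚ) := by
  rcases Nat.le_total p (l * k) with hp | hp
  · have := mode_aux l k t (l * k - p) hl (Nat.sub_le _ _)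
    have e1 : l * k - (l * k - p) = p := by omega
    have e2 : l * t + (l * k - p) = q := by
      have : l * (k + t) = l * k + l * t := by ring
      omega
    rw [e1, e2] at this
    exact this
  · have hlt : l * (k + t) = l * k + l * t := by ring
    have := mode_aux l t k (l * t - q) hl (Nat.sub_le _ _)
    have e1 : l * t - (l * t - q) = q := by omega
    have e2 : l * k + (l * t - q) = p := by omega
    rw [e1, e2] at this
    linarith

end Pool.Agent.R798.RatSum
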