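import Mathlib
import Pool.Agent.R798.RatSumA

/-!
# The arithmetic inequality for MP_604c02_co, second part
-/

namespace Pool.Agent.R798.RatSum

open Finset

/-- the ratio product -/
def Q (m j : ℕ) : ℚ := ∏ i ∈ range m, (((m + 1) * j + 1 + i : ℚ) / (m * j + 1 + i : ℚ))

lemma Q_pos (m j : ℕ) : 0 < Q m j := by
  unfold Q
  apply Finset.prod_pos
  intro i _
  positivity

lemma Q_mono (m j : ℕ) : Q m j ≤ Q m (j + 1) := by
  unfold Q
  apply Finset.prod_le_prod
  · intro i _; positivity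
  · intro i _
    rw [div_le_div_iff₀ (by positivity) (by positivity)]
    push_cast
    have hi : (0 : ℚ) ≤ (i : ℚ) := by positivity
    nlinarith

lemma Q_mono' (m : ℕ) {a b : ℕ} (h : a ≤ b) : Q m a ≤ Q m b :=
  monotone_nat_of_le_succ (Q_mono m) h

/-- `C((m+1)(j+1), j+1) = (m+1) C((m+1) j, j) Q` -/
lemma c_succ (m j : ℕ) :
    ((((m + 1) * (j + 1)).choose (j + 1) : ℕ) : ℚ)
      = (m + 1) * (((m + 1) * j).choose j : ℚ) * Q m j := by
  have hQ : Q m j = ((((m + 1) * j + 1).ascFactorial m : ℕ) : ℚ) /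
      (((m * j + 1).ascFactorial m : ℕ) : ℚ) := by
    unfold Q
    rw [Finset.prod_div_distrib, Nat.ascFactorial_eq_prod_range, Nat.ascFactorial_eq_prod_range]
    push_cast
    rfl
  have h1 := Nat.choose_mul_factorial_mul_factorial
    (show j + 1 ≤ (m + 1) * (j + 1) by nlinarith)
  have h2 := Nat.choose_mul_factorial_mul_factorial (show j ≤ (m + 1) * j by nlinarith)
  have e1 : (m + 1) * (j + 1) - (j + 1) = m * j + m := by
    have : (m + 1) * (j + 1) = (m * j + m) + (j + 1) := by ring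
    omega
  have e2 : (m + 1) * j - j = m * j := by
    have : (m + 1) * j = m * j + j := by ring
    omega
  have e3 : (m + 1) * (j + 1) = ((m + 1) * j + m) + 1 := by ring
  rw [e1] at h1
  rw [e2] at h2
  have h3 := Nat.factorial_mul_ascFactorial (m * j) m
  have h4 := Nat.factorial_mul_ascFactorial ((m + 1) * j) m
  have h5 : ((m + 1) * (j + 1)).factorial = ((m + 1) * (j + 1)) * ((m + 1) * j + m).factorial := by
    rw [e3, Nat.factorial_succ]
  have h6 : (j + 1).factorial = (j + 1) * j.factorial := Nat.factorial_succ j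
  set X := ((m + 1) * (j + 1)).choose (j + 1) with hX
  set Y := ((m + 1) * j).choose j with hY
  set A := ((m + 1) * j + 1).ascFactorial m with hA
  set B := (m * j + 1).ascFactorial m with hB
  have hBpos : 0 < B := Nat.ascFactorial_pos _ _
  -- X * B = (m+1) * Y * A
  have key : X * B = (m + 1) * Y * A := by
    have hpos : 0 < (j + 1) * j.factorial * (m * j).factorial := by positivity
    apply Nat.eq_of_mul_eq_mul_left hpos
    have : (j + 1) * j.factorial * (m * j).factorial * (X * B)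
        = X * ((j + 1) * j.factorial) * ((m * j).factorial * B) := by ring
    rw [this, h3, ← h6, h1, h5, ← h4, ← h2, h6]
    ring
  rw [hQ]
  have hB0 : ((B : ℕ) : ℚ) ≠ 0 := by exact_mod_cast hBpos.ne'
  have key' : (X : ℚ) * B = (m + 1) * Y * A := by exact_mod_cast key
  field_simp
  linarith

lemma c_swap (m : ℕ) {k t : ℕ} (h : k ≤ t) :
    (((m + 1) * (k + 1)).choose (k + 1) : ℚ) * (((m + 1) * t).choose t : ℚ)
      ≤ (((m + 1) * k).choose k : ℚ) * (((m + 1) * (t + 1)).choose (t + 1) : ℚ) := by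
  rw [c_succ m k, c_succ m t]
  have hQ := Q_mono' m h
  have h1 : (0 : ℚ) ≤ (m + 1) * (((m + 1) * k).choose k : ℚ) * (((m + 1) * t).choose t : ℚ) := by
    positivity
  calc _ = ((m + 1) * (((m + 1) * k).choose k : ℚ) * (((m + 1) * t).choose t : ℚ)) * Q m k := by
        ring
    _ ≤ ((m + 1) * (((m + 1) * k).choose k : ℚ) * (((m + 1) * t).choose t : ℚ)) * Q m t :=
        mul_le_mul_of_nonneg_left hQ h1
    _ = _ := by ring

/-- reduce to `k = 2` -/
lemma c_to_two (m : ℕ) : ∀ k t : ℕ, k + 2 ≤ t →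
    (((m + 1) * (k + 2)).choose (k + 2) : ℚ) * (((m + 1) * t).choose t : ℚ)
      ≤ (((m + 1) * 2).choose 2 : ℚ) * (((m + 1) * (t + k)).choose (t + k) : ℚ) := by
  intro k
  induction k with
  | zero => intro t _; simp
  | succ k ih =>
    intro t ht
    have h1 := c_swap m (show k + 2 ≤ t by omega)
    have h2 := ih (t + 1) (by omega)
    have e : t + 1 + k = t + (k + 1) := by ring
    rw [e] at h2
    have e' : k + 1 + 2 = k + 2 + 1 := by ring
    rw [e']
    exact h1.trans h2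

lemma choose_three (n : ℕ) : (((n + 2).choose 3 : ℕ) : ℚ) = (n + 2) * (n + 1) * n / 6 := by
  have h1 := Nat.add_one_mul_choose_eq (n + 1) 2
  have h2 : (((n + 1 + 1) * (n + 1).choose 2 : ℕ) : ℚ) = (((n + 1 + 1).choose (2 + 1) * (2 + 1) : ℕ) : ℚ) := by
    rw [h1]
  push_cast [Nat.cast_choose_two] at h2
  have e : (((n + 2).choose 3 : ℕ) : ℚ) = ((n + 1 + 1).choose (2 + 1) : ℚ) := by norm_num
  rw [e]
  linarith

lemma choose_four (n : ℕ) :
    (((n + 3).choose 4 : ℕ) : ℚ) = (n + 3) * (n + 2) * (n + 1) * n / 24 := by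
  have h1 := Nat.add_one_mul_choose_eq (n + 2) 3
  have h2 : (((n + 2 + 1) * (n + 2).choose 3 : ℕ) : ℚ) = (((n + 2 + 1).choose (3 + 1) * (3 + 1) : ℕ) : ℚ) := by
    rw [h1]
  push_cast [choose_three] at h2
  have e : (((n + 3).choose 4 : ℕ) : ℚ) = ((n + 2 + 1).choose (3 + 1) : ℚ) := by norm_num
  rw [e]
  linarith

/-- `7 Q(m,1) ≤ 6 Q(m,3)` for `m ≥ 1` -/
lemma Q_one_three (m : ℕ) (hm : 1 ≤ m) : 7 * Q m 1 ≤ 6 * Q m 3 := by
  have h2 := c_succ m 1
  have h4 := c_succ m 3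
  have c1 : ((((m + 1) * 1).choose 1 : ℕ) : ℚ) = m + 1 := by simp
  have c2 : ((((m + 1) * (1 + 1)).choose (1 + 1) : ℕ) : ℚ) = (m + 1) * (2 * m + 1) := by
    have : (1 + 1 : ℕ) = 2 := rfl
    rw [this, Nat.cast_choose_two]
    push_cast
    ring
  have c3 : ((((m + 1) * 3).choose 3 : ℕ) : ℚ) = (m + 1) * (3 * m + 2) * (3 * m + 1) / 2 := by
    have : (m + 1) * 3 = (3 * m + 1) + 2 := by ring
    rw [this, choose_three]
    push_cast
    ring
  have c4 : ((((m + 1) * (3 + 1)).choose (3 + 1) : ℕ) : ℚ)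
      = (m + 1) * (4 * m + 3) * (2 * m + 1) * (4 * m + 1) / 3 := by
    have : (m + 1) * (3 + 1) = (4 * m + 1) + 3 := by ring
    rw [this]
    have := choose_four (4 * m + 1)
    have e : (((4 * m + 1 + 3).choose (3 + 1) : ℕ) : ℚ) = (((4 * m + 1 + 3).choose 4 : ℕ) : ℚ) := rfl
    rw [e, this]
    push_cast
    ring
  rw [c2, c1] at h2
  rw [c4, c3] at h4
  have hm0 : (0 : ℚ) < (m : ℚ) + 1 := by positivity
  have hm1 : (1 : ℚ) ≤ m := by exact_mod_cast hm
  have q1 : (m + 1 : ℚ) * Q m 1 = 2 * m + 1 := by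
    have : (m + 1 : ℚ) * ((m + 1) * Q m 1) = (m + 1) * (2 * m + 1) := by linarith
    exact mul_left_cancel₀ hm0.ne' this
  have q3 : (m + 1 : ℚ) * Q m 3 * ((3 * m + 2) * (3 * m + 1)) * 3
      = 2 * (4 * m + 3) * (2 * m + 1) * (4 * m + 1) := by
    have : (m + 1 : ℚ) * ((m + 1 : ℚ) * Q m 3 * ((3 * m + 2) * (3 * m + 1)) * 3)
      = (m + 1) * (2 * (4 * m + 3) * (2 * m + 1) * (4 * m + 1)) := by linarith
    exact mul_left_cancel₀ hm0.ne' this
  -- 7 (2m+1) * 3 (3m+2)(3m+1) ≤ 12 (4m+3)(2m+1)(4m+1)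
  have hmain : 7 * (2 * (m : ℚ) + 1) * (3 * ((3 * m + 2) * (3 * m + 1)))
      ≤ 6 * (2 * (4 * m + 3) * (2 * m + 1) * (4 * m + 1)) := by
    have : 0 ≤ (2 * (m : ℚ) + 1) * ((m : ℚ) ^ 2 + m - 2) := by
      apply mul_nonneg (by positivity)
      nlinarith
    nlinarith
  have hpos : (0 : ℚ) < (m + 1 : ℚ) * (3 * ((3 * m + 2) * (3 * m + 1))) := by positivity
  have : (m + 1 : ℚ) * (3 * ((3 * m + 2) * (3 * m + 1))) * (7 * Q m 1)
      ≤ (m + 1 : ℚ) * (3 * ((3 * m + 2) * (3 * m + 1))) * (6 * Q m 3) := by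
    calc _ = 7 * ((m + 1 : ℚ) * Q m 1) * (3 * ((3 * m + 2) * (3 * m + 1))) := by ring
      _ = 7 * (2 * (m : ℚ) + 1) * (3 * ((3 * m + 2) * (3 * m + 1))) := by rw [q1]
      _ ≤ 6 * (2 * (4 * m + 3) * (2 * m + 1) * (4 * m + 1)) := hmain
      _ = 6 * ((m + 1 : ℚ) * Q m 3 * ((3 * m + 2) * (3 * m + 1)) * 3) := by rw [q3]
      _ = _ := by ring
  exact le_of_mul_le_mul_left this hpos

/-- comparison of neighbouring `m` -/
lemma Q_step (m j : ℕ) (hm : 1 ≤ m) (hj : 1 ≤ j) : 8 * Q (m + 1) j ≤ 9 * Q m j := by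
  have hm1 : (1 : ℚ) ≤ m := by exact_mod_cast hm
  have hj1 : (1 : ℚ) ≤ j := by exact_mod_cast hj
  set x : ℚ := (j : ℚ) ^ 2 / ((m * j + m) * ((m + 2) * j + m)) with hx
  have hx0 : 0 ≤ x := by positivity
  -- factorwise comparison
  have hfac : ∀ i ∈ range m,
      (((m + 2) * j + 1 + i : ℚ) / ((m + 1) * j + 1 + i : ℚ)) * (1 + x)
        ≤ (((m + 1) * j + 1 + i : ℚ) / (m * j + 1 + i : ℚ)) := by
    intro i hi
    have him : (i : ℚ) + 1 ≤ m := by
      have : i + 1 ≤ m := by simpa using hi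
      exact_mod_cast this
    have hi0 : (0 : ℚ) ≤ i := by positivity
    have hx1 : x ≤ (j : ℚ) ^ 2 / ((m * j + 1 + i) * ((m + 2) * j + 1 + i)) := by
      rw [hx]
      apply div_le_div_of_nonneg_left (by positivity) (by positivity)
      apply mul_le_mul (by linarith) (by linarith) (by positivity) (by positivity)
    have hd1 : (0 : ℚ) < (m * j + 1 + i : ℚ) := by positivity
    have hd2 : (0 : ℚ) < ((m + 2) * j + 1 + i : ℚ) := by positivity
    have hd3 : (0 : ℚ) < ((m + 1) * j + 1 + i : ℚ) := by positivity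
    calc (((m + 2) * j + 1 + i : ℚ) / ((m + 1) * j + 1 + i : ℚ)) * (1 + x)
        ≤ (((m + 2) * j + 1 + i : ℚ) / ((m + 1) * j + 1 + i : ℚ)) *
          (1 + (j : ℚ) ^ 2 / ((m * j + 1 + i) * ((m + 2) * j + 1 + i))) := by
          apply mul_le_mul_of_nonneg_left _ (by positivity)
          linarith
      _ = (((m + 1) * j + 1 + i : ℚ) / (m * j + 1 + i : ℚ)) := by
          field_simp
          ring
  have hprod : (∏ i ∈ range m, (((m + 2) * j + 1 + i : ℚ) / ((m + 1) * j + 1 + i : ℚ))) *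
      (1 + x) ^ m ≤ Q m j := by
    have h0 : (∏ i ∈ range m, (((m + 2) * j + 1 + i : ℚ) / ((m + 1) * j + 1 + i : ℚ))) *
      (1 + x) ^ m = ∏ i ∈ range m,
        ((((m + 2) * j + 1 + i : ℚ) / ((m + 1) * j + 1 + i : ℚ)) * (1 + x)) := by
      rw [Finset.prod_mul_distrib, Finset.prod_const, Finset.card_range]
    rw [h0]
    unfold Q
    apply Finset.prod_le_prod
    · intro i _; positivity
    · exact hfac
  have hbern : 1 + (m : ℚ) * x ≤ (1 + x) ^ m := one_add_mul_le_pow (by linarith) m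
  set Pr : ℚ := ∏ i ∈ range m, (((m + 2) * j + 1 + i : ℚ) / ((m + 1) * j + 1 + i : ℚ)) with hPr
  have hPr0 : 0 ≤ Pr := by
    rw [hPr]
    apply Finset.prod_nonneg
    intro i _
    positivity
  have hQ1 : Q (m + 1) j = Pr * (((m + 2) * j + 1 + m : ℚ) / ((m + 1) * j + 1 + m : ℚ)) := by
    unfold Q
    rw [Finset.prod_range_succ, hPr]
    push_cast
    congr 1
    · apply Finset.prod_congr rfl
      intro i _
      congr 1
      ring
    · congr 1
      ring
  have hQm : Pr * (1 + (m : ℚ) * x) ≤ Q m j :=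
    (mul_le_mul_of_nonneg_left hbern hPr0).trans hprod
  have hfin : 8 * (((m + 2) * j + 1 + m : ℚ) / ((m + 1) * j + 1 + m : ℚ)) ≤ 9 * (1 + (m : ℚ) * x) := by
    have hmx : (m : ℚ) * x = (j : ℚ) ^ 2 / ((j + 1) * ((m + 2) * j + m)) := by
      rw [hx]
      field_simp
    rw [hmx]
    have e : ((m + 1) * j + 1 + m : ℚ) = (m + 1) * (j + 1) := by ring
    rw [e]
    have e2 : 9 * (1 + (j : ℚ) ^ 2 / ((j + 1) * ((m + 2) * j + m)))
        = (9 * ((j + 1) * ((m + 2) * j + m) + (j : ℚ) ^ 2)) / ((j + 1) * ((m + 2) * j + m)) := by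
      field_simp
    have e3 : 8 * (((m + 2) * j + 1 + m : ℚ) / ((m + 1) * (j + 1)))
        = (8 * ((m + 2) * j + 1 + m)) / ((m + 1) * (j + 1)) := by ring
    rw [e2, e3, div_le_div_iff₀ (by positivity) (by positivity)]
    have hj0 : (0 : ℚ) < (j : ℚ) + 1 := by positivity
    have hk : 8 * ((m + 2) * (j : ℚ) + 1 + m) * ((m + 2) * j + m)
        ≤ 9 * ((j + 1) * ((m + 2) * j + m) + (j : ℚ) ^ 2) * (m + 1) := by
      have a1 : 0 ≤ ((m : ℚ) - 1) * (m + 5) * (j : ℚ) ^ 2 := by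
        have : (0 : ℚ) ≤ (m : ℚ) - 1 := by linarith
        positivity
      have a2 : 0 ≤ 2 * ((m : ℚ) - 1) ^ 2 * j := by positivity
      have a3 : 0 ≤ (m : ℚ) * (m + 1) := by positivity
      nlinarith
    calc 8 * ((m + 2) * (j : ℚ) + 1 + m) * ((j + 1) * ((m + 2) * j + m))
        = (8 * ((m + 2) * (j : ℚ) + 1 + m) * ((m + 2) * j + m)) * (j + 1) := by ring
      _ ≤ (9 * ((j + 1) * ((m + 2) * j + m) + (j : ℚ) ^ 2) * (m + 1)) * (j + 1) :=
          mul_le_mul_of_nonneg_right hk hj0.le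
      _ = _ := by ring
  calc 8 * Q (m + 1) j = Pr * (8 * (((m + 2) * j + 1 + m : ℚ) / ((m + 1) * j + 1 + m : ℚ))) := by
        rw [hQ1]; ring
    _ ≤ Pr * (9 * (1 + (m : ℚ) * x)) := mul_le_mul_of_nonneg_left hfin hPr0
    _ = 9 * (Pr * (1 + (m : ℚ) * x)) := by ring
    _ ≤ 9 * Q m j := by linarith

/-- the normalised construction count decreases in `n` -/
lemma w_dec (l r n : ℕ) (hr : 1 ≤ r) (hn : l * r ≤ n) (hlr : l + r ≤ n + 1) : ∀ d : ℕ,
    ((n + d - l).choose (r - 1) : ℚ) * (n.choose r : ℚ)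
      ≤ ((n - l).choose (r - 1) : ℚ) * ((n + d).choose r : ℚ) := by
  have hln : l ≤ n := by nlinarith
  have hrn : r - 1 ≤ n - l := by omega
  intro d
  induction d with
  | zero => simp
  | succ d ih =>
    have h1 := absorb (n + d - l + 1) (r - 1)
    have h2 := absorb (n + d + 1) r
    simp only [Nat.add_sub_cancel] at h1 h2
    have e1 : n + (d + 1) - l = n + d - l + 1 := by omega
    have e2 : n + (d + 1) = n + d + 1 := rfl
    rw [e1, e2]
    have c1 : ((n + d - l + 1 : ℕ) : ℚ) = (n : ℚ) + d + 1 - l := by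
      have : n + d - l + 1 + l = n + d + 1 := by omega
      have h : ((n + d - l + 1 + l : ℕ) : ℚ) = ((n + d + 1 : ℕ) : ℚ) := by rw [this]
      push_cast at h ⊢
      linarith
    have c2 : ((r - 1 : ℕ) : ℚ) = (r : ℚ) - 1 := by push_cast [Nat.cast_sub hr]; ring
    have c3 : ((n + d + 1 : ℕ) : ℚ) = (n : ℚ) + d + 1 := by push_cast; ring
    rw [c1, c2] at h1
    rw [c3] at h2
    have hA : (0 : ℚ) < (n : ℚ) + d + 1 - l - (r - 1) := by
      have : ((l + r : ℕ) : ℚ) ≤ ((n + 1 : ℕ) : ℚ) := by exact_mod_cast hlr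
      push_cast at this
      have : (0 : ℚ) ≤ d := by positivity
      linarith
    have hrn' : (r : ℚ) ≤ n + 1 := by
      have : r ≤ n + 1 := by omega
      exact_mod_cast this
    have hlrq : (l : ℚ) * r ≤ n := by exact_mod_cast hn
    have hlq : (l : ℚ) ≤ n := by exact_mod_cast hln
    have hd0 : (0 : ℚ) ≤ d := by positivity
    rcases (show r ≤ n + d ∨ n + d < r from le_or_gt _ _) with hcase | hcase
    · have hB : (0 : ℚ) < (n : ℚ) + d + 1 - r := by
        have : ((r : ℕ) : ℚ) ≤ ((n + d : ℕ) : ℚ) := by exact_mod_cast hcase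
        push_cast at this
        linarith
      have key : ((n : ℚ) + d + 1 - l) * ((n : ℚ) + d + 1 - r)
          ≤ ((n : ℚ) + d + 1 - l - (r - 1)) * (n + d + 1) := by nlinarith
      have hpos : 0 < ((n : ℚ) + d + 1 - l - (r - 1)) * ((n : ℚ) + d + 1 - r) := mul_pos hA hB
      have hll : (0 : ℚ) ≤ (n : ℚ) + d + 1 - l := by linarith
      refine le_of_mul_le_mul_left ?_ hpos
      calc ((n : ℚ) + d + 1 - l - (r - 1)) * ((n : ℚ) + d + 1 - r) *
            (((n + d - l + 1).choose (r - 1) : ℚ) * (n.choose r : ℚ))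
          = (((n : ℚ) + d + 1 - l - (r - 1)) * ((n + d - l + 1).choose (r - 1) : ℚ)) *
            ((n : ℚ) + d + 1 - r) * (n.choose r : ℚ) := by ring
        _ = (((n : ℚ) + d + 1 - l) * ((n + d - l).choose (r - 1) : ℚ)) *
            ((n : ℚ) + d + 1 - r) * (n.choose r : ℚ) := by rw [h1]
        _ = (((n : ℚ) + d + 1 - l) * ((n : ℚ) + d + 1 - r)) *
            (((n + d - l).choose (r - 1) : ℚ) * (n.choose r : ℚ)) := by ring
        _ ≤ (((n : ℚ) + d + 1 - l - (r - 1)) * (n + d + 1)) *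
            (((n - l).choose (r - 1) : ℚ) * ((n + d).choose r : ℚ)) := by
            apply mul_le_mul key ih (by positivity)
            exact mul_nonneg hA.le (by positivity)
        _ = ((n : ℚ) + d + 1 - l - (r - 1)) * ((n - l).choose (r - 1) : ℚ) *
            (((n : ℚ) + d + 1) * ((n + d).choose r : ℚ)) := by ring
        _ = ((n : ℚ) + d + 1 - l - (r - 1)) * ((n - l).choose (r - 1) : ℚ) *
            (((n : ℚ) + d + 1 - r) * ((n + d + 1).choose r : ℚ)) := by rw [h2]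
        _ = _ := by ring
    · have : n.choose r = 0 := Nat.choose_eq_zero_of_lt (by omega)
      rw [this]
      simp
      positivity

/-- the extremal number of the construction -/
def f (n r : ℕ) : ℕ := (n - n / r).choose (r - 1) * (n / r)

/-- for `2 ≤ k ≤ t`, `k + t = r ≥ 5` -/
lemma main_big {r n k t p q : ℕ} (hr : 5 ≤ r) (hn : 2 * r ≤ n) (hkt : k + t = r)
    (hk : 2 ≤ k) (ht : k ≤ t) (hpq : p + q = n) :
    (p.choose k : ℚ) * (q.choose t : ℚ) ≤ (f n r : ℚ) := by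
  obtain ⟨m, hm⟩ : ∃ m, n / r = m + 1 := ⟨n / r - 1, by
    have : 1 ≤ n / r := by
      rw [Nat.le_div_iff_mul_le (by omega)]; omega
    omega⟩
  have hm2 : 2 ≤ n / r := by
    rw [Nat.le_div_iff_mul_le (by omega)]; omega
  have hm1 : 1 ≤ m := by omega
  have hle : (m + 1) * r ≤ n := by
    rw [← hm]; exact Nat.div_mul_le_self n r
  have hlt : n < (m + 2) * r := by
    have h2 : n / r < m + 2 := by omega
    exact (Nat.div_lt_iff_lt_mul (by omega)).1 h2
  obtain ⟨d, hd⟩ : ∃ d, n = (m + 1) * r + d := ⟨n - (m + 1) * r, by omega⟩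
  subst hkt
  set r := k + t with hrdef
  -- step 1
  have s1 := grow (n0 := (m + 1) * r) (k := k) (t := t)
    (show k + t ≤ (m + 1) * r by nlinarith)
    (M := (((m + 1) * k).choose k : ℚ) * (((m + 1) * t).choose t : ℚ))
    (fun p q h => mode (m + 1) k t (by omega) p q h) d p q (by omega)
  rw [← hrdef, ← hd] at s1
  -- step 2: reduction to k = 2
  have s2 : (((m + 1) * k).choose k : ℚ) * (((m + 1) * t).choose t : ℚ)
      ≤ (((m + 1) * 2).choose 2 : ℚ) * (((m + 1) * (r - 2)).choose (r - 2) : ℚ) := by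
    have := c_to_two m (k - 2) t (by omega)
    have e1 : k - 2 + 2 = k := by omega
    have e2 : t + (k - 2) = r - 2 := by omega
    rw [e1, e2] at this
    exact this
  -- step 3: 7 c_2 c_{r-2} ≤ 6 c_1 c_{r-1}
  have s3 : 7 * ((((m + 1) * 2).choose 2 : ℚ) * (((m + 1) * (r - 2)).choose (r - 2) : ℚ))
      ≤ 6 * ((m + 1) * (((m + 1) * (r - 1)).choose (r - 1) : ℚ)) := by
    have h1 := c_succ m 1
    have h2 := c_succ m (r - 2)
    have e : r - 2 + 1 = r - 1 := by omega
    rw [e] at h2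
    have e' : (1 + 1 : ℕ) = 2 := rfl
    rw [e'] at h1
    rw [h1, h2]
    simp only [Nat.mul_one, Nat.choose_one_right]
    push_cast
    have h3 := Q_one_three m hm1
    have h4 := Q_mono' m (show 3 ≤ r - 2 by omega)
    have h5 : (0 : ℚ) ≤ (m + 1) * (m + 1) * (((m + 1) * (r - 2)).choose (r - 2) : ℚ) := by
      positivity
    calc 7 * (((m : ℚ) + 1) * (m + 1) * Q m 1 * (((m + 1) * (r - 2)).choose (r - 2) : ℚ))
        = ((m + 1) * (m + 1) * (((m + 1) * (r - 2)).choose (r - 2) : ℚ)) * (7 * Q m 1) := by ring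
      _ ≤ ((m + 1) * (m + 1) * (((m + 1) * (r - 2)).choose (r - 2) : ℚ)) * (6 * Q m (r - 2)) := by
          apply mul_le_mul_of_nonneg_left _ h5
          linarith
      _ = _ := by ring
  -- step 4: C(l r, r) = l c_{r-1} Q(m, r-1)
  have s4 : ((((m + 1) * r).choose r : ℕ) : ℚ)
      = (m + 1) * (((m + 1) * (r - 1)).choose (r - 1) : ℚ) * Q m (r - 1) := by
    have h := c_succ m (r - 1)
    have e : r - 1 + 1 = r := by omega
    rw [e] at h
    exact h
  have hc0 : (0 : ℚ) < (m + 1) * (((m + 1) * (r - 1)).choose (r - 1) : ℚ) := by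
    have : 0 < ((m + 1) * (r - 1)).choose (r - 1) := Nat.choose_pos (by nlinarith)
    positivity
  -- combined: H Q(m, r-1) ≤ (6/7) C(n, r)
  have s5 : 7 * ((p.choose k : ℚ) * (q.choose t : ℚ) * Q m (r - 1)) ≤ 6 * (n.choose r : ℚ) := by
    refine le_of_mul_le_mul_left ?_ hc0
    calc (m + 1) * (((m + 1) * (r - 1)).choose (r - 1) : ℚ) *
          (7 * ((p.choose k : ℚ) * (q.choose t : ℚ) * Q m (r - 1)))
        = 7 * ((p.choose k : ℚ) * (q.choose t : ℚ) *
          ((m + 1) * (((m + 1) * (r - 1)).choose (r - 1) : ℚ) * Q m (r - 1))) := by ring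
      _ = 7 * ((p.choose k : ℚ) * (q.choose t : ℚ) * ((((m + 1) * r).choose r : ℕ) : ℚ)) := by
          rw [s4]
      _ ≤ 7 * ((((m + 1) * k).choose k : ℚ) * (((m + 1) * t).choose t : ℚ) * (n.choose r : ℚ)) := by
          linarith
      _ ≤ (7 * ((((m + 1) * 2).choose 2 : ℚ) * (((m + 1) * (r - 2)).choose (r - 2) : ℚ))) *
            (n.choose r : ℚ) := by
          have := mul_le_mul_of_nonneg_right s2 (by positivity : (0 : ℚ) ≤ (n.choose r : ℚ))
          linarith
      _ ≤ (6 * ((m + 1) * (((m + 1) * (r - 1)).choose (r - 1) : ℚ))) * (n.choose r : ℚ) :=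
          mul_le_mul_of_nonneg_right s3 (by positivity)
      _ = _ := by ring
  -- step 6: C(n, r) ≤ f Q(m+1, r-1)
  have s6 : (n.choose r : ℚ) ≤ (f n r : ℚ) * Q (m + 1) (r - 1) := by
    have hw := w_dec (m + 1) r n (by omega) hle (by nlinarith) ((m + 2) * r - 1 - n)
    have e1 : n + ((m + 2) * r - 1 - n) = (m + 2) * r - 1 := by omega
    rw [e1] at hw
    have e2 : (m + 2) * r - 1 - (m + 1) = (m + 2) * (r - 1) := by
      obtain ⟨s, hs⟩ : ∃ s, r = s + 1 := ⟨r - 1, by omega⟩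
      rw [hs]
      have : (m + 2) * (s + 1) = (m + 2) * s + (m + 2) := by ring
      simp only [Nat.add_sub_cancel]
      omega
    rw [e2] at hw
    have hab := absorb ((m + 2) * r) r
    have h8 := c_succ (m + 1) (r - 1)
    have e3 : r - 1 + 1 = r := by omega
    rw [e3] at h8
    have e4 : m + 1 + 1 = m + 2 := rfl
    rw [e4] at h8
    push_cast at hab h8
    -- (m+2) r C((m+2) r - 1, r) = (m+1) r C((m+2) r, r)
    have hr0 : (0 : ℚ) < (r : ℚ) := by
      have : 0 < r := by omega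
      exact_mod_cast this
    have h9 : ((m : ℚ) + 2) * (((m + 2) * r - 1).choose r : ℚ) = (m + 1) * (((m + 2) * r).choose r : ℚ) := by
      have : (r : ℚ) * (((m : ℚ) + 2) * (((m + 2) * r - 1).choose r : ℚ))
          = r * ((m + 1) * (((m + 2) * r).choose r : ℚ)) := by linarith
      exact mul_left_cancel₀ hr0.ne' this
    have hf : (f n r : ℚ) = (m + 1) * ((n - (m + 1)).choose (r - 1) : ℚ) := by
      unfold f
      rw [hm]
      push_cast
      ring
    rw [hf]
    have hc1 : (0 : ℚ) < (((m + 2) * (r - 1)).choose (r - 1) : ℚ) := by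
      have : 0 < ((m + 2) * (r - 1)).choose (r - 1) := Nat.choose_pos (by nlinarith)
      exact_mod_cast this
    have hm20 : (0 : ℚ) < (m : ℚ) + 2 := by positivity
    refine le_of_mul_le_mul_left ?_ (mul_pos hm20 hc1)
    calc ((m : ℚ) + 2) * (((m + 2) * (r - 1)).choose (r - 1) : ℚ) * (n.choose r : ℚ)
        = (m + 2) * ((((m + 2) * (r - 1)).choose (r - 1) : ℚ) * (n.choose r : ℚ)) := by ring
      _ ≤ (m + 2) * (((n - (m + 1)).choose (r - 1) : ℚ) * (((m + 2) * r - 1).choose r : ℚ)) :=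
          mul_le_mul_of_nonneg_left hw hm20.le
      _ = ((n - (m + 1)).choose (r - 1) : ℚ) * ((m + 2) * (((m + 2) * r - 1).choose r : ℚ)) := by
          ring
      _ = ((n - (m + 1)).choose (r - 1) : ℚ) * ((m + 1) * (((m + 2) * r).choose r : ℚ)) := by
          rw [h9]
      _ = _ := by rw [h8]; ring
  have s7 := Q_step m (r - 1) hm1 (by omega)
  have hQ := Q_pos m (r - 1)
  have hf0 : (0 : ℚ) ≤ (f n r : ℚ) := by positivity
  have s8 : (p.choose k : ℚ) * (q.choose t : ℚ) * Q m (r - 1) ≤ (f n r : ℚ) * Q m (r - 1) := by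
    have := mul_le_mul_of_nonneg_left s7 hf0
    have h10 := mul_nonneg hf0 hQ.le
    nlinarith
  exact le_of_mul_le_mul_right s8 hQ

/-- the case `r = 4`, `k = t = 2` -/
lemma main_four {n p q : ℕ} (hn : 4 ≤ n) (hpq : p + q = n) :
    (p.choose 2 : ℚ) * (q.choose 2 : ℚ) ≤ (f n 4 : ℚ) := by
  obtain ⟨m, b, hb, hm⟩ : ∃ m b, b < 4 ∧ n = 4 * m + b := ⟨n / 4, n % 4, Nat.mod_lt _ (by norm_num),
    (Nat.div_add_mod n 4).symm⟩
  have hm1 : 1 ≤ m := by omega
  have hdiv : n / 4 = m := by omega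
  have hf : (f n 4 : ℚ) = ((n - m).choose 3 : ℚ) * m := by
    unfold f
    rw [hdiv]
    push_cast
    rfl
  rw [hf]
  have e : n - m = (3 * m + b - 2) + 2 := by omega
  rw [e, choose_three, Nat.cast_choose_two, Nat.cast_choose_two]
  have hc : ((3 * m + b - 2 : ℕ) : ℚ) = 3 * m + b - 2 := by
    rw [Nat.cast_sub (by omega)]; push_cast; ring
  rw [hc]
  have hpq' : (p : ℚ) + q = 4 * m + b := by
    have : p + q = 4 * m + b := by omega
    exact_mod_cast this
  have hmq : (1 : ℚ) ≤ m := by exact_mod_cast hm1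
  -- integer inequality on the product
  rcases Nat.eq_zero_or_pos p with hp | hp
  · subst hp
    simp only [Nat.cast_zero, zero_mul, zero_div]
    have : (0 : ℚ) ≤ 3 * m + b - 2 := by
      have : (0 : ℚ) ≤ b := by positivity
      linarith
    positivity
  rcases Nat.eq_zero_or_pos q with hq | hq
  · subst hq
    simp only [Nat.cast_zero, zero_mul, zero_div, mul_zero]
    have : (0 : ℚ) ≤ 3 * m + b - 2 := by
      have : (0 : ℚ) ≤ b := by positivity
      linarith
    positivity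
  have hp1 : (1 : ℚ) ≤ p := by exact_mod_cast hp
  have hq1 : (1 : ℚ) ≤ q := by exact_mod_cast hq
  have hy0 : 0 ≤ ((p : ℚ) - 1) * (q - 1) := mul_nonneg (by linarith) (by linarith)
  have hx0 : 0 ≤ (p : ℚ) * q := by positivity
  have hodd : b % 2 = 1 → (1 : ℚ) ≤ ((p : ℚ) - q) ^ 2 := by
    intro hbo
    have hne : (p : ℤ) - q ≠ 0 := by omega
    have : (1 : ℤ) ≤ ((p : ℤ) - q) ^ 2 := by
      have := sq_nonneg ((p : ℤ) - q)
      have h2 : ((p : ℤ) - q) ^ 2 ≠ 0 := pow_ne_zero _ hne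
      omega
    exact_mod_cast this
  have fin : ∀ X : ℚ, (p : ℚ) * q ≤ X →
      X * (X - (4 * m + b) + 1) ≤ 4 * ((3 * m + b - 2 + 2) * (3 * m + b - 2 + 1) * (3 * m + b - 2) / 6 * m) →
      (p : ℚ) * (p - 1) / 2 * (q * (q - 1) / 2)
        ≤ (3 * m + b - 2 + 2) * (3 * m + b - 2 + 1) * (3 * m + b - 2) / 6 * m := by
    intro X hX hfX
    have e1 : ((p : ℚ) - 1) * (q - 1) = (p : ℚ) * q - (4 * m + b) + 1 := by
      rw [← hpq']; ring
    have e2 : (p : ℚ) * (p - 1) / 2 * (q * (q - 1) / 2) = ((p : ℚ) * q) * (((p : ℚ) - 1) * (q - 1)) / 4 := by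
      ring
    have h3 : ((p : ℚ) * q) * (((p : ℚ) - 1) * (q - 1)) ≤ X * (X - (4 * m + b) + 1) := by
      apply mul_le_mul hX _ hy0 (hx0.trans hX)
      rw [e1]; linarith
    rw [e2]
    linarith
  have hsq : 4 * ((p : ℚ) * q) = (4 * m + b) ^ 2 - ((p : ℚ) - q) ^ 2 := by
    rw [← hpq']; ring
  have hsq0 := sq_nonneg ((p : ℚ) - q)
  interval_cases b
  · apply fin (4 * (m : ℚ) ^ 2)
    · push_cast at hsq; nlinarith
    · push_cast
      have : 0 ≤ (m : ℚ) ^ 3 * (m - 1) := mul_nonneg (by positivity) (by linarith)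
      nlinarith
  · apply fin (4 * (m : ℚ) ^ 2 + 2 * m)
    · have := hodd rfl
      push_cast at hsq; nlinarith
    · push_cast
      have h1 : 0 ≤ (m : ℚ) ^ 4 := by positivity
      have h2 : 0 ≤ (m : ℚ) ^ 2 := by positivity
      nlinarith
  · apply fin (4 * (m : ℚ) ^ 2 + 4 * m + 1)
    · push_cast at hsq; nlinarith
    · push_cast
      have h1 : 0 ≤ (m : ℚ) ^ 4 := by positivity
      have h2 : 0 ≤ (m : ℚ) ^ 3 := by positivity
      nlinarith
  · apply fin (4 * (m : ℚ) ^ 2 + 6 * m + 2)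
    · have := hodd rfl
      push_cast at hsq; nlinarith
    · push_cast
      have h1 : 0 ≤ (m : ℚ) ^ 4 := by positivity
      have h2 : 0 ≤ (m : ℚ) ^ 3 := by positivity
      nlinarith

end Pool.Agent.R798.RatSum
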