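import Mathlib
import Pool.Agent.R798.RatSumB

/-!
# The arithmetic inequality for MP_604c02_co, third part
-/

namespace Pool.Agent.R798.RatSum

open Finset

lemma step_up {n p s : ℕ} (hp : p < n) (h : (p + 1) * (s + 1) ≤ n + 1) :
    p * (n - p).choose s ≤ (p + 1) * (n - (p + 1)).choose s := by
  have hab := absorb (n - p) s
  have e : n - p - 1 = n - (p + 1) := by omega
  rw [e] at hab
  have hnp : ((n - p : ℕ) : ℚ) = n - p := by rw [Nat.cast_sub hp.le]
  rw [hnp] at hab
  have hpos : (0 : ℚ) < (n : ℚ) - p := by
    have : (p : ℚ) < n := by exact_mod_cast hp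
    linarith
  have hq : ((p : ℚ) + 1) * (s + 1) ≤ n + 1 := by exact_mod_cast h
  have : (p : ℚ) * ((n - p).choose s : ℚ) ≤ (p + 1) * ((n - (p + 1)).choose s : ℚ) := by
    refine le_of_mul_le_mul_left ?_ hpos
    calc ((n : ℚ) - p) * (p * ((n - p).choose s : ℚ))
        = (((n : ℚ) - p) * p) * ((n - p).choose s : ℚ) := by ring
      _ ≤ ((p + 1) * ((n : ℚ) - p - s)) * ((n - p).choose s : ℚ) := by
          apply mul_le_mul_of_nonneg_right _ (by positivity)
          nlinarith
      _ = (p + 1) * (((n : ℚ) - p - s) * ((n - p).choose s : ℚ)) := by ring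
      _ = (p + 1) * (((n : ℚ) - p) * ((n - (p + 1)).choose s : ℚ)) := by rw [hab]
      _ = _ := by ring
  exact_mod_cast this

lemma step_down {n p s : ℕ} (hp : p < n) (h : n + 1 ≤ (p + 1) * (s + 1)) :
    (p + 1) * (n - (p + 1)).choose s ≤ p * (n - p).choose s := by
  have hab := absorb (n - p) s
  have e : n - p - 1 = n - (p + 1) := by omega
  rw [e] at hab
  have hnp : ((n - p : ℕ) : ℚ) = n - p := by rw [Nat.cast_sub hp.le]
  rw [hnp] at hab
  have hpos : (0 : ℚ) < (n : ℚ) - p := by
    have : (p : ℚ) < n := by exact_mod_cast hp
    linarith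
  have hq : (n : ℚ) + 1 ≤ (p + 1) * (s + 1) := by exact_mod_cast h
  have : ((p : ℚ) + 1) * ((n - (p + 1)).choose s : ℚ) ≤ p * ((n - p).choose s : ℚ) := by
    refine le_of_mul_le_mul_left ?_ hpos
    calc ((n : ℚ) - p) * ((p + 1) * ((n - (p + 1)).choose s : ℚ))
        = (p + 1) * (((n : ℚ) - p) * ((n - (p + 1)).choose s : ℚ)) := by ring
      _ = (p + 1) * (((n : ℚ) - p - s) * ((n - p).choose s : ℚ)) := by rw [hab]
      _ = ((p + 1) * ((n : ℚ) - p - s)) * ((n - p).choose s : ℚ) := by ring
      _ ≤ (((n : ℚ) - p) * p) * ((n - p).choose s : ℚ) := by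
          apply mul_le_mul_of_nonneg_right _ (by positivity)
          nlinarith
      _ = _ := by ring
  exact_mod_cast this

lemma main_one {n r p : ℕ} (hr : 1 ≤ r) (hp : p ≤ n) :
    p * (n - p).choose (r - 1) ≤ f n r := by
  have hf : f n r = (n / r) * (n - n / r).choose (r - 1) := by
    unfold f; ring
  rw [hf]
  set l := n / r with hl
  have hlr : l * r ≤ n := Nat.div_mul_le_self n r
  have hlt : n < (l + 1) * r := by
    have : n / r < l + 1 := by omega
    exact (Nat.div_lt_iff_lt_mul hr).1 this
  have er : r - 1 + 1 = r := by omega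
  rcases Nat.le_total p l with hpl | hpl
  · -- increasing part
    have key : ∀ d, d ≤ l → (l - d) * (n - (l - d)).choose (r - 1)
        ≤ l * (n - l).choose (r - 1) := by
      intro d
      induction d with
      | zero => intro _; simp
      | succ d ih =>
        intro hd
        have h1 := ih (by omega)
        have h2 : (l - (d + 1)) * (n - (l - (d + 1))).choose (r - 1)
            ≤ (l - (d + 1) + 1) * (n - (l - (d + 1) + 1)).choose (r - 1) := by
          apply step_up
          · have : l ≤ n := Nat.div_le_self n r
            omega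
          · rw [er]
            have : l - (d + 1) + 1 ≤ l := by omega
            have := Nat.mul_le_mul_right r this
            omega
        have e : l - (d + 1) + 1 = l - d := by omega
        rw [e] at h2
        exact h2.trans h1
    have := key (l - p) (Nat.sub_le _ _)
    have e : l - (l - p) = p := by omega
    rw [e] at this
    exact this
  · -- decreasing part
    induction p, hpl using Nat.le_induction with
    | base => exact le_refl _
    | succ p hpl ih =>
      refine (step_down (by omega) ?_).trans (ih (by omega))
      rw [er]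
      have : l + 1 ≤ p + 1 := by omega
      have := Nat.mul_le_mul_right r this
      omega

/-- The arithmetic inequality. -/
theorem arith {n r k t p q : ℕ} (hr : 4 ≤ r) (hn : 2 * r ≤ n) (hk : 1 ≤ k) (ht : 1 ≤ t)
    (hkt : k + t = r) (hpq : p + q = n) : p.choose k * q.choose t ≤ f n r := by
  rcases Nat.eq_or_lt_of_le hk with h1 | h1
  · subst h1
    have e : t = r - 1 := by omega
    have e2 : q = n - p := by omega
    rw [Nat.choose_one_right, e, e2]
    exact main_one (by omega) (by omega)
  rcases Nat.eq_or_lt_of_le ht with h2 | h2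
  · subst h2
    have e : k = r - 1 := by omega
    have e2 : p = n - q := by omega
    rw [Nat.choose_one_right, e, e2, Nat.mul_comm]
    exact main_one (by omega) (by omega)
  rcases Nat.eq_or_lt_of_le hr with h4 | h4
  · subst h4
    have ek : k = 2 := by omega
    have et : t = 2 := by omega
    subst ek et
    have := main_four (n := n) (p := p) (q := q) (by omega) hpq
    exact_mod_cast this
  · rcases Nat.le_total k t with h | h
    · have := main_big (r := r) (n := n) (k := k) (t := t) (p := p) (q := q) h4 hn hkt h1 h hpq
      exact_mod_cast this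
    · have := main_big (r := r) (n := n) (k := t) (t := k) (p := q) (q := p) h4 hn (by omega)
        h2 h (by omega)
      rw [Nat.mul_comm]
      exact_mod_cast this

end Pool.Agent.R798.RatSum
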