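import Mathlib
import Pool.Agent.R798.RatSumC

/-!
# Rational `r`-term sums: the combinatorial bound and the construction
-/

namespace Pool.Agent.R798.RatSum

open Finset

variable {α : Type*} [DecidableEq α]

/-- positive part of a finite set -/
def pos (s : α → ℚ) (B : Finset α) : Finset α := B.filter (fun b => 0 < s b)
/-- negative part of a finite set -/
def neg (s : α → ℚ) (B : Finset α) : Finset α := B.filter (fun b => s b < 0)

lemma pos_disj_neg (s : α → ℚ) (B : Finset α) : Disjoint (pos s B) (neg s B) := by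
  rw [Finset.disjoint_left]
  intro x hx hy
  have h1 := (mem_filter.1 hx).2
  have h2 := (mem_filter.1 hy).2
  exact absurd h1 (not_lt.2 h2.le)

lemma pos_union_neg {s : α → ℚ} {B : Finset α} (h : ∀ b ∈ B, s b ≠ 0) :
    pos s B ∪ neg s B = B := by
  ext x
  simp only [pos, neg, mem_union, mem_filter]
  constructor
  · rintro (h1 | h1) <;> exact h1.1
  · intro hx
    rcases lt_trichotomy (s x) 0 with h1 | h1 | h1
    · exact Or.inr ⟨hx, h1⟩
    · exact absurd h1 (h x hx)
    · exact Or.inl ⟨hx, h1⟩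

lemma card_pos_add_neg {s : α → ℚ} {B : Finset α} (h : ∀ b ∈ B, s b ≠ 0) :
    (pos s B).card + (neg s B).card = B.card := by
  rw [← card_union_of_disjoint (pos_disj_neg s B), pos_union_neg h]

lemma sum_pos_add_neg {s : α → ℚ} {B : Finset α} (h : ∀ b ∈ B, s b ≠ 0) :
    ∑ b ∈ pos s B, s b + ∑ b ∈ neg s B, s b = ∑ b ∈ B, s b := by
  rw [← sum_union (pos_disj_neg s B), pos_union_neg h]

/-- the key exclusion -/
lemma exclusion {s : α → ℚ} {B B' : Finset α} (h : ∀ b ∈ B, s b ≠ 0) (h' : ∀ b ∈ B', s b ≠ 0)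
    (h0 : ∑ b ∈ B, s b = 0) (h0' : ∑ b ∈ B', s b = 0)
    (hp : pos s B ⊆ pos s B') (hn : neg s B' ⊆ neg s B) : B = B' := by
  have e1 := sum_pos_add_neg h
  have e2 := sum_pos_add_neg h'
  rw [h0] at e1
  rw [h0'] at e2
  have d1 := sum_sdiff (f := s) hp
  have d2 := sum_sdiff (f := s) hn
  have n1 : 0 ≤ ∑ b ∈ pos s B' \ pos s B, s b := by
    apply sum_nonneg
    intro b hb
    exact (mem_filter.1 (mem_sdiff.1 hb).1).2.le
  have n2 : ∑ b ∈ neg s B \ neg s B', s b ≤ 0 := by
    apply sum_nonpos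
    intro b hb
    exact (mem_filter.1 (mem_sdiff.1 hb).1).2.le
  have z1 : ∑ b ∈ pos s B' \ pos s B, s b = 0 := by linarith
  have z2 : ∑ b ∈ neg s B \ neg s B', s b = 0 := by linarith
  have y1 : pos s B' \ pos s B = ∅ := by
    by_contra hne
    have hne' := nonempty_iff_ne_empty.2 hne
    have : 0 < ∑ b ∈ pos s B' \ pos s B, s b := by
      apply sum_pos _ hne'
      intro b hb
      exact (mem_filter.1 (mem_sdiff.1 hb).1).2
    linarith
  have y2 : neg s B \ neg s B' = ∅ := by
    by_contra hne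
    have hne' := nonempty_iff_ne_empty.2 hne
    have : ∑ b ∈ neg s B \ neg s B', s b < 0 := by
      apply sum_neg _ hne'
      intro b hb
      exact (mem_filter.1 (mem_sdiff.1 hb).1).2
    linarith
  have x1 : pos s B = pos s B' := Subset.antisymm hp (sdiff_eq_empty_iff_subset.1 y1)
  have x2 : neg s B = neg s B' := Subset.antisymm (sdiff_eq_empty_iff_subset.1 y2) hn
  rw [← pos_union_neg h, ← pos_union_neg h', x1, x2]

/-- the event of a set -/
def ev (s : α → ℚ) (A B : Finset α) :
    Finset (Numbering {x // x ∈ pos s A} × Numbering {x // x ∈ neg s A}) :=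
  Numbering.prefixed (B.subtype (fun x => x ∈ pos s A)) ×ˢ
    Numbering.prefixed (B.subtype (fun x => x ∈ neg s A))

lemma map_pos {s : α → ℚ} {A B : Finset α} (hB : B ⊆ A) :
    (B.subtype (fun x => x ∈ pos s A)).map (Function.Embedding.subtype _) = pos s B := by
  rw [Finset.subtype_map]
  ext x
  simp only [pos, mem_filter]
  constructor
  · rintro ⟨h1, h2, h3⟩; exact ⟨h1, h3⟩
  · rintro ⟨h1, h3⟩; exact ⟨h1, hB h1, h3⟩

lemma map_neg {s : α → ℚ} {A B : Finset α} (hB : B ⊆ A) :
    (B.subtype (fun x => x ∈ neg s A)).map (Function.Embedding.subtype _) = neg s B := by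
  rw [Finset.subtype_map]
  ext x
  simp only [neg, mem_filter]
  constructor
  · rintro ⟨h1, h2, h3⟩; exact ⟨h1, h3⟩
  · rintro ⟨h1, h3⟩; exact ⟨h1, hB h1, h3⟩

lemma card_sub_pos {s : α → ℚ} {A B : Finset α} (hB : B ⊆ A) :
    (B.subtype (fun x => x ∈ pos s A)).card = (pos s B).card := by
  rw [← map_pos hB, card_map]

lemma card_sub_neg {s : α → ℚ} {A B : Finset α} (hB : B ⊆ A) :
    (B.subtype (fun x => x ∈ neg s A)).card = (neg s B).card := by
  rw [← map_neg hB, card_map]

lemma ev_aux {s : α → ℚ} {A B B' : Finset α} {r : ℕ} (hA : ∀ a ∈ A, s a ≠ 0)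
    (hB : B ⊆ A) (hB' : B' ⊆ A) (hr : B.card = r) (hr' : B'.card = r)
    (h0 : ∑ b ∈ B, s b = 0) (h0' : ∑ b ∈ B', s b = 0)
    {x : Numbering {x // x ∈ pos s A} × Numbering {x // x ∈ neg s A}}
    (hx : x ∈ ev s A B) (hx' : x ∈ ev s A B') (hle : (pos s B).card ≤ (pos s B').card) :
    B = B' := by
  have hs : ∀ b ∈ B, s b ≠ 0 := fun b hb => hA b (hB hb)
  have hs' : ∀ b ∈ B', s b ≠ 0 := fun b hb => hA b (hB' hb)
  have c := card_pos_add_neg hs
  have c' := card_pos_add_neg hs'
  obtain ⟨x1, x2⟩ := mem_product.1 hx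
  obtain ⟨y1, y2⟩ := mem_product.1 hx'
  rw [Numbering.mem_prefixed] at x1 x2 y1 y2
  apply exclusion hs hs' h0 h0'
  · rw [← map_pos hB, ← map_pos hB', map_subset_map]
    apply x1.subset_of_card_le_card y1
    rw [card_sub_pos hB, card_sub_pos hB']
    exact hle
  · rw [← map_neg hB, ← map_neg hB', map_subset_map]
    apply y2.subset_of_card_le_card x2
    rw [card_sub_neg hB, card_sub_neg hB']
    omega

lemma ev_disj {s : α → ℚ} {A B B' : Finset α} {r : ℕ} (hA : ∀ a ∈ A, s a ≠ 0)
    (hB : B ⊆ A) (hB' : B' ⊆ A) (hr : B.card = r) (hr' : B'.card = r)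
    (h0 : ∑ b ∈ B, s b = 0) (h0' : ∑ b ∈ B', s b = 0) (hne : B ≠ B') :
    Disjoint (ev s A B) (ev s A B') := by
  rw [Finset.disjoint_left]
  intro x hx hx'
  rcases Nat.le_total (pos s B).card (pos s B').card with h | h
  · exact hne (ev_aux hA hB hB' hr hr' h0 h0' hx hx' h)
  · exact hne (ev_aux hA hB' hB hr' hr h0' h0 hx' hx h).symm

lemma card_ev {s : α → ℚ} {A B : Finset α} (hB : B ⊆ A) :
    (ev s A B).card = ((pos s B).card.factorial * ((pos s A).card - (pos s B).card).factorial) *
      ((neg s B).card.factorial * ((neg s A).card - (neg s B).card).factorial) := by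
  unfold ev
  rw [card_product, Numbering.card_prefixed, Numbering.card_prefixed, card_sub_pos hB,
    card_sub_neg hB, Fintype.card_coe, Fintype.card_coe]

/-- The combinatorial bound. -/
theorem comb_bound {s : α → ℚ} {A : Finset α} {r M : ℕ} (hr : 1 ≤ r) (hA : ∀ a ∈ A, s a ≠ 0)
    (F : Finset (Finset α)) (hF : ∀ B ∈ F, B ⊆ A ∧ B.card = r ∧ ∑ b ∈ B, s b = 0)
    (hM : ∀ k t : ℕ, 1 ≤ k → 1 ≤ t → k + t = r →
      (pos s A).card.choose k * (neg s A).card.choose t ≤ M) : F.card ≤ M := by
  set T := (pos s A).card.factorial * (neg s A).card.factorial with hT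
  have hTpos : 0 < T := by positivity
  have hone : ∀ B ∈ F, T ≤ M * (ev s A B).card := by
    intro B hBF
    obtain ⟨hB, hcard, hsum⟩ := hF B hBF
    have hs : ∀ b ∈ B, s b ≠ 0 := fun b hb => hA b (hB hb)
    have c := card_pos_add_neg hs
    have e := sum_pos_add_neg hs
    rw [hsum] at e
    have hp1 : 1 ≤ (pos s B).card := by
      by_contra hcon
      have h0 : pos s B = ∅ := card_eq_zero.1 (by omega)
      have hn : (neg s B).Nonempty := by
        rw [← card_pos]; rw [h0, card_empty] at c; omega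
      rw [h0, sum_empty, zero_add] at e
      have : ∑ b ∈ neg s B, s b < 0 := sum_neg (fun b hb => (mem_filter.1 hb).2) hn
      linarith
    have hn1 : 1 ≤ (neg s B).card := by
      by_contra hcon
      have h0 : neg s B = ∅ := card_eq_zero.1 (by omega)
      have hn : (pos s B).Nonempty := by
        rw [← card_pos]; rw [h0, card_empty] at c; omega
      rw [h0, sum_empty, add_zero] at e
      have : 0 < ∑ b ∈ pos s B, s b := sum_pos (fun b hb => (mem_filter.1 hb).2) hn
      linarith
    have hM' := hM _ _ hp1 hn1 (by omega)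
    have hsp : (pos s B).card ≤ (pos s A).card := card_le_card (filter_subset_filter _ hB)
    have hsn : (neg s B).card ≤ (neg s A).card := card_le_card (filter_subset_filter _ hB)
    have f1 := Nat.choose_mul_factorial_mul_factorial hsp
    have f2 := Nat.choose_mul_factorial_mul_factorial hsn
    rw [card_ev hB]
    calc T = ((pos s A).card.choose (pos s B).card * (pos s B).card.factorial *
            ((pos s A).card - (pos s B).card).factorial) *
            ((neg s A).card.choose (neg s B).card * (neg s B).card.factorial *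
            ((neg s A).card - (neg s B).card).factorial) := by rw [f1, f2]
      _ = ((pos s A).card.choose (pos s B).card * (neg s A).card.choose (neg s B).card) *
          (((pos s B).card.factorial * ((pos s A).card - (pos s B).card).factorial) *
      ((neg s B).card.factorial * ((neg s A).card - (neg s B).card).factorial)) := by ring
      _ ≤ _ := Nat.mul_le_mul_right _ hM'
  have hsum : ∑ B ∈ F, (ev s A B).card ≤ T := by
    rw [← card_biUnion]
    · refine (card_le_univ _).trans ?_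
      rw [Fintype.card_prod, Fintype.card_numbering, Fintype.card_numbering, Fintype.card_coe,
        Fintype.card_coe]
    · intro B hB B' hB' hne
      obtain ⟨a1, a2, a3⟩ := hF B hB
      obtain ⟨b1, b2, b3⟩ := hF B' hB'
      exact ev_disj hA a1 b1 a2 b2 a3 b3 hne
  have hfin : F.card * T ≤ M * T := by
    calc F.card * T = ∑ B ∈ F, T := by rw [sum_const, smul_eq_mul]
      _ ≤ ∑ B ∈ F, M * (ev s A B).card := sum_le_sum hone
      _ = M * ∑ B ∈ F, (ev s A B).card := by rw [mul_sum]
      _ ≤ M * T := Nat.mul_le_mul_left _ hsum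
  exact Nat.le_of_mul_le_mul_right hfin hTpos

/-- a rational-valued functional killing the rationals and no element of `A` -/
lemma exists_functional (A : Finset ℝ) (hA : ∀ a ∈ A, Irrational a) :
    ∃ g : ℝ →ₗ[ℚ] ℚ, (∀ q : ℚ, g (q : ℝ) = 0) ∧ ∀ a ∈ A, g a ≠ 0 := by
  set W : Submodule ℚ ℝ := Submodule.span ℚ {(1 : ℝ)} with hW
  have hv : ∀ a : {a // a ∈ A}, W.mkQ (a : ℝ) ≠ 0 := by
    intro a h0
    rw [Submodule.mkQ_apply, Submodule.Quotient.mk_eq_zero, hW, Submodule.mem_span_singleton] at h0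
    obtain ⟨q, hq⟩ := h0
    apply hA a a.2
    refine ⟨q, ?_⟩
    rw [← hq, Rat.smul_def, mul_one]
  obtain ⟨f, hf⟩ := Module.exists_dual_forall_apply_ne_zero (K := ℚ)
    (fun a : {a // a ∈ A} => W.mkQ (a : ℝ)) hv
  refine ⟨f.comp W.mkQ, ?_, ?_⟩
  · intro q
    have : W.mkQ (q : ℝ) = 0 := by
      rw [Submodule.mkQ_apply, Submodule.Quotient.mk_eq_zero, hW, Submodule.mem_span_singleton]
      exact ⟨q, by rw [Rat.smul_def, mul_one]⟩
    rw [LinearMap.comp_apply, this, map_zero]
  · intro a ha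
    exact hf ⟨a, ha⟩

/-- The upper bound. -/
theorem upper {A : Finset ℝ} {n r : ℕ} (hA : ∀ a ∈ A, Irrational a) (hn : A.card = n)
    (hr : 4 ≤ r) (hrn : 2 * r ≤ n) (F : Finset (Finset ℝ))
    (hF : ∀ B ∈ F, B ⊆ A ∧ B.card = r ∧ ∃ q : ℚ, ∑ b ∈ B, b = (q : ℝ)) : F.card ≤ f n r := by
  obtain ⟨g, hg, hgA⟩ := exists_functional A hA
  apply comb_bound (s := fun x => g x) (A := A) (by omega : 1 ≤ r) hgA F
  · intro B hB
    obtain ⟨h1, h2, q, h3⟩ := hF B hB
    refine ⟨h1, h2, ?_⟩
    have : g (∑ b ∈ B, b) = ∑ b ∈ B, g b := map_sum g _ _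
    rw [← this, h3, hg]
  · intro k t hk ht hkt
    apply arith hr hrn hk ht hkt
    have := card_pos_add_neg (s := fun x => g x) (B := A) hgA
    omega

end Pool.Agent.R798.RatSum
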