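import Mathlib
import Pool.Agent.R798.RatSumD

/-!
# Rational `r`-term sums: the construction
-/

namespace Pool.Agent.R798.RatSum

open Finset

/-- first coset -/
noncomputable def a1 (r : ℕ) (i : ℕ) : ℝ := (i : ℝ) - (r - 1) * Real.sqrt 2
/-- second coset -/
noncomputable def a2 (j : ℕ) : ℝ := (j : ℝ) + Real.sqrt 2

lemma a1_inj (r : ℕ) : Function.Injective (a1 r) := by
  intro i j h
  unfold a1 at h
  have : (i : ℝ) = j := by linarith
  exact_mod_cast this

lemma a2_inj : Function.Injective a2 := by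
  intro i j h
  unfold a2 at h
  have : (i : ℝ) = j := by linarith
  exact_mod_cast this

/-- the constructed set -/
noncomputable def A1 (r m : ℕ) : Finset ℝ := (range m).image (a1 r)
/-- the constructed set -/
noncomputable def A2 (m : ℕ) : Finset ℝ := (range m).image a2

lemma irr_a1 {r : ℕ} (hr : 2 ≤ r) (i : ℕ) : Irrational (a1 r i) := by
  rintro ⟨q, hq⟩
  unfold a1 at hq
  have hr0 : ((r : ℝ) - 1) ≠ 0 := by
    have : (2 : ℝ) ≤ r := by exact_mod_cast hr
    linarith
  apply irrational_sqrt_two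
  refine ⟨((i : ℚ) - q) / (r - 1), ?_⟩
  push_cast
  rw [div_eq_iff hr0]
  linarith

lemma irr_a2 (j : ℕ) : Irrational (a2 j) := by
  rintro ⟨q, hq⟩
  unfold a2 at hq
  apply irrational_sqrt_two
  refine ⟨q - (j : ℚ), ?_⟩
  push_cast
  linarith

lemma a1_ne_a2 {r : ℕ} (hr : 2 ≤ r) (i j : ℕ) : a1 r i ≠ a2 j := by
  intro h
  unfold a1 a2 at h
  have hr0 : (r : ℝ) ≠ 0 := by
    have : (2 : ℝ) ≤ r := by exact_mod_cast hr
    linarith
  apply irrational_sqrt_two
  refine ⟨((i : ℚ) - j) / r, ?_⟩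
  push_cast
  rw [div_eq_iff hr0]
  linarith

lemma A_disj {r : ℕ} (hr : 2 ≤ r) (m m' : ℕ) : Disjoint (A1 r m) (A2 m') := by
  rw [Finset.disjoint_left]
  intro x hx hy
  obtain ⟨i, _, rfl⟩ := mem_image.1 hx
  obtain ⟨j, _, hj⟩ := mem_image.1 hy
  exact a1_ne_a2 hr i j hj.symm

lemma sum_a2 (T : Finset ℝ) (m : ℕ) (hT : T ⊆ A2 m) :
    ∃ q : ℚ, ∑ b ∈ T, b = (q : ℝ) + T.card * Real.sqrt 2 := by
  induction T using Finset.induction_on with
  | empty => exact ⟨0, by simp⟩
  | insert x T hx ih =>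
    obtain ⟨q, hq⟩ := ih (fun y hy => hT (mem_insert_of_mem hy))
    obtain ⟨j, _, hj⟩ := mem_image.1 (hT (mem_insert_self x T))
    refine ⟨(j : ℚ) + q, ?_⟩
    rw [sum_insert hx, card_insert_of_notMem hx, hq, ← hj]
    unfold a2
    push_cast
    ring

/-- the family of the construction -/
noncomputable def Fam (r m m' : ℕ) : Finset (Finset ℝ) :=
  ((A1 r m) ×ˢ ((A2 m').powersetCard (r - 1))).image (fun x => insert x.1 x.2)

lemma card_A1 (r m : ℕ) : (A1 r m).card = m := by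
  unfold A1
  rw [card_image_of_injective _ (a1_inj r), card_range]

lemma card_A2 (m : ℕ) : (A2 m).card = m := by
  unfold A2
  rw [card_image_of_injective _ a2_inj, card_range]

lemma card_Fam {r : ℕ} (hr : 2 ≤ r) (m m' : ℕ) : (Fam r m m').card = m'.choose (r - 1) * m := by
  unfold Fam
  rw [card_image_of_injOn, card_product, card_powersetCard, card_A1, card_A2, Nat.mul_comm]
  rintro ⟨x, T⟩ hx ⟨y, U⟩ hy hxy
  simp only [coe_product, Set.mem_prod, mem_coe, mem_powersetCard] at hx hy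
  obtain ⟨hx1, hx2, hx3⟩ := hx
  obtain ⟨hy1, hy2, hy3⟩ := hy
  simp only at hxy
  have hd := A_disj hr m m'
  rw [Finset.disjoint_left] at hd
  have hxT : x ∉ T := fun h => hd hx1 (hx2 h)
  have hyU : y ∉ U := fun h => hd hy1 (hy2 h)
  have hxU : x ∉ U := fun h => hd hx1 (hy2 h)
  have hxy' : x = y := by
    have : x ∈ insert y U := by rw [← hxy]; exact mem_insert_self _ _
    rcases mem_insert.1 this with h | h
    · exact h
    · exact absurd h hxU
  subst hxy'
  have : T = U := by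
    have e1 : (insert x T).erase x = T := erase_insert hxT
    have e2 : (insert x U).erase x = U := erase_insert hyU
    rw [← e1, ← e2, hxy]
  rw [this]

lemma mem_Fam {r : ℕ} (hr : 2 ≤ r) {m m' : ℕ} {B : Finset ℝ} (hB : B ∈ Fam r m m') :
    B ⊆ A1 r m ∪ A2 m' ∧ B.card = r ∧ ∃ q : ℚ, ∑ b ∈ B, b = (q : ℝ) := by
  unfold Fam at hB
  obtain ⟨⟨x, T⟩, hxT, rfl⟩ := mem_image.1 hB
  simp only [mem_product, mem_powersetCard] at hxT
  obtain ⟨hx1, hT1, hT2⟩ := hxT
  have hd := A_disj hr m m'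
  rw [Finset.disjoint_left] at hd
  have hx : x ∉ T := fun h => hd hx1 (hT1 h)
  refine ⟨?_, ?_, ?_⟩
  · intro y hy
    rcases mem_insert.1 hy with h | h
    · subst h; exact mem_union_left _ hx1
    · exact mem_union_right _ (hT1 h)
  · rw [card_insert_of_notMem hx, hT2]; omega
  · obtain ⟨q, hq⟩ := sum_a2 T m' hT1
    obtain ⟨i, _, hi⟩ := mem_image.1 hx1
    refine ⟨(i : ℚ) + q, ?_⟩
    rw [sum_insert hx, hq, ← hi, hT2]
    unfold a1
    rw [Nat.cast_sub (by omega : 1 ≤ r)]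
    push_cast
    ring

end Pool.Agent.R798.RatSum
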