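import Pool.Agent.R798.Index

/-! # The Casson invariant of a diagram, and its behaviour under a change of the starting point -/

set_option autoImplicit false

namespace Pool.Agent.R798

/-- The pattern that the invariant counts. -/
def pat (a b : ℕ) (s t : Bool) : List Letter :=
  [⟨a, false, s⟩, ⟨b, true, t⟩, ⟨a, true, s⟩, ⟨b, false, t⟩]

/-- The weight of a list. -/
def pw (a b : ℕ) (l : List Letter) : ℤ :=
  ∑ s : Bool, ∑ t : Bool, if l = pat a b s t then sg s * sg t else 0

/-- The letters with two given names. -/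
def two (a b : ℕ) (D : List Letter) : List Letter := D.filter fun x => x.lab = a ∨ x.lab = b

/-- The names of the crossings. -/
def labels (D : List Letter) : Finset ℕ := (D.map Letter.lab).toFinset

/-- The invariant. -/
def v2 (D : List Letter) : ℤ := ∑ a ∈ labels D, ∑ b ∈ labels D, pw a b (two a b D)

theorem pw_zero {a b : ℕ} {l : List Letter} (h : l.map Letter.lab ≠ [a, b, a, b]) : pw a b l = 0 := by
  unfold pw
  refine Finset.sum_eq_zero fun s _ => Finset.sum_eq_zero fun t _ => if_neg ?_
  rintro rfl
  exact h rfl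

theorem pw_zero' {a b : ℕ} {l : List Letter} (h : l.map Letter.upper ≠ [false, true, true, false]) :
    pw a b l = 0 := by
  unfold pw
  refine Finset.sum_eq_zero fun s _ => Finset.sum_eq_zero fun t _ => if_neg ?_
  rintro rfl
  exact h rfl

theorem two_left {a b : ℕ} {D : List Letter} (h : a ∉ labels D) : pw a b (two a b D) = 0 := by
  refine pw_zero fun h1 => h ?_
  have h2 : a ∈ (two a b D).map Letter.lab := by rw [h1]; simp
  obtain ⟨x, hx, rfl⟩ := List.mem_map.1 h2
  rw [labels, List.mem_toFinset]
  exact List.mem_map_of_mem (List.mem_of_mem_filter hx)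

theorem two_right {a b : ℕ} {D : List Letter} (h : b ∉ labels D) : pw a b (two a b D) = 0 := by
  refine pw_zero fun h1 => h ?_
  have h2 : b ∈ (two a b D).map Letter.lab := by rw [h1]; simp
  obtain ⟨x, hx, rfl⟩ := List.mem_map.1 h2
  rw [labels, List.mem_toFinset]
  exact List.mem_map_of_mem (List.mem_of_mem_filter hx)

theorem v2_eq {D : List Letter} {S : Finset ℕ} (h : labels D ⊆ S) :
    v2 D = ∑ a ∈ S, ∑ b ∈ S, pw a b (two a b D) := by
  unfold v2
  rw [← Finset.sum_subset h]
  · refine Finset.sum_congr rfl fun a _ => ?_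
    rw [← Finset.sum_subset h]
    intro b _ hb
    exact two_right hb
  · intro a _ ha
    exact Finset.sum_eq_zero fun b _ => two_left ha

/-- A diagram as a resolution of its curve. -/
def res (t : ℕ → Bool) (p : Pass) : Letter := ⟨p.lab, p.ori == t p.lab, t p.lab⟩

@[simp] theorem res_pass (t : ℕ → Bool) (p : Pass) : (res t p).pass = p := by
  obtain ⟨l, o⟩ := p
  unfold res Letter.pass
  cases o <;> cases t l <;> rfl

@[simp] theorem res_lab (t : ℕ → Bool) (p : Pass) : (res t p).lab = p.lab := rfl
@[simp] theorem res_pos (t : ℕ → Bool) (p : Pass) : (res t p).pos = t p.lab := rfl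
@[simp] theorem res_upper (t : ℕ → Bool) (p : Pass) : (res t p).upper = (p.ori == t p.lab) := rfl
theorem res_flip (t : ℕ → Bool) (p : Pass) : res t p.flip = (res t p).flip := by
  obtain ⟨l, o⟩ := p
  unfold res Letter.flip Pass.flip
  cases o <;> cases t l <;> rfl

@[simp] theorem Letter.flip_pass (x : Letter) : x.flip.pass = x.pass.flip := by
  obtain ⟨l, u, s⟩ := x
  unfold Letter.pass Letter.flip Pass.flip
  cases u <;> cases s <;> rfl

theorem Letter.flip_flip (x : Letter) : x.flip.flip = x := by
  cases x; simp [Letter.flip]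

theorem pass_eq_or {x y : Pass} (h : x.lab = y.lab) : x = y ∨ x = y.flip := by
  obtain ⟨l, o⟩ := x
  obtain ⟨l', o'⟩ := y
  simp only at h
  subst h
  cases o <;> cases o' <;> simp [Pass.flip]

theorem curve_res (t : ℕ → Bool) (w : List Pass) : curve (w.map (res t)) = w := by
  unfold curve
  rw [List.map_map]
  conv_rhs => rw [← List.map_id w]
  refine List.map_congr_left fun p _ => res_pass t p

theorem isDiagram_res (t : ℕ → Bool) {w : List Pass} (hw : IsPlaneCurve w) :
    IsDiagram (w.map (res t)) := by
  refine ⟨?_, by rw [curve_res]; exact hw⟩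
  intro x hx
  obtain ⟨p, hp, rfl⟩ := List.mem_map.1 hx
  rw [← res_flip]
  exact List.mem_map_of_mem (hw.2.1 p hp)

theorem exists_res {D : List Letter} (hD : IsDiagram D) : ∃ t, D = (curve D).map (res t) := by
  classical
  refine ⟨fun c => decide (∃ y ∈ D, y.lab = c ∧ y.pos = true), ?_⟩
  unfold curve
  rw [List.map_map]
  conv_lhs => rw [← List.map_id D]
  refine List.map_congr_left fun x hx => ?_
  have key : decide (∃ y ∈ D, y.lab = x.lab ∧ y.pos = true) = x.pos := by
    cases hs : x.pos with
    | true => exact decide_eq_true ⟨x, hx, rfl, hs⟩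
    | false =>
      refine decide_eq_false ?_
      rintro ⟨y, hy, h1, h2⟩
      have h3 : y.pass.lab = x.pass.lab := h1
      have h4 := hD.2.1
      unfold curve at h4
      have h5 : y = x ∨ y = x.flip := by
        rcases pass_eq_or h3 with h | h
        · exact Or.inl (List.inj_on_of_nodup_map h4 hy hx h)
        · rw [← Letter.flip_pass] at h
          exact Or.inr (List.inj_on_of_nodup_map h4 hy (hD.1 x hx) h)
      rcases h5 with rfl | rfl
      · rw [hs] at h2; exact absurd h2 (by simp)
      · have : x.flip.pos = x.pos := rfl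
        rw [this, hs] at h2; exact absurd h2 (by simp)
  show x = res _ x.pass
  obtain ⟨l, u, s⟩ := x
  simp only at key
  unfold res Letter.pass
  simp only [key]
  cases u <;> cases s <;> rfl

/-- The letters with one given name. -/
theorem filter_form {w : List Pass} (hd : w.Nodup) (hf : ∀ x ∈ w, x.flip ∈ w) (b : ℕ) :
    w.filter (fun x => x.lab = b) = [] ∨
      ∃ z : Pass, z.lab = b ∧ w.filter (fun x => x.lab = b) = [z, z.flip] := by
  by_cases hb : ∃ z ∈ w, z.lab = b
  · obtain ⟨z, hz, rfl⟩ := hb
    right
    have hn : (w.filter (fun x => x.lab = z.lab)).Nodup := hd.filter _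
    have hp : (w.filter (fun x => x.lab = z.lab)).Perm [z, z.flip] := by
      rw [List.perm_ext_iff_of_nodup hn (by simpa using (Pass.flip_ne z).symm)]
      intro x
      simp only [List.mem_filter, decide_eq_true_eq, List.mem_cons, List.not_mem_nil, or_false]
      constructor
      · rintro ⟨_, h⟩
        exact pass_eq_or h
      · rintro (rfl | rfl)
        · exact ⟨hz, rfl⟩
        · exact ⟨hf _ hz, rfl⟩
    rcases hF : w.filter (fun x => x.lab = z.lab) with _ | ⟨p, _ | ⟨q, _ | ⟨r, l⟩⟩⟩
    · rw [hF] at hp; simpa using hp.length_eq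
    · rw [hF] at hp; simpa using hp.length_eq
    · rw [hF] at hp hn
      have h1 : p = z ∨ p = z.flip := by simpa using hp.subset (List.mem_cons_self)
      have h2 : q = z ∨ q = z.flip := by simpa using hp.subset (List.mem_cons_of_mem _ List.mem_cons_self)
      have h3 : p ≠ q := by simpa using hn
      rcases h1 with rfl | rfl <;> rcases h2 with rfl | rfl
      · exact absurd rfl h3
      · exact ⟨p, rfl, hF⟩
      · exact ⟨q.flip, rfl, by simpa using hF⟩
      · exact absurd rfl h3
    · rw [hF] at hp; simpa using hp.length_eq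
  · left
    rw [List.filter_eq_nil_iff]
    intro x hx h
    exact hb ⟨x, hx, by simpa using h⟩

theorem app2 {α : Type} {X Y : List α} {p q : α} (h : X ++ Y = [p, q]) :
    (X = [] ∧ Y = [p, q]) ∨ (X = [p] ∧ Y = [q]) ∨ (X = [p, q] ∧ Y = []) := by
  rcases X with _ | ⟨a, _ | ⟨b, _ | ⟨c, l⟩⟩⟩
  · left; simpa using h
  · right; left; simpa using h
  · right; right; simpa [and_assoc] using h
  · simp at h

/-- A sum whose terms vanish except those with index `c`. -/
theorem cross_sum {S : Finset ℕ} {d : ℕ → ℕ → ℤ} {c : ℕ} (hc : c ∈ S)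
    (h : ∀ a b, a ≠ c → b ≠ c → d a b = 0) (h0 : d c c = 0) :
    ∑ a ∈ S, ∑ b ∈ S, d a b = ∑ b ∈ S.erase c, (d c b + d b c) := by
  rw [← Finset.add_sum_erase S _ hc, ← Finset.add_sum_erase S (fun b => d c b) hc, h0, zero_add,
    Finset.sum_add_distrib]
  congr 1
  refine Finset.sum_congr rfl fun a ha => ?_
  exact Finset.sum_eq_single_of_mem c hc fun b _ hb => h a b (Finset.ne_of_mem_erase ha) hb

theorem sum_filter_lab {B : List Pass} {S : Finset ℕ} (h : ∀ y ∈ B, y.lab ∈ S) (f : Pass → ℤ) :
    ∑ b ∈ S, ((B.filter fun y => y.lab = b).map f).sum = (B.map f).sum := by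
  induction B with
  | nil => simp
  | cons y B ih =>
    have h1 := ih fun z hz => h z (List.mem_cons_of_mem _ hz)
    rw [List.map_cons, List.sum_cons, ← h1]
    have h2 : ∀ b, (((y :: B).filter fun y => y.lab = b).map f).sum =
        (if y.lab = b then f y else 0) + ((B.filter fun y => y.lab = b).map f).sum := by
      intro b
      rw [List.filter_cons]
      by_cases h : y.lab = b <;> simp [h]
    rw [Finset.sum_congr rfl fun b _ => h2 b, Finset.sum_add_distrib, Finset.sum_ite_eq,
      if_pos (h y List.mem_cons_self)]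

theorem two_res (t : ℕ → Bool) (a b : ℕ) (w : List Pass) :
    two a b (w.map (res t)) = (w.filter fun x => x.lab = a ∨ x.lab = b).map (res t) := by
  unfold two
  rw [List.filter_map]
  rfl

/-- The value of a pair. -/
theorem pw_res {a b : ℕ} (o o' : Bool) (t : ℕ → Bool) :
    pw a b [res t ⟨a, o⟩, res t ⟨b, o'⟩, res t ⟨a, !o⟩, res t ⟨b, !o'⟩] =
      if t a = !o ∧ t b = o' then sg (t a) * sg (t b) else 0 := by
  unfold pw res pat
  cases o <;> cases o' <;> cases t a <;> cases t b <;> simp

/-- The effect of a change of the starting point on a pair. -/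
theorem start_pair (t : ℕ → Bool) {x : Pass} {B C : List Pass} {b : ℕ} (hb : b ≠ x.lab)
    (hd : (x :: (B ++ x.flip :: C)).Nodup)
    (hf : ∀ y ∈ x :: (B ++ x.flip :: C), y.flip ∈ x :: (B ++ x.flip :: C)) :
    (pw x.lab b (two x.lab b ((x :: (B ++ x.flip :: C)).map (res t))) -
        pw x.lab b (two x.lab b (((B ++ x.flip :: C) ++ [x]).map (res t)))) +
      (pw b x.lab (two b x.lab ((x :: (B ++ x.flip :: C)).map (res t))) -
        pw b x.lab (two b x.lab (((B ++ x.flip :: C) ++ [x]).map (res t)))) =
      (if t x.lab = !x.ori then sg (t x.lab) else 0) *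
        ((B.filter fun y => y.lab = b).map fun y => sg y.ori).sum := by
  obtain ⟨a, o⟩ := x
  simp only at hb
  have hB : ∀ y ∈ B, y.lab ≠ a := by
    intro y hy h
    rcases pass_eq_or (y := ⟨a, o⟩) h with rfl | rfl
    · simp [hy] at hd
    · have : ¬ List.Disjoint B ((⟨a, o⟩ : Pass).flip :: C) := fun h => h hy List.mem_cons_self
      rw [List.nodup_cons, List.nodup_append'] at hd
      exact this hd.2.2.2
  have hC : ∀ y ∈ C, y.lab ≠ a := by
    intro y hy h
    rw [List.nodup_cons, List.nodup_append'] at hd
    rcases pass_eq_or (y := ⟨a, o⟩) h with rfl | rfl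
    · simp [hy] at hd
    · have := hd.2.2.1
      simp [hy] at this
  have hBa : B.filter (fun y => y.lab = a) = [] := by
    rw [List.filter_eq_nil_iff]; intro y hy; simpa using hB y hy
  have hCa : C.filter (fun y => y.lab = a) = [] := by
    rw [List.filter_eq_nil_iff]; intro y hy; simpa using hC y hy
  have e1 : B.filter (fun y => y.lab = a ∨ y.lab = b) = B.filter (fun y => y.lab = b) :=
    List.filter_congr fun y hy => by simp [hB y hy]
  have e2 : C.filter (fun y => y.lab = a ∨ y.lab = b) = C.filter (fun y => y.lab = b) :=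
    List.filter_congr fun y hy => by simp [hC y hy]
  have e3 : B.filter (fun y => y.lab = b ∨ y.lab = a) = B.filter (fun y => y.lab = b) :=
    List.filter_congr fun y hy => by simp [hB y hy]
  have e4 : C.filter (fun y => y.lab = b ∨ y.lab = a) = C.filter (fun y => y.lab = b) :=
    List.filter_congr fun y hy => by simp [hC y hy]
  have hab : ¬ a = b := fun h => hb h.symm
  rw [two_res, two_res, two_res, two_res]
  simp only [List.filter_cons, List.filter_append, e1, e2, e3, e4, Pass.flip_lab, true_or, or_true,
    decide_true, if_true, List.filter_nil]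
  have h0 : B.filter (fun y => y.lab = b) ++ C.filter (fun y => y.lab = b) =
      (⟨a, o⟩ :: (B ++ (⟨a, o⟩ : Pass).flip :: C)).filter (fun y => y.lab = b) := by
    simp [hab]
  rcases filter_form hd hf b with h | ⟨⟨c, o'⟩, hc, h⟩
  · rw [h, List.append_eq_nil_iff] at h0
    rw [h0.1, h0.2]
    simp [pw, pat]
  · simp only at hc
    subst hc
    rw [h] at h0
    rcases app2 h0 with ⟨h1, h2⟩ | ⟨h1, h2⟩ | ⟨h1, h2⟩
    · rw [h1, h2]
      rw [pw_zero (by simp [hb]), pw_zero (by simp [hb]), pw_zero (by simp [hb]), pw_zero (by simp [hb])]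
      simp
    · rw [h1, h2]
      have k1 := pw_res (a := a) (b := c) o o' t
      have k2 := pw_res (a := c) (b := a) o' (!o) t
      rw [Bool.not_not] at k2
      simp only [Pass.flip, List.map_cons, List.map_nil, List.cons_append, List.nil_append]
      rw [k1, k2, pw_zero (by simp [hb]), pw_zero (by simp [hb])]
      cases o <;> cases o' <;> cases t a <;> cases t c <;> simp
    · rw [h1, h2]
      rw [pw_zero (by simp [hb]), pw_zero (by simp [hb]), pw_zero (by simp [hb]), pw_zero (by simp [hb])]
      simp [Pass.flip]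

end Pool.Agent.R798
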